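import Pool.Agent.ZC.Defs2

/-!
# ZC14: every elliptic curve over `ℚ̄` is a Legendre curve
-/

set_option autoImplicit false

noncomputable section

namespace Pool.Agent.ZC

open Polynomial WeierstrassCurve
open scoped Classical

/-- The change of variables `(X, Y) ↦ (w²X + r, w³Y + s w²X + t)` maps `W'` to `W`. -/
structure IsoChg {K : Type} [Field K] (W' W : WeierstrassCurve K) (w r s t : K) : Prop where
  w0 : w ≠ 0
  e1 : w * W'.a₁ = W.a₁ + 2 * s
  e2 : w ^ 2 * W'.a₂ = W.a₂ - s * W.a₁ + 3 * r - s ^ 2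
  e3 : w ^ 3 * W'.a₃ = W.a₃ + r * W.a₁ + 2 * t
  e4 : w ^ 4 * W'.a₄ = W.a₄ - s * W.a₃ + 2 * r * W.a₂ - (t + r * s) * W.a₁ + 3 * r ^ 2 - 2 * s * t
  e6 : w ^ 6 * W'.a₆ = W.a₆ + r * W.a₄ + r ^ 2 * W.a₂ + r ^ 3 - t * W.a₃ - t ^ 2 - r * t * W.a₁

namespace IsoChg

variable {K : Type} [Field K] {W' W : WeierstrassCurve K} {w r s t : K}

theorem equation (h : IsoChg W' W w r s t) {X Y : K} (hE : W'.toAffine.Equation X Y) :
    W.toAffine.Equation (w ^ 2 * X + r) (w ^ 3 * Y + s * w ^ 2 * X + t) := by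
  rw [Affine.equation_iff] at hE ⊢
  have e1 := h.e1
  have e2 := h.e2
  have e3 := h.e3
  have e4 := h.e4
  have e6 := h.e6
  linear_combination w ^ 6 * hE - (w ^ 5 * X * Y) * e1 + (w ^ 4 * X ^ 2) * e2 - (w ^ 3 * Y) * e3 +
    (w ^ 2 * X) * e4 + e6

theorem negY (h : IsoChg W' W w r s t) (X Y : K) :
    W.toAffine.negY (w ^ 2 * X + r) (w ^ 3 * Y + s * w ^ 2 * X + t) =
      w ^ 3 * W'.toAffine.negY X Y + s * w ^ 2 * X + t := by
  have e1 := h.e1
  have e3 := h.e3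
  simp only [Affine.negY]
  linear_combination w ^ 2 * X * e1 + e3

theorem addX (h : IsoChg W' W w r s t) (X₁ X₂ L : K) :
    W.toAffine.addX (w ^ 2 * X₁ + r) (w ^ 2 * X₂ + r) (w * L + s) =
      w ^ 2 * W'.toAffine.addX X₁ X₂ L + r := by
  have e1 := h.e1
  have e2 := h.e2
  simp only [Affine.addX]
  linear_combination -(w * L) * e1 + e2

theorem addY (h : IsoChg W' W w r s t) (X₁ X₂ Y₁ L : K) :
    W.toAffine.addY (w ^ 2 * X₁ + r) (w ^ 2 * X₂ + r) (w ^ 3 * Y₁ + s * w ^ 2 * X₁ + t)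
      (w * L + s) =
      w ^ 3 * W'.toAffine.addY X₁ X₂ Y₁ L + s * w ^ 2 * W'.toAffine.addX X₁ X₂ L + t := by
  have e : W.toAffine.negAddY (w ^ 2 * X₁ + r) (w ^ 2 * X₂ + r)
      (w ^ 3 * Y₁ + s * w ^ 2 * X₁ + t) (w * L + s) =
      w ^ 3 * W'.toAffine.negAddY X₁ X₂ Y₁ L + s * w ^ 2 * W'.toAffine.addX X₁ X₂ L + t := by
    rw [Affine.negAddY, Affine.negAddY, h.addX]
    ring
  rw [Affine.addY, Affine.addY, e, h.addX, h.negY]

theorem xne (h : IsoChg W' W w r s t) {X₁ X₂ : K} (hx : X₁ ≠ X₂) :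
    w ^ 2 * X₁ + r ≠ w ^ 2 * X₂ + r := by
  intro hh
  apply hx
  have : w ^ 2 * X₁ = w ^ 2 * X₂ := by linear_combination hh
  exact mul_left_cancel₀ (pow_ne_zero 2 h.w0) this

theorem yne (h : IsoChg W' W w r s t) {X Y₁ Y₂ : K} (hy : Y₁ ≠ Y₂) :
    w ^ 3 * Y₁ + s * w ^ 2 * X + t ≠ w ^ 3 * Y₂ + s * w ^ 2 * X + t := by
  intro hh
  apply hy
  have : w ^ 3 * Y₁ = w ^ 3 * Y₂ := by linear_combination hh
  exact mul_left_cancel₀ (pow_ne_zero 3 h.w0) this

theorem slope (h : IsoChg W' W w r s t) {X₁ X₂ Y₁ Y₂ : K} (h₁ : W'.toAffine.Equation X₁ Y₁)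
    (h₂ : W'.toAffine.Equation X₂ Y₂) (hxy : ¬ (X₁ = X₂ ∧ Y₁ = W'.toAffine.negY X₂ Y₂)) :
    W.toAffine.slope (w ^ 2 * X₁ + r) (w ^ 2 * X₂ + r) (w ^ 3 * Y₁ + s * w ^ 2 * X₁ + t)
      (w ^ 3 * Y₂ + s * w ^ 2 * X₂ + t) = w * W'.toAffine.slope X₁ X₂ Y₁ Y₂ + s := by
  have w0 := h.w0
  by_cases hx : X₁ = X₂
  · subst hx
    have hy : Y₁ ≠ W'.toAffine.negY X₁ Y₂ := fun hy => hxy ⟨rfl, hy⟩
    have hY : Y₁ = Y₂ := Affine.Y_eq_of_Y_ne h₁ h₂ rfl hy
    subst hY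
    have hy' : w ^ 3 * Y₁ + s * w ^ 2 * X₁ + t ≠
        W.toAffine.negY (w ^ 2 * X₁ + r) (w ^ 3 * Y₁ + s * w ^ 2 * X₁ + t) := by
      rw [h.negY]
      exact h.yne hy
    rw [Affine.slope_of_Y_ne rfl hy, Affine.slope_of_Y_ne rfl hy', h.negY]
    have hD : Y₁ - W'.toAffine.negY X₁ Y₁ ≠ 0 := sub_ne_zero.mpr hy
    have hD' : w ^ 3 * Y₁ + s * w ^ 2 * X₁ + t -
        (w ^ 3 * W'.toAffine.negY X₁ Y₁ + s * w ^ 2 * X₁ + t) =
        w ^ 3 * (Y₁ - W'.toAffine.negY X₁ Y₁) := by ring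
    rw [hD', div_eq_iff (mul_ne_zero (pow_ne_zero 3 w0) hD)]
    have hN : (w * ((3 * X₁ ^ 2 + 2 * W'.a₂ * X₁ + W'.a₄ - W'.a₁ * Y₁) /
        (Y₁ - W'.toAffine.negY X₁ Y₁)) + s) * (w ^ 3 * (Y₁ - W'.toAffine.negY X₁ Y₁)) =
        w ^ 4 * (3 * X₁ ^ 2 + 2 * W'.a₂ * X₁ + W'.a₄ - W'.a₁ * Y₁) +
        s * w ^ 3 * (Y₁ - W'.toAffine.negY X₁ Y₁) := by
      field_simp
    rw [hN]
    simp only [Affine.negY]
    have e1 := h.e1
    have e2 := h.e2
    have e3 := h.e3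
    have e4 := h.e4
    linear_combination (w ^ 3 * Y₁ - s * w ^ 2 * X₁) * e1 - 2 * w ^ 2 * X₁ * e2 - s * e3 - e4
  · rw [Affine.slope_of_X_ne (h.xne hx), Affine.slope_of_X_ne hx]
    have h1 : X₁ - X₂ ≠ 0 := sub_ne_zero.mpr hx
    have h2 : w ^ 2 * X₁ + r - (w ^ 2 * X₂ + r) = w ^ 2 * (X₁ - X₂) := by ring
    rw [h2, div_eq_iff (mul_ne_zero (pow_ne_zero 2 w0) h1)]
    field_simp
    ring

/-- The map on points. -/
def fn (h : IsoChg W' W w r s t) (hW : W.Δ ≠ 0) : W'.toAffine.Point → W.toAffine.Point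
  | 0 => 0
  | .some X Y hP => .some (w ^ 2 * X + r) (w ^ 3 * Y + s * w ^ 2 * X + t)
      ((Affine.equation_iff_nonsingular_of_Δ_ne_zero hW).mp (h.equation hP.1))

theorem fn_zero (h : IsoChg W' W w r s t) (hW : W.Δ ≠ 0) : h.fn hW 0 = 0 := rfl

theorem fn_some (h : IsoChg W' W w r s t) (hW : W.Δ ≠ 0) {X Y : K}
    (hP : W'.toAffine.Nonsingular X Y) : h.fn hW (.some X Y hP) =
      .some (w ^ 2 * X + r) (w ^ 3 * Y + s * w ^ 2 * X + t)
      ((Affine.equation_iff_nonsingular_of_Δ_ne_zero hW).mp (h.equation hP.1)) := rfl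

theorem fn_add (h : IsoChg W' W w r s t) (hW : W.Δ ≠ 0) (P Q : W'.toAffine.Point) :
    h.fn hW (P + Q) = h.fn hW P + h.fn hW Q := by
  rcases P with _ | ⟨X₁, Y₁, h₁⟩
  · rfl
  rcases Q with _ | ⟨X₂, Y₂, h₂⟩
  · rfl
  by_cases hxy : X₁ = X₂ ∧ Y₁ = W'.toAffine.negY X₂ Y₂
  · rw [Affine.Point.add_of_Y_eq hxy.1 hxy.2, fn_zero, fn_some, fn_some]
    symm
    apply Affine.Point.add_of_Y_eq
    · rw [hxy.1]
    · rw [h.negY, hxy.1, hxy.2]
  · rw [Affine.Point.add_some hxy, fn_some, fn_some, fn_some]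
    have hxy' : ¬ (w ^ 2 * X₁ + r = w ^ 2 * X₂ + r ∧ w ^ 3 * Y₁ + s * w ^ 2 * X₁ + t =
        W.toAffine.negY (w ^ 2 * X₂ + r) (w ^ 3 * Y₂ + s * w ^ 2 * X₂ + t)) := by
      rintro ⟨hx, hy⟩
      have hX : X₁ = X₂ := by
        by_contra hX
        exact h.xne hX hx
      subst hX
      apply hxy
      refine ⟨rfl, ?_⟩
      rw [h.negY] at hy
      by_contra hY
      exact h.yne hY hy
    rw [Affine.Point.add_some hxy']
    simp only [Affine.Point.some.injEq]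
    rw [h.slope h₁.1 h₂.1 hxy]
    exact ⟨(h.addX _ _ _).symm, (h.addY _ _ _ _).symm⟩

theorem fn_injective (h : IsoChg W' W w r s t) (hW : W.Δ ≠ 0) : Function.Injective (h.fn hW) := by
  intro P Q hPQ
  rcases P with _ | ⟨X₁, Y₁, h₁⟩
  · rcases Q with _ | ⟨X₂, Y₂, h₂⟩
    · rfl
    · exact absurd hPQ.symm (Affine.Point.some_ne_zero _)
  · rcases Q with _ | ⟨X₂, Y₂, h₂⟩
    · exact absurd hPQ (Affine.Point.some_ne_zero _)
    · rw [fn_some, fn_some, Affine.Point.some.injEq] at hPQ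
      have hX : X₁ = X₂ := by
        by_contra hX
        exact h.xne hX hPQ.1
      subst hX
      have hY : Y₁ = Y₂ := by
        by_contra hY
        exact h.yne hY hPQ.2
      subst hY
      rfl

/-- The map on points as an additive map. -/
def hom (h : IsoChg W' W w r s t) (hW : W.Δ ≠ 0) : W'.toAffine.Point →+ W.toAffine.Point where
  toFun := h.fn hW
  map_zero' := rfl
  map_add' := h.fn_add hW

theorem baseChange (h : IsoChg W' W w r s t) (F : Type) [Field F] [Algebra K F] :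
    IsoChg (W'⁄F) (W⁄F) (algebraMap K F w) (algebraMap K F r) (algebraMap K F s)
      (algebraMap K F t) where
  w0 := by
    rw [Ne, map_eq_zero]
    exact h.w0
  e1 := by
    have := congrArg (algebraMap K F) h.e1
    simpa [WeierstrassCurve.baseChange, WeierstrassCurve.map, map_ofNat] using this
  e2 := by
    have := congrArg (algebraMap K F) h.e2
    simpa [WeierstrassCurve.baseChange, WeierstrassCurve.map, map_ofNat] using this
  e3 := by
    have := congrArg (algebraMap K F) h.e3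
    simpa [WeierstrassCurve.baseChange, WeierstrassCurve.map, map_ofNat] using this
  e4 := by
    have := congrArg (algebraMap K F) h.e4
    simpa [WeierstrassCurve.baseChange, WeierstrassCurve.map, map_ofNat] using this
  e6 := by
    have := congrArg (algebraMap K F) h.e6
    simpa [WeierstrassCurve.baseChange, WeierstrassCurve.map, map_ofNat] using this

theorem lift (h : IsoChg W' W w r s t) (hW : W.Δ ≠ 0) : Lift (h.fn hW) := by
  intro F _ _ a
  have hWF : (W⁄F).Δ ≠ 0 := by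
    rw [WeierstrassCurve.baseChange, WeierstrassCurve.map_Δ, Ne, map_eq_zero]
    exact hW
  refine ⟨(h.baseChange F).fn hWF a, ?_⟩
  intro O hO p hp
  have hc : ∀ c : K, algebraMap K F c ∈ O := hO.1
  have hc' : ∀ c : K, ∀ z : F, O.valuation z < 1 →
      O.valuation (algebraMap K F c) * O.valuation z < 1 := fun c z hz =>
    lt_of_le_of_lt (mul_le_mul_left ((O.valuation_le_one_iff _).mpr (hc c)) _)
      (by rw [one_mul]; exact hz)
  cases hp with
  | zero => exact SpecAt.zero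
  | @pole x y hP hx =>
    rw [fn_zero, fn_some]
    apply SpecAt.pole
    intro hmem
    apply hx
    have h1 : x = algebraMap K F (w⁻¹ ^ 2) * ((algebraMap K F w ^ 2 * x + algebraMap K F r) -
        algebraMap K F r) := by
      have : algebraMap K F w ≠ 0 := (h.baseChange F).w0
      rw [map_pow, map_inv₀]
      field_simp
      ring
    rw [h1]
    exact mul_mem (hc _) (sub_mem hmem (hc _))
  | @finite x y a b hP hP' hx hy =>
    rw [fn_some, fn_some]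
    apply SpecAt.finite
    · have : algebraMap K F w ^ 2 * x + algebraMap K F r - algebraMap K F (w ^ 2 * a + r) =
        algebraMap K F (w ^ 2) * (x - algebraMap K F a) := by
        simp only [map_add, map_mul, map_pow]
        ring
      rw [this, map_mul]
      exact hc' _ _ hx
    · have : algebraMap K F w ^ 3 * y + algebraMap K F s * algebraMap K F w ^ 2 * x +
          algebraMap K F t - algebraMap K F (w ^ 3 * b + s * w ^ 2 * a + t) =
          algebraMap K F (w ^ 3) * (y - algebraMap K F b) +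
          algebraMap K F (s * w ^ 2) * (x - algebraMap K F a) := by
        simp only [map_add, map_mul, map_pow]
        ring
      rw [this]
      refine lt_of_le_of_lt (O.valuation.map_add _ _) (max_lt ?_ ?_)
      · rw [map_mul]
        exact hc' _ _ hy
      · rw [map_mul]
        exact hc' _ _ hx

end IsoChg

/-- Every elliptic curve over `ℚ̄` is a Legendre curve. -/
theorem exists_leg (W : WeierstrassCurve (AlgebraicClosure ℚ)) [W.IsElliptic] :
    ∃ l : AlgebraicClosure ℚ, l ≠ 0 ∧ l ≠ 1 ∧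
      ∃ φ : (leg l).toAffine.Point →+ W.toAffine.Point, Function.Injective φ ∧
        Lift (fun P => φ P) := by
  have hΔ : W.Δ ≠ 0 := W.coe_Δ' ▸ W.Δ'.ne_zero
  -- a root of the cubic
  obtain ⟨e1, he1⟩ : ∃ e : AlgebraicClosure ℚ, 4 * e ^ 3 + W.b₂ * e ^ 2 + 2 * W.b₄ * e + W.b₆ = 0 := by
    set P : (AlgebraicClosure ℚ)[X] := C 4 * X ^ 3 + C W.b₂ * X ^ 2 + C (2 * W.b₄) * X + C W.b₆ with hP
    have hdeg : P.degree = 3 := degree_cubic (by norm_num)
    obtain ⟨e, he⟩ := IsAlgClosed.exists_root P (by rw [hdeg]; norm_num)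
    refine ⟨e, ?_⟩
    simpa [hP, IsRoot] using he
  obtain ⟨d, hd⟩ : ∃ d : AlgebraicClosure ℚ, d ^ 2 =
      (W.b₂ / 4 + e1) ^ 2 - 4 * (W.b₄ / 2 + e1 * (W.b₂ / 4 + e1)) :=
    IsAlgClosed.exists_pow_nat_eq _ (by norm_num)
  obtain ⟨e2, he2⟩ : ∃ e : AlgebraicClosure ℚ, e = (-(W.b₂ / 4 + e1) + d) / 2 := ⟨_, rfl⟩
  obtain ⟨e3, he3⟩ : ∃ e : AlgebraicClosure ℚ, e = (-(W.b₂ / 4 + e1) - d) / 2 := ⟨_, rfl⟩
  have hb2 : W.b₂ = -4 * (e1 + e2 + e3) := by
    rw [he2, he3]; ring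
  have hb4 : W.b₄ = 2 * (e1 * e2 + e1 * e3 + e2 * e3) := by
    rw [he2, he3]
    linear_combination hd / 2
  have hb6 : W.b₆ = -4 * (e1 * e2 * e3) := by
    have : e2 * e3 = W.b₄ / 2 + e1 * (W.b₂ / 4 + e1) := by
      rw [he2, he3]
      linear_combination -hd / 4
    linear_combination he1 + 4 * e1 * this
  have hb8 : 4 * W.b₈ = W.b₂ * W.b₆ - W.b₄ ^ 2 := W.b_relation
  have hΔ' : W.Δ = 16 * ((e1 - e2) * (e1 - e3) * (e2 - e3)) ^ 2 := by
    have h4 : 4 * W.Δ = -W.b₂ ^ 2 * (W.b₂ * W.b₆ - W.b₄ ^ 2) - 32 * W.b₄ ^ 3 - 108 * W.b₆ ^ 2 +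
        36 * W.b₂ * W.b₄ * W.b₆ := by
      simp only [WeierstrassCurve.Δ]
      linear_combination (-(W.b₂ ^ 2)) * hb8
    rw [hb2, hb4, hb6] at h4
    linear_combination h4 / 4
  have h12 : e2 - e1 ≠ 0 := by
    intro h
    apply hΔ
    rw [hΔ']
    have : e1 - e2 = 0 := by linear_combination -h
    rw [this]; ring
  have h13 : e3 - e1 ≠ 0 := by
    intro h
    apply hΔ
    rw [hΔ']
    have : e1 - e3 = 0 := by linear_combination -h
    rw [this]; ring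
  have h23 : e3 - e2 ≠ 0 := by
    intro h
    apply hΔ
    rw [hΔ']
    have : e2 - e3 = 0 := by linear_combination -h
    rw [this]; ring
  obtain ⟨w, hw⟩ : ∃ w : AlgebraicClosure ℚ, w ^ 2 = e2 - e1 :=
    IsAlgClosed.exists_pow_nat_eq _ (by norm_num)
  have hw0 : w ≠ 0 := by
    rintro rfl
    apply h12
    rw [← hw]; ring
  have hb2' : W.b₂ = W.a₁ ^ 2 + 4 * W.a₂ := rfl
  have hb4' : W.b₄ = 2 * W.a₄ + W.a₁ * W.a₃ := rfl
  have hb6' : W.b₆ = W.a₃ ^ 2 + 4 * W.a₆ := rfl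
  have hl : (e3 - e1) / (e2 - e1) * (e2 - e1) = e3 - e1 := div_mul_cancel₀ _ h12
  have hI : IsoChg (leg ((e3 - e1) / (e2 - e1))) W w e1 (-W.a₁ / 2)
      (-(W.a₁ * e1 + W.a₃) / 2) := by
    refine ⟨hw0, ?_, ?_, ?_, ?_, ?_⟩
    · simp only [leg]; ring
    · simp only [leg]
      rw [hw]
      linear_combination -hl - hb2 / 4 + hb2' / 4
    · simp only [leg]; ring
    · simp only [leg]
      rw [show w ^ 4 = (w ^ 2) ^ 2 by ring, hw]
      linear_combination (e2 - e1) * hl - hb4 / 2 + hb4' / 2 - e1 * (hb2 / 2 - hb2' / 2)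
    · simp only [leg]
      linear_combination -he1 / 4 + hb6' / 4 + e1 * hb4' / 2 + e1 ^ 2 * hb2' / 4
  refine ⟨(e3 - e1) / (e2 - e1), div_ne_zero h13 h12, ?_, hI.hom hΔ, hI.fn_injective hΔ,
    hI.lift hΔ⟩
  intro h
  rw [div_eq_one_iff_eq h12] at h
  exact h23 (by linear_combination h)

end Pool.Agent.ZC

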