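import Pool.Agent.ZC.Defs2

/-!
# The place of a smooth point
-/

set_option autoImplicit false

noncomputable section

namespace Pool.Agent.ZC

open Polynomial WeierstrassCurve
open scoped Classical

private lemma loc_descent {k R : Type} [Field k] [CommRing R] [IsDomain R] [Algebra k R]
    {e : R →ₐ[k] k} {π : R} (h : LocData e π) {f : R} (hf : f ≠ 0) :
    ∃ (n : ℕ) (a b : R), e b ≠ 0 ∧ e a ≠ 0 ∧ f * b = π ^ n * a := by
  by_contra hcon
  push Not at hcon
  obtain ⟨m, f', g, hg, hfg⟩ := h.fin f hf
  have hP : ∀ n : ℕ, ∃ a b : R, e b ≠ 0 ∧ f * b = π ^ n * a := by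
    intro n
    induction n with
    | zero => exact ⟨f, 1, by simp, by ring⟩
    | succ n ih =>
      obtain ⟨a, b, hb, hab⟩ := ih
      have ha : e a = 0 := by
        by_contra ha
        exact hcon n a b hb ha hab
      obtain ⟨g', h', hh', hgh⟩ := h.princ a ha
      refine ⟨g', b * h', ?_, ?_⟩
      · rw [map_mul]
        exact mul_ne_zero hb hh'
      · calc f * (b * h') = (f * b) * h' := by ring
          _ = π ^ n * (a * h') := by rw [hab]; ring
          _ = π ^ (n + 1) * g' := by rw [hgh]; ring
  obtain ⟨a, b, hb, hab⟩ := hP (m + 1)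
  have h1 : π ^ m * (g * b) = π ^ m * (π * (a * f')) := by
    calc π ^ m * (g * b) = (f * f') * b := by rw [hfg]; ring
      _ = (f * b) * f' := by ring
      _ = π ^ m * (π * (a * f')) := by rw [hab]; ring
  have h2 := mul_left_cancel₀ (pow_ne_zero m h.ne) h1
  have h3 := congrArg e h2
  rw [map_mul, map_mul, h.zero, zero_mul] at h3
  exact mul_ne_zero hg hb h3

private def locRing {k R F : Type} [Field k] [CommRing R] [IsDomain R] [Field F] [Algebra k R]
    [Algebra R F] (e : R →ₐ[k] k) : Subring F where
  carrier := {z | ∃ a b : R, e b ≠ 0 ∧ z * algebraMap R F b = algebraMap R F a}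
  zero_mem' := ⟨0, 1, by simp, by simp⟩
  one_mem' := ⟨1, 1, by simp, by simp⟩
  add_mem' := by
    rintro z z' ⟨a, b, hb, hab⟩ ⟨a', b', hb', hab'⟩
    refine ⟨a * b' + a' * b, b * b', ?_, ?_⟩
    · rw [map_mul]
      exact mul_ne_zero hb hb'
    · rw [map_mul, map_add, map_mul, map_mul, ← hab, ← hab']
      ring
  mul_mem' := by
    rintro z z' ⟨a, b, hb, hab⟩ ⟨a', b', hb', hab'⟩
    refine ⟨a * a', b * b', ?_, ?_⟩
    · rw [map_mul]
      exact mul_ne_zero hb hb'
    · rw [map_mul, map_mul, ← hab, ← hab']
      ring
  neg_mem' := by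
    rintro z ⟨a, b, hb, hab⟩
    refine ⟨-a, b, hb, ?_⟩
    rw [map_neg, ← hab]
    ring

private lemma mem_locRing {k R F : Type} [Field k] [CommRing R] [IsDomain R] [Field F]
    [Algebra k R] [Algebra R F] (e : R →ₐ[k] k) (z : F) : z ∈ locRing (F := F) e ↔
      ∃ a b : R, e b ≠ 0 ∧ z * algebraMap R F b = algebraMap R F a := Iff.rfl

private lemma loc_mem_or {k R F : Type} [Field k] [CommRing R] [IsDomain R] [Field F]
    [Algebra k R] [Algebra R F] [IsFractionRing R F] {e : R →ₐ[k] k} {π : R} (h : LocData e π)
    (z : F) : z ∈ locRing (F := F) e ∨ z⁻¹ ∈ locRing (F := F) e := by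
  have hinj : Function.Injective (algebraMap R F) := IsFractionRing.injective R F
  have hne : ∀ {r : R}, r ≠ 0 → algebraMap R F r ≠ 0 := fun hr => by
    simpa using hr
  by_cases hz : z = 0
  · left
    rw [hz]
    exact zero_mem _
  obtain ⟨f, s, hs, hfs⟩ := IsFractionRing.div_surjective (A := R) z
  have hs0 : s ≠ 0 := nonZeroDivisors.ne_zero hs
  have hf0 : f ≠ 0 := by
    rintro rfl
    apply hz
    rw [← hfs]
    simp
  obtain ⟨n, a, b, hb, ha, hab⟩ := loc_descent h hf0
  obtain ⟨n', a', b', hb', ha', hab'⟩ := loc_descent h hs0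
  have hza : z * algebraMap R F s = algebraMap R F f := by
    rw [← hfs]
    field_simp [hne hs0]
  have hkey : z * algebraMap R F (π ^ n' * (a' * b)) = algebraMap R F (π ^ n * (a * b')) := by
    calc z * algebraMap R F (π ^ n' * (a' * b)) = z * algebraMap R F (s * b' * b) := by
          rw [hab']; ring_nf
      _ = (z * algebraMap R F s) * algebraMap R F (b' * b) := by
          rw [map_mul, map_mul, map_mul]; ring
      _ = algebraMap R F ((f * b) * b') := by
          rw [hza, ← map_mul]; ring_nf
      _ = algebraMap R F (π ^ n * (a * b')) := by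
          rw [hab]; ring_nf
  have hπ : algebraMap R F π ≠ 0 := hne h.ne
  rcases le_total n' n with hle | hle
  · left
    refine ⟨π ^ (n - n') * (a * b'), a' * b, ?_, ?_⟩
    · rw [map_mul]
      exact mul_ne_zero ha' hb
    · apply mul_left_cancel₀ (pow_ne_zero n' hπ)
      calc algebraMap R F π ^ n' * (z * algebraMap R F (a' * b))
          = z * algebraMap R F (π ^ n' * (a' * b)) := by
            rw [map_mul (algebraMap R F) (π ^ n'), map_pow]; ring
        _ = algebraMap R F (π ^ n * (a * b')) := hkey
        _ = algebraMap R F π ^ n' * algebraMap R F (π ^ (n - n') * (a * b')) := by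
            rw [← map_pow, ← map_mul, ← mul_assoc (π ^ n'), ← pow_add, Nat.add_sub_cancel' hle]
  · right
    refine ⟨π ^ (n' - n) * (a' * b), a * b', ?_, ?_⟩
    · rw [map_mul]
      exact mul_ne_zero ha hb'
    · rw [inv_mul_eq_iff_eq_mul₀ hz]
      apply mul_left_cancel₀ (pow_ne_zero n hπ)
      calc algebraMap R F π ^ n * algebraMap R F (a * b')
          = algebraMap R F (π ^ n * (a * b')) := by rw [← map_pow, ← map_mul]
        _ = z * algebraMap R F (π ^ n' * (a' * b)) := hkey.symm
        _ = algebraMap R F π ^ n * (z * algebraMap R F (π ^ (n' - n) * (a' * b))) := by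
            have : π ^ n' * (a' * b) = π ^ n * (π ^ (n' - n) * (a' * b)) := by
              rw [← mul_assoc (π ^ n), ← pow_add, Nat.add_sub_cancel' hle]
            rw [this, map_mul (algebraMap R F) (π ^ n), map_pow]
            ring

theorem exists_place {k R F : Type} [Field k] [CommRing R] [IsDomain R] [Field F] [Algebra k R]
    [Algebra R F] [IsFractionRing R F] [Algebra k F] [IsScalarTower k R F] (e : R →ₐ[k] k) (π : R)
    (h : LocData e π) :
    ∃ O : ValuationSubring F, IsPlace k O ∧ (∀ f : R, algebraMap R F f ∈ O) ∧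
      (∀ f : R, O.valuation (algebraMap R F f) < 1 ↔ e f = 0) ∧
      (∀ z : F, O.valuation z < 1 → O.valuation z ≤ O.valuation (algebraMap R F π)) ∧
      (∀ O' : ValuationSubring F, IsPlace k O' → (∀ f : R, algebraMap R F f ∈ O') →
        (∀ f : R, e f = 0 → O'.valuation (algebraMap R F f) < 1) → O' = O) := by
  have hinj : Function.Injective (algebraMap R F) := IsFractionRing.injective R F
  set O : ValuationSubring F :=
    { locRing (F := F) e with mem_or_inv_mem' := loc_mem_or h } with hO
  have hmem : ∀ z : F, z ∈ O ↔ ∃ a b : R, e b ≠ 0 ∧ z * algebraMap R F b = algebraMap R F a :=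
    fun z => Iff.rfl
  have hlt : ∀ z : F, O.valuation z < 1 ↔
      ∃ a b : R, e b ≠ 0 ∧ e a = 0 ∧ z * algebraMap R F b = algebraMap R F a := by
    intro z
    rw [← ValuationSubring.mem_nonunits_iff, ValuationSubring.mem_nonunits_iff_or]
    constructor
    · rintro (rfl | hz)
      · exact ⟨0, 1, by simp, by simp, by simp⟩
      · have hz0 : z ≠ 0 := by
          rintro rfl
          apply hz
          rw [inv_zero]
          exact zero_mem _
        rcases O.mem_or_inv_mem z with h1 | h1
        · obtain ⟨a, b, hb, hab⟩ := (hmem z).1 h1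
          refine ⟨a, b, hb, ?_, hab⟩
          by_contra ha
          apply hz
          rw [hmem]
          refine ⟨b, a, ha, ?_⟩
          rw [← hab, inv_mul_cancel_left₀ hz0]
        · exact absurd h1 hz
    · rintro ⟨a, b, hb, ha, hab⟩
      by_cases hz0 : z = 0
      · exact Or.inl hz0
      · right
        intro h1
        obtain ⟨a', b', hb', hab'⟩ := (hmem _).1 h1
        have h2 : algebraMap R F (b * b') = algebraMap R F (a * a') := by
          rw [map_mul, map_mul, ← hab, ← hab']
          field_simp
        have h3 := congrArg e (hinj h2)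
        rw [map_mul, map_mul, ha, zero_mul] at h3
        exact mul_ne_zero hb hb' h3
  have hR : ∀ f : R, algebraMap R F f ∈ O := fun f => (hmem _).2 ⟨f, 1, by simp, by simp⟩
  have hRlt : ∀ f : R, O.valuation (algebraMap R F f) < 1 ↔ e f = 0 := by
    intro f
    rw [hlt]
    constructor
    · rintro ⟨a, b, hb, ha, hab⟩
      rw [← map_mul] at hab
      have h3 := congrArg e (hinj hab)
      rw [map_mul, ha] at h3
      exact (mul_eq_zero.1 h3).resolve_right hb
    · intro hf
      exact ⟨f, 1, by simp, hf, by simp⟩
  have hRone : ∀ f : R, e f ≠ 0 → O.valuation (algebraMap R F f) = 1 := by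
    intro f hf
    refine le_antisymm ((O.valuation_le_one_iff _).2 (hR f)) ?_
    by_contra h1
    exact hf ((hRlt f).1 (not_le.1 h1))
  refine ⟨O, ⟨?_, ?_⟩, hR, hRlt, ?_, ?_⟩
  · intro a
    rw [IsScalarTower.algebraMap_apply k R F]
    exact hR _
  · intro htop
    have h1 := (hRlt π).2 h.zero
    rw [← ValuationSubring.mem_nonunits_iff, ValuationSubring.mem_nonunits_iff_or] at h1
    rcases h1 with h1 | h1
    · exact h.ne (hinj (by rw [h1, map_zero]))
    · apply h1
      rw [htop]
      exact ValuationSubring.mem_top _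
  · intro z hz
    obtain ⟨a, b, hb, ha, hab⟩ := (hlt z).1 hz
    obtain ⟨g, s, hs, hgs⟩ := h.princ a ha
    have h1 : z * algebraMap R F (b * s) = algebraMap R F π * algebraMap R F g := by
      rw [map_mul, ← mul_assoc, hab, ← map_mul, hgs, map_mul]
    have h2 := congrArg O.valuation h1
    rw [map_mul O.valuation, map_mul O.valuation,
      hRone (b * s) (by rw [map_mul]; exact mul_ne_zero hb hs), mul_one] at h2
    rw [h2]
    exact mul_le_of_le_one_right' ((O.valuation_le_one_iff _).2 (hR g))
  · intro O' hO' hR' hlt'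
    have hRone' : ∀ f : R, e f ≠ 0 → O'.valuation (algebraMap R F f) = 1 := by
      intro f hf
      have hc : O'.valuation (algebraMap k F (e f)) = 1 := by
        refine le_antisymm ((O'.valuation_le_one_iff _).2 (hO'.1 _)) ?_
        have h1 := (O'.valuation_le_one_iff _).2 (hO'.1 (e f)⁻¹)
        rw [map_inv₀, map_inv₀] at h1
        have hne : O'.valuation (algebraMap k F (e f)) ≠ 0 := by
          rw [Valuation.ne_zero_iff]
          simpa using hf
        exact (inv_le_one₀ (zero_lt_iff.2 hne)).1 h1
      have h1 : O'.valuation (algebraMap R F (f - algebraMap k R (e f))) < 1 := by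
        apply hlt'
        rw [map_sub, AlgHom.commutes]
        simp
      have h2 : algebraMap R F f =
          algebraMap R F (f - algebraMap k R (e f)) + algebraMap k F (e f) := by
        rw [map_sub, ← IsScalarTower.algebraMap_apply k R F, sub_add_cancel]
      rw [h2, Valuation.map_add_eq_of_lt_right _ (by rwa [hc]), hc]
    ext z
    constructor
    · intro hz
      by_contra hz'
      have hz0 : z ≠ 0 := by
        rintro rfl
        exact hz' (zero_mem _)
      have h1 : O.valuation z⁻¹ < 1 := by
        rw [← ValuationSubring.mem_nonunits_iff, ValuationSubring.mem_nonunits_iff_or]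
        right
        rwa [inv_inv]
      obtain ⟨a, b, hb, ha, hab⟩ := (hlt _).1 h1
      have h2 := congrArg O'.valuation hab
      rw [map_mul, hRone' b hb, mul_one] at h2
      have h3 := hlt' a ha
      rw [← h2, map_inv₀] at h3
      have h4 := (O'.valuation_le_one_iff _).2 hz
      have hne : O'.valuation z ≠ 0 := by
        rw [Valuation.ne_zero_iff]
        exact hz0
      have h5 := (one_le_inv₀ (zero_lt_iff.2 hne)).2 h4
      exact absurd h3 (not_lt.2 h5)
    · intro hz
      obtain ⟨a, b, hb, hab⟩ := (hmem z).1 hz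
      have h2 := congrArg O'.valuation hab
      rw [map_mul, hRone' b hb, mul_one] at h2
      rw [← O'.valuation_le_one_iff, h2]
      exact (O'.valuation_le_one_iff _).2 (hR' a)

end Pool.Agent.ZC
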