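import Pool.Agent.ZC.Defs2

/-!
# Automorphisms act on points
-/

set_option autoImplicit false

noncomputable section

namespace Pool.Agent.ZC

open Polynomial WeierstrassCurve
open scoped Classical

private theorem Act_map {K K' : Type} [Field K] [Field K'] (W : WeierstrassCurve K)
    (W' : WeierstrassCurve K') (f : K →+* K') (hW : W.map f = W') :
    ∃ T : W.toAffine.Point →+ W'.toAffine.Point,
      ∀ x y h, ∃ h', T (.some x y h) = .some (f x) (f y) h' := by
  subst hW
  refine ⟨{
    toFun := fun P => match P with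
      | 0 => 0
      | .some _ _ h => .some _ _ <| (Affine.map_nonsingular (W := W.toAffine) f.injective _ _).mpr h
    map_zero' := rfl
    map_add' := ?_ }, fun x y h => ⟨_, rfl⟩⟩
  rintro (_ | ⟨x₁, y₁, h₁⟩) (_ | ⟨x₂, y₂, h₂⟩)
  any_goals rfl
  by_cases hxy : x₁ = x₂ ∧ y₁ = W.toAffine.negY x₂ y₂
  · rw [Affine.Point.add_of_Y_eq hxy.left hxy.right,
      Affine.Point.add_of_Y_eq (congr_arg _ hxy.left) <| by
        rw [hxy.right, Affine.map_negY]]
  · simpa only [Affine.Point.add_some hxy, ← Affine.map_addX, ← Affine.map_addY,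
      ← Affine.map_slope] using!
      (Affine.Point.add_some fun h ↦ hxy ⟨f.injective h.1,
        f.injective (W.toAffine.map_negY f _ _ ▸ h).2⟩).symm

theorem exists_act {l : AlgebraicClosure ℚ} (σ : AlgebraicClosure ℚ ≃ₐ[ℚ] AlgebraicClosure ℚ)
    (hl : σ l = l) :
    ∃ T : (leg l).toAffine.Point →+ (leg l).toAffine.Point,
      ∀ x y h, ∃ h', T (.some x y h) = .some (σ x) (σ y) h' :=
  Act_map (leg l) (leg l) (σ : AlgebraicClosure ℚ →+* AlgebraicClosure ℚ) (by
    ext <;> simp [leg, hl])

end Pool.Agent.ZC
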