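import Pool.Agent.ZC.Defs2

/-!
# Legendre curves and their two-isogenies
-/

set_option autoImplicit false

noncomputable section

namespace Pool.Agent.ZC

open Polynomial WeierstrassCurve
open scoped Classical

theorem IsLeg.leg {K : Type} [Field K] {l : K} (h0 : l ≠ 0) (h1 : l ≠ 1) : IsLeg (leg l) l :=
  ⟨rfl, rfl, rfl, rfl, rfl, h0, h1⟩

theorem IsLeg.baseChange {k F : Type} [Field k] [Field F] [Algebra k F] {W : WeierstrassCurve k}
    {l : k} (h : IsLeg W l) : IsLeg (W⁄F) (algebraMap k F l) := by
  refine ⟨?_, ?_, ?_, ?_, ?_, ?_, ?_⟩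
  · simp [WeierstrassCurve.baseChange, h.a₁]
  · simp [WeierstrassCurve.baseChange, h.a₂]
  · simp [WeierstrassCurve.baseChange, h.a₃]
  · simp [WeierstrassCurve.baseChange, h.a₄]
  · simp [WeierstrassCurve.baseChange, h.a₆]
  · rw [Ne, map_eq_zero]
    exact h.l0
  · intro h1
    apply h.l1
    apply (algebraMap k F).injective
    rw [h1, map_one]

theorem IsLeg.nonsingular {K : Type} [Field K] [CharZero K] {W : WeierstrassCurve K} {l : K}
    (h : IsLeg W l) (x y : K) : W.toAffine.Nonsingular x y ↔ y ^ 2 = x * (x - 1) * (x - l) := by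
  rw [Affine.nonsingular_iff, Affine.equation_iff, h.a₁, h.a₂, h.a₃, h.a₄, h.a₆]
  constructor
  · rintro ⟨h1, -⟩
    linear_combination h1
  · intro h1
    refine ⟨by linear_combination h1, ?_⟩
    by_cases hy : y = 0
    · left
      rw [hy] at h1 ⊢
      have h2 : x * (x - 1) * (x - l) = 0 := by rw [← h1]; ring
      intro h3
      rcases mul_eq_zero.1 h2 with h4 | h4
      · rcases mul_eq_zero.1 h4 with h5 | h5
        · rw [h5] at h3
          apply h.l0
          linear_combination -h3
        · have h6 : x = 1 := sub_eq_zero.1 h5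
          rw [h6] at h3
          apply h.l1
          linear_combination h3
      · have h6 : x = l := sub_eq_zero.1 h4
        rw [h6] at h3
        have h7 : l * (l - 1) = 0 := by linear_combination -h3
        rcases mul_eq_zero.1 h7 with h8 | h8
        · exact h.l0 h8
        · exact h.l1 (sub_eq_zero.1 h8)
    · right
      intro h3
      apply hy
      have h4 : (2 : K) * y = 0 := by linear_combination h3
      exact (mul_eq_zero.1 h4).resolve_left two_ne_zero

theorem StepData.ne {K : Type} [Field K] [CharZero K] {l' l m : K} (h : StepData l' l m) :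
    l' ≠ 0 ∧ l' ≠ 1 ∧ l ≠ 0 ∧ l ≠ 1 := by
  refine ⟨?_, ?_, ?_, ?_⟩
  · rw [h.sq]
    exact pow_ne_zero 2 h.m0
  · rw [h.sq]
    intro h1
    have h2 : (1 + m) * (1 - m) = 0 := by linear_combination -h1
    rcases mul_eq_zero.1 h2 with h3 | h3
    · exact h.mp h3
    · exact h.mm h3
  · intro h1
    have h2 := h.eq
    rw [h1, zero_mul] at h2
    exact mul_ne_zero (by norm_num) h.m0 h2.symm
  · intro h1
    have h2 := h.eq
    rw [h1] at h2
    have h3 : (1 - m) ^ 2 = 0 := by linear_combination h2
    exact h.mm (pow_eq_zero_iff two_ne_zero |>.1 h3)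

section Step

variable {K : Type} [Field K] [CharZero K] {W' W : WeierstrassCurve K} {l' l m : K}

private theorem leg_aux (h' : IsLeg W' l') (h : IsLeg W l) (d : StepData l' l m) {x y : K}
    (hxy : W'.toAffine.Nonsingular x y) (hx : x ≠ 0) :
    W.toAffine.Nonsingular ((x + m) ^ 2 / ((1 + m) ^ 2 * x))
      (y * (x ^ 2 - m ^ 2) / ((1 + m) ^ 3 * x ^ 2)) := by
  rw [h'.nonsingular, d.sq] at hxy
  rw [h.nonsingular]
  have hp := d.mp
  have hl : l = 4 * m / (1 + m) ^ 2 := by
    rw [eq_div_iff (pow_ne_zero 2 hp)]
    exact d.eq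
  rw [hl]
  have e1 : (x + m) ^ 2 / ((1 + m) ^ 2 * x) - 1 = (x - 1) * (x - m ^ 2) / ((1 + m) ^ 2 * x) := by
    field_simp
    ring
  have e2 : (x + m) ^ 2 / ((1 + m) ^ 2 * x) - 4 * m / (1 + m) ^ 2 =
      (x - m) ^ 2 / ((1 + m) ^ 2 * x) := by
    field_simp
    ring
  rw [e1, e2, div_pow, mul_pow, hxy]
  field_simp
  ring

private def legStep (h' : IsLeg W' l') (h : IsLeg W l) (d : StepData l' l m) :
    W'.toAffine.Point → W.toAffine.Point
  | .zero => 0
  | .some _ _ hxy => if hx : _ = 0 then 0 else .some _ _ (leg_aux h' h d hxy hx)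

private theorem legStep_zero (h' : IsLeg W' l') (h : IsLeg W l) (d : StepData l' l m) :
    legStep h' h d 0 = 0 := rfl

private theorem legStep_of_eq (h' : IsLeg W' l') (h : IsLeg W l) (d : StepData l' l m) {x y : K}
    (hxy : W'.toAffine.Nonsingular x y) (hx : x = 0) : legStep h' h d (.some x y hxy) = 0 := by
  rw [legStep, dif_pos hx]

private theorem legStep_of_ne (h' : IsLeg W' l') (h : IsLeg W l) (d : StepData l' l m) {x y : K}
    (hxy : W'.toAffine.Nonsingular x y) (hx : x ≠ 0) :
    legStep h' h d (.some x y hxy) = .some ((x + m) ^ 2 / ((1 + m) ^ 2 * x))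
      (y * (x ^ 2 - m ^ 2) / ((1 + m) ^ 3 * x ^ 2)) (leg_aux h' h d hxy hx) := by
  rw [legStep, dif_neg hx]

private theorem IsLeg.neg_some (h : IsLeg W l) {x y : K} (hxy : W.toAffine.Nonsingular x y) :
    ∃ h', -(Affine.Point.some x y hxy : W.toAffine.Point) = .some x (-y) h' := by
  have e : W.toAffine.negY x y = -y := by
    rw [Affine.negY, h.a₁, h.a₃]
    ring
  refine ⟨?_, ?_⟩
  · rw [h.nonsingular] at hxy ⊢
    rw [← hxy]
    ring
  · rw [Affine.Point.neg_some, Affine.Point.some.injEq]
    exact ⟨rfl, e⟩

private theorem legStep_neg (h' : IsLeg W' l') (h : IsLeg W l) (d : StepData l' l m)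
    (P : W'.toAffine.Point) : legStep h' h d (-P) = -legStep h' h d P := by
  rcases P with _ | ⟨x, y, hxy⟩
  · rw [← Affine.Point.zero_def, neg_zero, legStep_zero, neg_zero]
  · obtain ⟨h1, h2⟩ := h'.neg_some hxy
    rw [h2]
    by_cases hx : x = 0
    · rw [legStep_of_eq _ _ _ _ hx, legStep_of_eq _ _ _ _ hx, neg_zero]
    · rw [legStep_of_ne _ _ _ _ hx, legStep_of_ne _ _ _ _ hx]
      obtain ⟨h3, h4⟩ := h.neg_some (leg_aux h' h d hxy hx)
      rw [h4, Affine.Point.some.injEq]
      refine ⟨rfl, ?_⟩
      rw [neg_mul, neg_div]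

end Step

section Cong

variable {k F : Type} [Field k] [Field F] [Algebra k F] {O : ValuationSubring F}

private theorem val_const (hO : IsPlace k O) {c : k} (hc : c ≠ 0) :
    O.valuation (algebraMap k F c) = 1 := by
  apply le_antisymm
  · rw [O.valuation_le_one_iff]
    exact hO.1 c
  · have h1 : O.valuation (algebraMap k F c⁻¹) ≤ 1 := by
      rw [O.valuation_le_one_iff]
      exact hO.1 _
    rw [map_inv₀, map_inv₀] at h1
    have h2 : O.valuation (algebraMap k F c) ≠ 0 := by
      rw [Ne, map_eq_zero, map_eq_zero]
      exact hc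
    exact (inv_le_one₀ (zero_lt_iff.2 h2)).1 h1

private theorem val_const_le (hO : IsPlace k O) (c : k) :
    O.valuation (algebraMap k F c) ≤ 1 := by
  rw [O.valuation_le_one_iff]
  exact hO.1 c

private theorem val_le_of_cong (hO : IsPlace k O) {x : F} {a : k}
    (hx : O.valuation (x - algebraMap k F a) < 1) : O.valuation x ≤ 1 := by
  have h1 : x = (x - algebraMap k F a) + algebraMap k F a := by ring
  rw [h1]
  exact (O.valuation.map_add _ _).trans (max_le hx.le (val_const_le hO a))

private theorem cong_mul (hO : IsPlace k O) {x y : F} {a b : k}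
    (hx : O.valuation (x - algebraMap k F a) < 1) (hy : O.valuation (y - algebraMap k F b) < 1) :
    O.valuation (x * y - algebraMap k F (a * b)) < 1 := by
  have h1 : x * y - algebraMap k F (a * b) =
      (x - algebraMap k F a) * y + algebraMap k F a * (y - algebraMap k F b) := by
    rw [map_mul]
    ring
  rw [h1]
  refine O.valuation.map_add_lt ?_ ?_
  · rw [map_mul]
    exact (mul_le_of_le_one_right' (val_le_of_cong hO hy)).trans_lt hx
  · rw [map_mul]
    exact (mul_le_of_le_one_left' (val_const_le hO a)).trans_lt hy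

private theorem cong_add {x y : F} {a b : k}
    (hx : O.valuation (x - algebraMap k F a) < 1) (hy : O.valuation (y - algebraMap k F b) < 1) :
    O.valuation (x + y - algebraMap k F (a + b)) < 1 := by
  have h1 : x + y - algebraMap k F (a + b) =
      (x - algebraMap k F a) + (y - algebraMap k F b) := by
    rw [map_add]
    ring
  rw [h1]
  exact O.valuation.map_add_lt hx hy

private theorem cong_sub {x y : F} {a b : k}
    (hx : O.valuation (x - algebraMap k F a) < 1) (hy : O.valuation (y - algebraMap k F b) < 1) :
    O.valuation (x - y - algebraMap k F (a - b)) < 1 := by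
  have h1 : x - y - algebraMap k F (a - b) =
      (x - algebraMap k F a) - (y - algebraMap k F b) := by
    rw [map_sub]
    ring
  rw [h1]
  exact O.valuation.map_sub_lt hx hy

private theorem cong_const (c : k) :
    O.valuation (algebraMap k F c - algebraMap k F c) < 1 := by
  rw [sub_self, map_zero]
  exact zero_lt_one

private theorem val_of_cong (hO : IsPlace k O) {x : F} {a : k} (ha : a ≠ 0)
    (hx : O.valuation (x - algebraMap k F a) < 1) : O.valuation x = 1 := by
  have h1 : x = (x - algebraMap k F a) + algebraMap k F a := by ring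
  rw [h1, O.valuation.map_add_eq_of_lt_right (by rw [val_const hO ha]; exact hx), val_const hO ha]

private theorem cong_div (hO : IsPlace k O) {x y : F} {a b : k}
    (hx : O.valuation (x - algebraMap k F a) < 1) (hy : O.valuation (y - algebraMap k F b) < 1)
    (hb : b ≠ 0) : O.valuation (x / y - algebraMap k F (a / b)) < 1 := by
  have hvy := val_of_cong hO hb hy
  have hy0 : y ≠ 0 := by
    rintro rfl
    rw [map_zero] at hvy
    exact zero_ne_one hvy
  have hb0 : algebraMap k F b ≠ 0 := by
    rw [Ne, map_eq_zero]
    exact hb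
  have h1 : x / y - algebraMap k F (a / b) =
      ((x - algebraMap k F a) * algebraMap k F b - algebraMap k F a * (y - algebraMap k F b)) /
        (y * algebraMap k F b) := by
    rw [map_div₀]
    field_simp
    ring
  rw [h1, map_div₀, map_mul, hvy, val_const hO hb, mul_one, div_one]
  refine O.valuation.map_sub_lt ?_ ?_
  · rw [map_mul, val_const hO hb, mul_one]
    exact hx
  · rw [map_mul]
    exact (mul_le_of_le_one_left' (val_const_le hO a)).trans_lt hy

private theorem cong_pow (hO : IsPlace k O) {x : F} {a : k}
    (hx : O.valuation (x - algebraMap k F a) < 1) (n : ℕ) :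
    O.valuation (x ^ n - algebraMap k F (a ^ n)) < 1 := by
  induction n with
  | zero =>
    rw [pow_zero, pow_zero, map_one, sub_self, map_zero]
    exact zero_lt_one
  | succ n ih =>
    rw [pow_succ, pow_succ]
    exact cong_mul hO ih hx

end Cong

private theorem StepData.map {k F : Type} [Field k] [Field F] [Algebra k F] {l' l m : k}
    (h : StepData l' l m) :
    StepData (algebraMap k F l') (algebraMap k F l) (algebraMap k F m) := by
  refine ⟨?_, ?_, ?_, ?_, ?_⟩
  · rw [h.sq, map_pow]
  · have h1 := congrArg (algebraMap k F) h.eq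
    rw [map_mul, map_mul, map_pow, map_add, map_one, map_ofNat] at h1
    exact h1
  · rw [Ne, map_eq_zero]
    exact h.m0
  · rw [← map_one (algebraMap k F), ← map_add, Ne, map_eq_zero]
    exact h.mp
  · rw [← map_one (algebraMap k F), ← map_sub, Ne, map_eq_zero]
    exact h.mm

theorem exists_step {k : Type} [Field k] [CharZero k] {l' l m : k} (h : StepData l' l m) :
    ∃ G : (leg l').toAffine.Point → (leg l).toAffine.Point, Lift G ∧ G 0 = 0 ∧
      (∀ P, G (-P) = -G P) ∧
      (∀ x y hxy, x ≠ 0 → ∃ h', G (.some x y hxy) =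
        .some ((x + m) ^ 2 / ((1 + m) ^ 2 * x)) (y * (x ^ 2 - m ^ 2) / ((1 + m) ^ 3 * x ^ 2)) h') := by
  obtain ⟨n1, n2, n3, n4⟩ := h.ne
  have H' : IsLeg (leg l') l' := IsLeg.leg n1 n2
  have H : IsLeg (leg l) l := IsLeg.leg n3 n4
  refine ⟨legStep H' H h, ?_, legStep_zero H' H h, legStep_neg H' H h, ?_⟩
  · intro F _ _ a
    have : CharZero F := charZero_of_injective_algebraMap (algebraMap k F).injective
    refine ⟨legStep H'.baseChange H.baseChange h.map a, fun O hO p hp => ?_⟩
    rcases hp with _ | ⟨hxy, hx⟩ | ⟨hxy, hab, hx, hy⟩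
    · exact SpecAt.zero
    · rename_i x y
      have hx1 : 1 < O.valuation x := by
        rw [← not_le, O.valuation_le_one_iff]
        exact hx
      have hx0 : x ≠ 0 := by
        rintro rfl
        exact hx O.zero_mem
      rw [legStep_of_ne _ _ _ _ hx0, legStep_zero]
      apply SpecAt.pole
      rw [← O.valuation_le_one_iff, not_le]
      have e1 : O.valuation (x + algebraMap k F m) = O.valuation x :=
        O.valuation.map_add_eq_of_lt_left ((val_const_le hO m).trans_lt hx1)
      have e2 : O.valuation (1 + algebraMap k F m) = 1 := by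
        rw [← map_one (algebraMap k F), ← map_add]
        exact val_const hO h.mp
      have hv0 : O.valuation x ≠ 0 := by
        rw [Ne, map_eq_zero]
        exact hx0
      rw [map_div₀, map_mul, map_pow, map_pow, e1, e2, one_pow, one_mul, pow_two,
        mul_div_assoc, div_self hv0, mul_one]
      exact hx1
    · rename_i x y a b
      by_cases ha : a = 0
      · rw [legStep_of_eq _ _ _ _ ha]
        by_cases hx0 : x = 0
        · rw [legStep_of_eq _ _ _ _ hx0]
          exact SpecAt.zero
        · rw [legStep_of_ne _ _ _ _ hx0]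
          apply SpecAt.pole
          rw [← O.valuation_le_one_iff, not_le]
          rw [ha, map_zero, sub_zero] at hx
          have e1 : O.valuation (x + algebraMap k F m) = 1 := by
            rw [O.valuation.map_add_eq_of_lt_right (by rw [val_const hO h.m0]; exact hx),
              val_const hO h.m0]
          have e2 : O.valuation (1 + algebraMap k F m) = 1 := by
            rw [← map_one (algebraMap k F), ← map_add]
            exact val_const hO h.mp
          have hv0 : O.valuation x ≠ 0 := by
            rw [Ne, map_eq_zero]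
            exact hx0
          rw [map_div₀, map_mul, map_pow, map_pow, e1, e2, one_pow, one_mul, one_div]
          exact (one_lt_inv₀ (zero_lt_iff.2 hv0)).2 hx
      · have hx0 : x ≠ 0 := by
          rintro rfl
          have := val_of_cong hO ha hx
          rw [map_zero] at this
          exact zero_ne_one this
        rw [legStep_of_ne _ _ _ _ hx0, legStep_of_ne _ _ _ _ ha]
        have c1 : O.valuation ((1 : F) - algebraMap k F 1) < 1 := by
          rw [map_one, sub_self, map_zero]
          exact zero_lt_one
        have cm : O.valuation (algebraMap k F m - algebraMap k F m) < 1 := cong_const m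
        apply SpecAt.finite
        · apply cong_div hO
          · exact cong_pow hO (cong_add hx cm) 2
          · exact cong_mul hO (cong_pow hO (cong_add c1 cm) 2) hx
          · exact mul_ne_zero (pow_ne_zero 2 h.mp) ha
        · apply cong_div hO
          · exact cong_mul hO hy (cong_sub (cong_pow hO hx 2) (cong_pow hO cm 2))
          · exact cong_mul hO (cong_pow hO (cong_add c1 cm) 3) (cong_pow hO hx 2)
          · exact mul_ne_zero (pow_ne_zero 3 h.mp) (pow_ne_zero 2 ha)
  · intro x y hxy hx
    exact ⟨_, legStep_of_ne H' H h hxy hx⟩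

end Pool.Agent.ZC
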