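import Pool.Agent.ZC.Defs2

/-!
# Functoriality of rational equivalence
-/

set_option autoImplicit false

noncomputable section

namespace Pool.Agent.ZC

open Polynomial WeierstrassCurve
open scoped Classical

theorem Lift.id {k : Type} [Field k] {W : WeierstrassCurve k} :
    Lift (fun P : W.toAffine.Point => P) :=
  fun _ _ _ a => ⟨a, fun _ _ _ h => h⟩

theorem Lift.comp {k : Type} [Field k] {W'' W' W : WeierstrassCurve k}
    {G : W'.toAffine.Point → W.toAffine.Point} {G' : W''.toAffine.Point → W'.toAffine.Point}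
    (h : Lift G) (h' : Lift G') : Lift (fun P => G (G' P)) := by
  intro F _ _ a
  obtain ⟨A', hA'⟩ := h' F a
  obtain ⟨A, hA⟩ := h F A'
  exact ⟨A, fun O hO p hp => hA O hO _ (hA' O hO p hp)⟩

private theorem push_specAt_neg {k F : Type} [Field k] [Field F] [Algebra k F]
    {W : WeierstrassCurve k} (O : ValuationSubring F) (hO : IsPlace k O)
    (A : (W⁄F).toAffine.Point) (p : W.toAffine.Point) (h : SpecAt O W A p) :
    SpecAt O W (-A) (-p) := by
  cases h with
  | zero => exact SpecAt.zero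
  | pole h hx => exact SpecAt.pole _ hx
  | @finite x y a b h h' hx hy =>
    rw [Affine.Point.neg_some, Affine.Point.neg_some]
    refine SpecAt.finite _ _ hx ?_
    have h1 : (W⁄F).toAffine.negY x y - algebraMap k F (W.toAffine.negY a b) =
        -((y - algebraMap k F b) + algebraMap k F W.a₁ * (x - algebraMap k F a)) := by
      simp only [Affine.negY, map_sub, map_mul, map_neg]
      have e1 : (W⁄F).toAffine.a₁ = algebraMap k F W.a₁ := rfl
      have e3 : (W⁄F).toAffine.a₃ = algebraMap k F W.a₃ := rfl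
      rw [e1, e3]
      ring
    rw [h1, Valuation.map_neg]
    refine lt_of_le_of_lt (Valuation.map_add _ _ _) (max_lt hy ?_)
    rw [map_mul]
    have h2 : O.valuation (algebraMap k F W.a₁) ≤ 1 :=
      (ValuationSubring.valuation_le_one_iff O _).mpr (hO.1 _)
    exact mul_lt_one_of_nonneg_of_lt_one_right h2 zero_le hx

theorem Lift.neg {k : Type} [Field k] {W' W : WeierstrassCurve k}
    {G : W'.toAffine.Point → W.toAffine.Point} (h : Lift G) : Lift (fun P => -G P) := by
  intro F _ _ a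
  obtain ⟨A, hA⟩ := h F a
  exact ⟨-A, fun O hO p hp => push_specAt_neg O hO A (G p) (hA O hO p hp)⟩

/-- constant points -/
theorem exists_const {k : Type} [Field k] {W : WeierstrassCurve k} (Q : W.toAffine.Point) (F : Type)
    [Field F] [Algebra k F] : ∃ A : (W⁄F).toAffine.Point, ∀ O : ValuationSubring F, IsPlace k O →
      SpecAt O W A Q := by
  cases Q with
  | zero => exact ⟨0, fun O _ => SpecAt.zero⟩
  | some a b h =>
    have h' : (W⁄F).toAffine.Nonsingular (algebraMap k F a) (algebraMap k F b) :=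
      (Affine.map_nonsingular W.toAffine (algebraMap k F).injective a b).mpr h
    refine ⟨.some _ _ h', fun O _ => SpecAt.finite h' h ?_ ?_⟩
    · rw [sub_self, map_zero]
      exact zero_lt_one
    · rw [sub_self, map_zero]
      exact zero_lt_one

theorem RatEq.push {k : Type} [Field k] {W₁' W₁ W₂' W₂ : WeierstrassCurve k}
    {G₁ : W₁'.toAffine.Point → W₁.toAffine.Point} {G₂ : W₂'.toAffine.Point → W₂.toAffine.Point}
    (h₁ : Lift G₁) (h₂ : Lift G₂) {z : Z0 W₁' W₂'} (hz : z ∈ RatEq W₁' W₂') :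
    Finsupp.mapDomain (Prod.map G₁ G₂) z ∈ RatEq W₁ W₂ := by
  have hle : RatEq W₁' W₂' ≤ (RatEq W₁ W₂).comap
      (Finsupp.mapDomain.addMonoidHom (Prod.map G₁ G₂) :
        Z0 W₁' W₂' →+ Z0 W₁ W₂) := by
    unfold RatEq
    rw [AddSubgroup.closure_le]
    rintro z ⟨F, iF, iA, P, Q, g, S, n, p, q, hC, hg, hS, hS', rfl⟩
    refine AddSubgroup.subset_closure ?_
    obtain ⟨A, hA⟩ := h₁ F P
    obtain ⟨B, hB⟩ := h₂ F Q
    refine ⟨F, iF, iA, A, B, g, S, n, fun O => G₁ (p O), fun O => G₂ (q O), hC, hg, hS, ?_, ?_⟩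
    · intro O hO
      obtain ⟨a1, a2, a3, a4⟩ := hS' O hO
      exact ⟨a1, a2, hA O a1 _ a3, hB O a1 _ a4⟩
    · rw [map_sum]
      refine Finset.sum_congr rfl fun O _ => ?_
      exact Finsupp.mapDomain_single
  exact hle hz

theorem RatEq.swap {k : Type} [Field k] {W₁ W₂ : WeierstrassCurve k} {z : Z0 W₁ W₂}
    (hz : z ∈ RatEq W₁ W₂) : Finsupp.mapDomain Prod.swap z ∈ RatEq W₂ W₁ := by
  have hle : RatEq W₁ W₂ ≤ (RatEq W₂ W₁).comap
      (Finsupp.mapDomain.addMonoidHom Prod.swap : Z0 W₁ W₂ →+ Z0 W₂ W₁) := by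
    unfold RatEq
    rw [AddSubgroup.closure_le]
    rintro z ⟨F, iF, iA, P, Q, g, S, n, p, q, hC, hg, hS, hS', rfl⟩
    refine AddSubgroup.subset_closure ?_
    refine ⟨F, iF, iA, Q, P, g, S, n, q, p, hC, hg, hS, ?_, ?_⟩
    · intro O hO
      obtain ⟨a1, a2, a3, a4⟩ := hS' O hO
      exact ⟨a1, a2, a4, a3⟩
    · rw [map_sum]
      refine Finset.sum_congr rfl fun O _ => ?_
      exact Finsupp.mapDomain_single
  exact hle hz

theorem sym_push {k : Type} [Field k] {W₁' W₁ W₂' W₂ : WeierstrassCurve k}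
    {G₁ : W₁'.toAffine.Point → W₁.toAffine.Point} {G₂ : W₂'.toAffine.Point → W₂.toAffine.Point}
    (h₁ : G₁ 0 = 0) (h₂ : G₂ 0 = 0) (P : W₁'.toAffine.Point) (Q : W₂'.toAffine.Point) :
    Finsupp.mapDomain (Prod.map G₁ G₂) (sym P Q) = sym (G₁ P) (G₂ Q) := by
  have h := map_add (Finsupp.mapDomain.addMonoidHom (Prod.map G₁ G₂) : Z0 W₁' W₂' →+ Z0 W₁ W₂)
    (Finsupp.single (P, Q) 1 - Finsupp.single (P, 0) 1 - Finsupp.single (0, Q) 1)
    (Finsupp.single (0, 0) 1)
  rw [map_sub, map_sub] at h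
  simp only [Finsupp.mapDomain.addMonoidHom_apply, Finsupp.mapDomain_single, Prod.map_apply, h₁,
    h₂] at h
  exact h

theorem sym_swap {k : Type} [Field k] {W₁ W₂ : WeierstrassCurve k} (P : W₁.toAffine.Point)
    (Q : W₂.toAffine.Point) : Finsupp.mapDomain Prod.swap (sym P Q) = sym Q P := by
  have h := map_add (Finsupp.mapDomain.addMonoidHom Prod.swap : Z0 W₁ W₂ →+ Z0 W₂ W₁)
    (Finsupp.single (P, Q) 1 - Finsupp.single (P, 0) 1 - Finsupp.single (0, Q) 1)
    (Finsupp.single (0, 0) 1)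
  rw [map_sub, map_sub] at h
  simp only [Finsupp.mapDomain.addMonoidHom_apply, Finsupp.mapDomain_single, Prod.swap_prod_mk] at h
  refine h.trans ?_
  unfold sym
  abel

end Pool.Agent.ZC
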