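import Pool.Agent.ZC.Quad
import Pool.Agent.ZC.Leg
import Pool.Agent.ZC.Push

/-!
# Relations from the curves `Y² = H(s)`
-/

set_option autoImplicit false

noncomputable section

namespace Pool.Agent.ZC

open Polynomial WeierstrassCurve
open scoped Classical

section Res

variable {k F : Type} [Field k] [Field F] [Algebra k F]

/-- `z` has the value `a` at `O` -/
private def Res (O : ValuationSubring F) (z : F) (a : k) : Prop :=
  O.valuation (z - algebraMap k F a) < 1

variable {O : ValuationSubring F} {z w : F} {a b : k}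

private theorem val_le (hO : IsPlace k O) (a : k) : O.valuation (algebraMap k F a) ≤ 1 :=
  (O.valuation_le_one_iff _).2 (hO.1 a)

private theorem val_one (hO : IsPlace k O) (ha : a ≠ 0) : O.valuation (algebraMap k F a) = 1 := by
  refine le_antisymm (val_le hO a) ?_
  have h1 := val_le hO a⁻¹
  have h2 : O.valuation (algebraMap k F a) * O.valuation (algebraMap k F a⁻¹) = 1 := by
    rw [← map_mul, ← map_mul, mul_inv_cancel₀ ha, map_one, map_one]
  calc (1 : O.ValueGroup) = O.valuation (algebraMap k F a) * O.valuation (algebraMap k F a⁻¹) :=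
        h2.symm
    _ ≤ O.valuation (algebraMap k F a) * 1 := mul_le_mul_right h1 _
    _ = _ := mul_one _

private theorem Res.const (a : k) : Res O (algebraMap k F a) a := by
  unfold Res
  rw [sub_self, map_zero]
  exact zero_lt_one

private theorem Res.le (hO : IsPlace k O) (h : Res O z a) : O.valuation z ≤ 1 := by
  have h1 : z = (z - algebraMap k F a) + algebraMap k F a := by ring
  rw [h1]
  exact O.valuation.map_add_le (le_of_lt h) (val_le hO a)

private theorem Res.eq_one (hO : IsPlace k O) (h : Res O z a) (ha : a ≠ 0) :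
    O.valuation z = 1 := by
  have h1 : z = (z - algebraMap k F a) + algebraMap k F a := by ring
  have h2 : O.valuation (z - algebraMap k F a) < O.valuation (algebraMap k F a) := by
    rw [val_one hO ha]
    exact h
  rw [h1, Valuation.map_add_eq_of_lt_right _ h2, val_one hO ha]

private theorem Res.ne_zero (hO : IsPlace k O) (h : Res O z a) (ha : a ≠ 0) : z ≠ 0 := by
  rintro rfl
  have := h.eq_one hO ha
  rw [map_zero] at this
  exact zero_ne_one this

private theorem Res.add (h : Res O z a) (h' : Res O w b) : Res O (z + w) (a + b) := by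
  unfold Res
  rw [map_add, show z + w - (algebraMap k F a + algebraMap k F b) =
    (z - algebraMap k F a) + (w - algebraMap k F b) by ring]
  exact O.valuation.map_add_lt h h'

private theorem Res.neg (h : Res O z a) : Res O (-z) (-a) := by
  unfold Res
  rw [map_neg, show -z - -(algebraMap k F a) = -(z - algebraMap k F a) by ring,
    Valuation.map_neg]
  exact h

private theorem Res.sub (h : Res O z a) (h' : Res O w b) : Res O (z - w) (a - b) := by
  rw [sub_eq_add_neg, sub_eq_add_neg]
  exact h.add h'.neg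

private theorem Res.mul (hO : IsPlace k O) (h : Res O z a) (h' : Res O w b) :
    Res O (z * w) (a * b) := by
  unfold Res
  rw [map_mul, show z * w - algebraMap k F a * algebraMap k F b =
    (z - algebraMap k F a) * w + algebraMap k F a * (w - algebraMap k F b) by ring]
  refine O.valuation.map_add_lt ?_ ?_
  · rw [map_mul]
    exact mul_lt_one_of_nonneg_of_lt_one_left zero_le h (h'.le hO)
  · rw [map_mul]
    exact mul_lt_one_of_nonneg_of_lt_one_right (val_le hO a) zero_le h'

private theorem Res.pow (hO : IsPlace k O) (h : Res O z a) (n : ℕ) : Res O (z ^ n) (a ^ n) := by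
  induction n with
  | zero => simpa using Res.const (O := O) (1 : k)
  | succ n ih => rw [pow_succ, pow_succ]; exact ih.mul hO h

private theorem Res.inv (hO : IsPlace k O) (h : Res O z a) (ha : a ≠ 0) : Res O z⁻¹ a⁻¹ := by
  have hz := h.ne_zero hO ha
  have ha' : algebraMap k F a ≠ 0 := (_root_.map_ne_zero _).2 ha
  unfold Res
  rw [map_inv₀, show z⁻¹ - (algebraMap k F a)⁻¹ = -((z - algebraMap k F a) *
    (z⁻¹ * (algebraMap k F a)⁻¹)) by field_simp; ring, Valuation.map_neg, map_mul, map_mul,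
    map_inv₀, map_inv₀, h.eq_one hO ha, val_one hO ha, inv_one, mul_one, mul_one]
  exact h

private theorem Res.div (hO : IsPlace k O) (h : Res O z a) (h' : Res O w b) (hb : b ≠ 0) :
    Res O (z / w) (a / b) := by
  rw [div_eq_mul_inv, div_eq_mul_inv]
  exact h.mul hO (h'.inv hO hb)

private theorem not_mem_of (hz : z ≠ 0) (h : O.valuation z < 1) : z⁻¹ ∉ O := by
  intro h1
  rw [← O.valuation_le_one_iff, map_inv₀] at h1
  have h2 : O.valuation z ≠ 0 := (Valuation.ne_zero_iff _).2 hz
  have h3 : (1 : O.ValueGroup) = O.valuation z * (O.valuation z)⁻¹ := (mul_inv_cancel₀ h2).symm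
  have h4 : O.valuation z * (O.valuation z)⁻¹ ≤ O.valuation z * 1 := mul_le_mul_right h1 _
  rw [← h3, mul_one] at h4
  exact absurd h (not_lt.2 h4)

end Res

private theorem leg_neg {k : Type} [Field k] [CharZero k] {l : k} (h0 : l ≠ 0) (h1 : l ≠ 1)
    {u y : k} (h : (leg l).toAffine.Nonsingular u y) : ∃ h', -(Affine.Point.some u y h :
      (leg l).toAffine.Point) = Affine.Point.some u (-y) h' := by
  have e : (leg l).toAffine.negY u y = -y := by
    simp [Affine.negY, leg]
  have h' : (leg l).toAffine.Nonsingular u (-y) := by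
    rw [(IsLeg.leg h0 h1).nonsingular] at h ⊢
    rw [neg_sq, h]
  refine ⟨h', ?_⟩
  rw [Affine.Point.neg_some]
  congr 1

/-- the curve `Y² = X (1 - X) (1 - l X)`; the second leg is given by a lift -/
private theorem rel_same {k : Type} [Field k] [CharZero k] {l : k} (h0 : l ≠ 0) (h1 : l ≠ 1)
    {W₂ : WeierstrassCurve k} (G : (leg l).toAffine.Point → W₂.toAffine.Point) (hG : Lift G)
    (u y : k) (hy : y ≠ 0) (h : (leg l).toAffine.Nonsingular u y) :
    Finsupp.single ((Affine.Point.some u y h : (leg l).toAffine.Point),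
        G (Affine.Point.some u y h)) (1 : ℤ) +
      Finsupp.single (-(Affine.Point.some u y h : (leg l).toAffine.Point),
        G (-(Affine.Point.some u y h))) 1 -
      Finsupp.single (0, G 0) 2 ∈ RatEq (leg l) W₂ := by
  have hE : y ^ 2 = u * (u - 1) * (u - l) := ((IsLeg.leg h0 h1).nonsingular u y).1 h
  have hu : u ≠ 0 := by
    rintro rfl
    rw [zero_mul, zero_mul] at hE
    exact hy (pow_eq_zero_iff (two_ne_zero)|>.1 hE)
  obtain ⟨F, _, _, s, Y, O₁, O₂, O₃, hY, hO₁, hO₂, hO₃, a1, a2, b1, b2, c1, c2, hs, key⟩ :=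
    he (X * (1 - X) * (1 - C l * X)) (1 / u) 0 (y / u ^ 2) (div_ne_zero hy (pow_ne_zero 2 hu))
      (by
        simp only [eval_mul, eval_X, eval_sub, eval_one, eval_C]
        field_simp
        rw [hE])
      (by simp) (by simp [derivative_mul])
  have : CharZero F := charZero_of_injective_algebraMap (algebraMap k F).injective
  rw [map_zero, sub_zero] at c1
  rw [map_zero] at hs
  simp only [map_mul, map_sub, map_one, aeval_X, aeval_C] at hY
  have hleg := (IsLeg.leg h0 h1).baseChange (F := F)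
  have hA : ((leg l)⁄F).toAffine.Nonsingular s⁻¹ (Y / s ^ 2) := by
    rw [hleg.nonsingular, div_pow, hY]
    field_simp
  obtain ⟨B, hB⟩ := hG F (.some _ _ hA)
  obtain ⟨h', hneg⟩ := leg_neg h0 h1 h
  rw [hneg]
  have r1 : Res O₁ s⁻¹ u := by
    have := Res.inv hO₁ (a := 1 / u) a1 (one_div_ne_zero hu)
    rwa [one_div, inv_inv] at this
  have r2 : Res O₂ s⁻¹ u := by
    have := Res.inv hO₂ (a := 1 / u) b1 (one_div_ne_zero hu)
    rwa [one_div, inv_inv] at this
  have e1 : y / u ^ 2 / (1 / u) ^ 2 = y := by field_simp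
  have e2 : -(y / u ^ 2) / (1 / u) ^ 2 = -y := by field_simp
  have s1 : Res O₁ (Y / s ^ 2) y := by
    have := Res.div hO₁ (a := y / u ^ 2) a2 (Res.pow hO₁ (a := 1 / u) a1 2)
      (pow_ne_zero 2 (one_div_ne_zero hu))
    rwa [e1] at this
  have s2 : Res O₂ (Y / s ^ 2) (-y) := by
    have := Res.div hO₂ (a := -(y / u ^ 2)) (by unfold Res; rwa [map_neg, sub_neg_eq_add])
      (Res.pow hO₂ (a := 1 / u) b1 2) (pow_ne_zero 2 (one_div_ne_zero hu))
    rwa [e2] at this
  have t1 := SpecAt.finite hA h r1 s1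
  have t2 := SpecAt.finite hA h' r2 s2
  have t3 := SpecAt.pole (W := leg l) hA (not_mem_of hs c1)
  exact key (leg l) W₂ (.some _ _ hA) B _ _ 0 _ _ _ t1 t2 t3 (hB O₁ hO₁ _ t1) (hB O₂ hO₂ _ t2)
    (hB O₃ hO₃ _ t3)

theorem rel_one {k : Type} [Field k] [CharZero k] {l : k} (h0 : l ≠ 0) (h1 : l ≠ 1)
    (W₂ : WeierstrassCurve k) (u y : k) (hy : y ≠ 0) (h : (leg l).toAffine.Nonsingular u y)
    (Q : W₂.toAffine.Point) :
    Finsupp.single ((Affine.Point.some u y h : (leg l).toAffine.Point), Q) (1 : ℤ) +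
      Finsupp.single (-(Affine.Point.some u y h : (leg l).toAffine.Point), Q) 1 -
      Finsupp.single (0, Q) 2 ∈ RatEq (leg l) W₂ := by
  refine rel_same h0 h1 (fun _ => Q) ?_ u y hy h
  intro F _ _ a
  obtain ⟨A, hA⟩ := exists_const Q F
  exact ⟨A, fun O hO p _ => hA O hO⟩

private theorem rel_diff {k : Type} [Field k] [CharZero k] {l l' : k} (h0 : l ≠ 0) (h1 : l ≠ 1)
    (h0' : l' ≠ 0) (h1' : l' ≠ 1) (hll : l ≠ l') (u y y' : k) (hy : y ≠ 0)
    (h : (leg l).toAffine.Nonsingular u y) (h' : (leg l').toAffine.Nonsingular u y') :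
    Finsupp.single ((Affine.Point.some u y h : (leg l).toAffine.Point),
        (Affine.Point.some u y' h' : (leg l').toAffine.Point)) (1 : ℤ) +
      Finsupp.single (-(Affine.Point.some u y h : (leg l).toAffine.Point),
        -(Affine.Point.some u y' h' : (leg l').toAffine.Point)) 1 -
      Finsupp.single (0, 0) 2 ∈ RatEq (leg l) (leg l') := by
  have hE : y ^ 2 = u * (u - 1) * (u - l) := ((IsLeg.leg h0 h1).nonsingular u y).1 h
  have hE' : y' ^ 2 = u * (u - 1) * (u - l') := ((IsLeg.leg h0' h1').nonsingular u y').1 h'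
  have hprod : u * (u - 1) * (u - l) ≠ 0 := by
    rw [← hE]
    exact pow_ne_zero 2 hy
  have hu : u ≠ 0 := left_ne_zero_of_mul (left_ne_zero_of_mul hprod)
  have hu1 : u - 1 ≠ 0 := right_ne_zero_of_mul (left_ne_zero_of_mul hprod)
  have hul : u - l ≠ 0 := right_ne_zero_of_mul hprod
  have hd : l - l' ≠ 0 := sub_ne_zero.2 hll
  have hs0 : (y' / y) ^ 2 = (u - l') / (u - l) := by
    rw [div_pow, hE, hE']
    field_simp
  have hs1 : (y' / y) ^ 2 - 1 = (l - l') / (u - l) := by
    rw [hs0]
    field_simp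
    ring
  have hs2 : (y' / y) ^ 2 - 1 ≠ 0 := by
    rw [hs1]
    exact div_ne_zero hd hul
  have hx0 : (l * (y' / y) ^ 2 - l') / ((y' / y) ^ 2 - 1) = u := by
    rw [div_eq_iff hs2, hs1, hs0]
    field_simp
    ring
  obtain ⟨F, _, _, s, Y, O₁, O₂, O₃, hY, hO₁, hO₂, hO₃, a1, a2, b1, b2, c1, c2, hs, key⟩ :=
    he ((C l * X ^ 2 - C l') * (C (l - 1) * X ^ 2 - C (l' - 1)) * C (l - l') * (X ^ 2 - 1))
      (y' / y) 1 (((y' / y) ^ 2 - 1) ^ 2 * y) (mul_ne_zero (pow_ne_zero 2 hs2) hy)
      (by
        simp only [eval_mul, eval_X, eval_sub, eval_one, eval_C, eval_pow]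
        rw [mul_pow, hE, hs1, hs0]
        field_simp
        ring)
      (by simp)
      (by
        simp only [derivative_mul, derivative_sub, derivative_C, derivative_X_pow,
          derivative_one, eval_mul, eval_X, eval_sub, eval_one, eval_C, eval_pow, eval_add,
          eval_zero]
        have : (l - l') ^ 3 * 2 ≠ 0 := mul_ne_zero (pow_ne_zero 3 hd) two_ne_zero
        convert this using 1
        push_cast
        ring)
  have : CharZero F := charZero_of_injective_algebraMap (algebraMap k F).injective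
  rw [map_one] at c1 hs
  simp only [map_mul, map_sub, map_one, map_pow, aeval_X, aeval_C] at hY
  have hleg := (IsLeg.leg h0 h1).baseChange (F := F)
  have hleg' := (IsLeg.leg h0' h1').baseChange (F := F)
  have c1' : Res O₃ s (1 : k) := by unfold Res; rwa [map_one]
  have hsp : s + 1 ≠ 0 := by
    have : Res O₃ (s + algebraMap k F 1) ((1 : k) + 1) := c1'.add (Res.const 1)
    rw [map_one] at this
    exact this.ne_zero hO₃ (by rw [one_add_one_eq_two]; exact two_ne_zero)
  have hsm : s ^ 2 - 1 ≠ 0 := by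
    rw [show s ^ 2 - 1 = (s - 1) * (s + 1) by ring]
    exact mul_ne_zero (sub_ne_zero.2 hs) hsp
  obtain ⟨x, hx⟩ : ∃ x, x = (algebraMap k F l * s ^ 2 - algebraMap k F l') / (s ^ 2 - 1) :=
    ⟨_, rfl⟩
  have hA : ((leg l)⁄F).toAffine.Nonsingular x (Y / (s ^ 2 - 1) ^ 2) := by
    rw [hleg.nonsingular, div_pow, hY, hx]
    field_simp
    ring
  have hB : ((leg l')⁄F).toAffine.Nonsingular x (s * Y / (s ^ 2 - 1) ^ 2) := by
    rw [hleg'.nonsingular, div_pow, mul_pow, hY, hx]
    field_simp
    ring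
  obtain ⟨g, hneg⟩ := leg_neg h0 h1 h
  obtain ⟨g', hneg'⟩ := leg_neg h0' h1' h'
  rw [hneg, hneg']
  have aux : ∀ (O : ValuationSubring F) (hO : IsPlace k O) (ha : Res O s (y' / y)) (ε : k)
      (hε : ε = 1 ∨ ε = -1) (hb : Res O Y (ε * (((y' / y) ^ 2 - 1) ^ 2 * y))),
      Res O x u ∧ Res O (Y / (s ^ 2 - 1) ^ 2) (ε * y) ∧
        Res O (s * Y / (s ^ 2 - 1) ^ 2) (ε * y') := by
    intro O hO ha ε hε hb
    have e1 : Res O (s ^ 2 - algebraMap k F 1) ((y' / y) ^ 2 - 1) :=
      (ha.pow hO 2).sub (Res.const 1)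
    rw [map_one] at e1
    refine ⟨?_, ?_, ?_⟩
    · have := (((Res.const (O := O) l).mul hO (ha.pow hO 2)).sub (Res.const l')).div hO e1 hs2
      rwa [hx0, ← hx] at this
    · have := hb.div hO (e1.pow hO 2) (pow_ne_zero 2 hs2)
      have e2 : ∀ T : k, T ≠ 0 → ε * (T ^ 2 * y) / T ^ 2 = ε * y := by
        intro T hT
        field_simp
      rwa [e2 _ hs2] at this
    · have := (ha.mul hO hb).div hO (e1.pow hO 2) (pow_ne_zero 2 hs2)
      have e2 : ∀ T : k, T ≠ 0 → y' / y * (ε * (T ^ 2 * y)) / T ^ 2 = ε * y' := by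
        intro T hT
        field_simp
      rwa [e2 _ hs2] at this
  obtain ⟨r1, s1, t1⟩ := aux O₁ hO₁ a1 1 (Or.inl rfl) (by rw [one_mul]; exact a2)
  obtain ⟨r2, s2, t2⟩ := aux O₂ hO₂ b1 (-1) (Or.inr rfl)
    (by rw [neg_one_mul]; unfold Res; rwa [map_neg, sub_neg_eq_add])
  rw [one_mul] at s1 t1
  rw [neg_one_mul] at s2 t2
  have hpole : x ∉ O₃ := by
    have e1 : Res O₃ (s ^ 2 - algebraMap k F 1) ((1 : k) ^ 2 - 1) :=
      (c1'.pow hO₃ 2).sub (Res.const 1)
    have e2 : Res O₃ (algebraMap k F l * s ^ 2 - algebraMap k F l') (l * 1 ^ 2 - l') :=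
      ((Res.const (O := O₃) l).mul hO₃ (c1'.pow hO₃ 2)).sub (Res.const l')
    have e3 : O₃.valuation (algebraMap k F l * s ^ 2 - algebraMap k F l') = 1 :=
      e2.eq_one hO₃ (by rw [one_pow, mul_one]; exact hd)
    have e4 : O₃.valuation (s ^ 2 - 1) < 1 := by
      unfold Res at e1
      rw [one_pow, sub_self, map_zero, sub_zero, map_one] at e1
      exact e1
    have e5 := not_mem_of hsm e4
    intro h6
    apply e5
    rw [← O₃.valuation_le_one_iff] at h6 ⊢
    rw [hx, map_div₀, e3, one_div] at h6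
    rwa [map_inv₀]
  exact key (leg l) (leg l') (.some _ _ hA) (.some _ _ hB) _ _ 0 _ _ 0 (SpecAt.finite hA h r1 s1)
    (SpecAt.finite hA g r2 s2) (SpecAt.pole hA hpole) (SpecAt.finite hB h' r1 t1)
    (SpecAt.finite hB g' r2 t2) (SpecAt.pole hB hpole)

theorem rel_pair {k : Type} [Field k] [CharZero k] {l l' : k} (h0 : l ≠ 0) (h1 : l ≠ 1)
    (h0' : l' ≠ 0) (h1' : l' ≠ 1) (u y y' : k) (hy : y ≠ 0)
    (h : (leg l).toAffine.Nonsingular u y) (h' : (leg l').toAffine.Nonsingular u y') :
    Finsupp.single ((Affine.Point.some u y h : (leg l).toAffine.Point),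
        (Affine.Point.some u y' h' : (leg l').toAffine.Point)) (1 : ℤ) +
      Finsupp.single (-(Affine.Point.some u y h : (leg l).toAffine.Point),
        -(Affine.Point.some u y' h' : (leg l').toAffine.Point)) 1 -
      Finsupp.single (0, 0) 2 ∈ RatEq (leg l) (leg l') := by
  by_cases hll : l = l'
  · subst hll
    have hE : y ^ 2 = u * (u - 1) * (u - l) := ((IsLeg.leg h0 h1).nonsingular u y).1 h
    have hE' : y' ^ 2 = u * (u - 1) * (u - l) := ((IsLeg.leg h0 h1).nonsingular u y').1 h'
    rcases sq_eq_sq_iff_eq_or_eq_neg.1 (hE'.trans hE.symm) with rfl | rfl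
    · exact rel_same h0 h1 (fun P => P) Lift.id u _ hy h
    · obtain ⟨g, hneg⟩ := leg_neg h0 h1 h
      have := rel_same h0 h1 (fun P => -P) Lift.id.neg u y hy h
      rw [← hneg]
      rwa [neg_zero] at this
  · exact rel_diff h0 h1 h0' h1' hll u y y' hy h h'

theorem two_sym {k : Type} [Field k] [CharZero k] {l l' : k} (h0 : l ≠ 0) (h1 : l ≠ 1)
    (h0' : l' ≠ 0) (h1' : l' ≠ 1) (u y y' : k) (hy : y ≠ 0) (hy' : y' ≠ 0)
    (h : (leg l).toAffine.Nonsingular u y) (h' : (leg l').toAffine.Nonsingular u y') :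
    (2 : ℕ) • sym (Affine.Point.some u y h : (leg l).toAffine.Point)
      (Affine.Point.some u y' h' : (leg l').toAffine.Point) ∈ RatEq (leg l) (leg l') := by
  have hp := rel_pair h0 h1 h0' h1' u y y' hy h h'
  have hQ := rel_one h0 h1 (leg l') u y hy h
  have hP : ∀ P : (leg l).toAffine.Point,
      Finsupp.single (P, (Affine.Point.some u y' h' : (leg l').toAffine.Point)) (1 : ℤ) +
      Finsupp.single (P, -(Affine.Point.some u y' h' : (leg l').toAffine.Point)) 1 -
      Finsupp.single (P, 0) 2 ∈ RatEq (leg l) (leg l') := by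
    intro P
    have := RatEq.swap (rel_one h0' h1' (leg l) u y' hy' h' P)
    rw [sub_eq_add_neg, ← Finsupp.single_neg, Finsupp.mapDomain_add, Finsupp.mapDomain_add,
      Finsupp.mapDomain_single, Finsupp.mapDomain_single, Finsupp.mapDomain_single,
      Finsupp.single_neg, ← sub_eq_add_neg] at this
    exact this
  generalize (Affine.Point.some u y h : (leg l).toAffine.Point) = P at *
  generalize (Affine.Point.some u y' h' : (leg l').toAffine.Point) = Q at *
  have e2 : ∀ R : (leg l).toAffine.Point × (leg l').toAffine.Point,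
      Finsupp.single R (2 : ℤ) = Finsupp.single R 1 + Finsupp.single R 1 := by
    intro R
    rw [← Finsupp.single_add]
    norm_num
  simp only [e2] at hp hQ hP
  have k1 := (RatEq (leg l) (leg l')).sub_mem
    ((RatEq (leg l) (leg l')).sub_mem hp (hQ 0)) (hP 0)
  have k2 := (RatEq (leg l) (leg l')).sub_mem (hQ Q) (hQ 0)
  have k3 := (RatEq (leg l) (leg l')).sub_mem (hP (-P)) (hP 0)
  have k4 := (RatEq (leg l) (leg l')).sub_mem ((RatEq (leg l) (leg l')).add_mem k1 k2) k3
  convert k4 using 1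
  simp only [sym, two_nsmul]
  abel

end Pool.Agent.ZC
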