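import Pool.Agent.ZC.Quad
import Pool.Agent.ZC.Leg
import Pool.Agent.ZC.Push
import Pool.Agent.ZC.Rel

/-!
# Translations
-/

set_option autoImplicit false

noncomputable section

namespace Pool.Agent.ZC

open Polynomial WeierstrassCurve
open scoped Classical

section Res

variable {k F : Type} [Field k] [Field F] [Algebra k F]

/-- `z` has the value `a` at `O` -/
private def Res (O : ValuationSubring F) (z : F) (a : k) : Prop :=
  O.valuation (z - algebraMap k F a) < 1

variable {O : ValuationSubring F} {z w : F} {a b : k}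

private theorem val_le (hO : IsPlace k O) (a : k) : O.valuation (algebraMap k F a) ≤ 1 :=
  (O.valuation_le_one_iff _).2 (hO.1 a)

private theorem val_one (hO : IsPlace k O) (ha : a ≠ 0) : O.valuation (algebraMap k F a) = 1 := by
  refine le_antisymm (val_le hO a) ?_
  have h1 := val_le hO a⁻¹
  have h2 : O.valuation (algebraMap k F a) * O.valuation (algebraMap k F a⁻¹) = 1 := by
    rw [← map_mul, ← map_mul, mul_inv_cancel₀ ha, map_one, map_one]
  calc (1 : O.ValueGroup) = O.valuation (algebraMap k F a) * O.valuation (algebraMap k F a⁻¹) :=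
        h2.symm
    _ ≤ O.valuation (algebraMap k F a) * 1 := mul_le_mul_right h1 _
    _ = _ := mul_one _

private theorem Res.const (a : k) : Res O (algebraMap k F a) a := by
  unfold Res
  rw [sub_self, map_zero]
  exact zero_lt_one

private theorem Res.le (hO : IsPlace k O) (h : Res O z a) : O.valuation z ≤ 1 := by
  have h1 : z = (z - algebraMap k F a) + algebraMap k F a := by ring
  rw [h1]
  exact O.valuation.map_add_le (le_of_lt h) (val_le hO a)

private theorem Res.eq_one (hO : IsPlace k O) (h : Res O z a) (ha : a ≠ 0) :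
    O.valuation z = 1 := by
  have h1 : z = (z - algebraMap k F a) + algebraMap k F a := by ring
  have h2 : O.valuation (z - algebraMap k F a) < O.valuation (algebraMap k F a) := by
    rw [val_one hO ha]
    exact h
  rw [h1, Valuation.map_add_eq_of_lt_right _ h2, val_one hO ha]

private theorem Res.ne_zero (hO : IsPlace k O) (h : Res O z a) (ha : a ≠ 0) : z ≠ 0 := by
  rintro rfl
  have := h.eq_one hO ha
  rw [map_zero] at this
  exact zero_ne_one this

private theorem Res.add (h : Res O z a) (h' : Res O w b) : Res O (z + w) (a + b) := by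
  unfold Res
  rw [map_add, show z + w - (algebraMap k F a + algebraMap k F b) =
    (z - algebraMap k F a) + (w - algebraMap k F b) by ring]
  exact O.valuation.map_add_lt h h'

private theorem Res.neg (h : Res O z a) : Res O (-z) (-a) := by
  unfold Res
  rw [map_neg, show -z - -(algebraMap k F a) = -(z - algebraMap k F a) by ring,
    Valuation.map_neg]
  exact h

private theorem Res.sub (h : Res O z a) (h' : Res O w b) : Res O (z - w) (a - b) := by
  rw [sub_eq_add_neg, sub_eq_add_neg]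
  exact h.add h'.neg

private theorem Res.mul (hO : IsPlace k O) (h : Res O z a) (h' : Res O w b) :
    Res O (z * w) (a * b) := by
  unfold Res
  rw [map_mul, show z * w - algebraMap k F a * algebraMap k F b =
    (z - algebraMap k F a) * w + algebraMap k F a * (w - algebraMap k F b) by ring]
  refine O.valuation.map_add_lt ?_ ?_
  · rw [map_mul]
    exact mul_lt_one_of_nonneg_of_lt_one_left zero_le h (h'.le hO)
  · rw [map_mul]
    exact mul_lt_one_of_nonneg_of_lt_one_right (val_le hO a) zero_le h'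

private theorem Res.pow (hO : IsPlace k O) (h : Res O z a) (n : ℕ) : Res O (z ^ n) (a ^ n) := by
  induction n with
  | zero => simpa using Res.const (O := O) (1 : k)
  | succ n ih => rw [pow_succ, pow_succ]; exact ih.mul hO h

private theorem Res.inv (hO : IsPlace k O) (h : Res O z a) (ha : a ≠ 0) : Res O z⁻¹ a⁻¹ := by
  have hz := h.ne_zero hO ha
  have ha' : algebraMap k F a ≠ 0 := (_root_.map_ne_zero _).2 ha
  unfold Res
  rw [map_inv₀, show z⁻¹ - (algebraMap k F a)⁻¹ = -((z - algebraMap k F a) *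
    (z⁻¹ * (algebraMap k F a)⁻¹)) by field_simp; ring, Valuation.map_neg, map_mul, map_mul,
    map_inv₀, map_inv₀, h.eq_one hO ha, val_one hO ha, inv_one, mul_one, mul_one]
  exact h

private theorem Res.div (hO : IsPlace k O) (h : Res O z a) (h' : Res O w b) (hb : b ≠ 0) :
    Res O (z / w) (a / b) := by
  rw [div_eq_mul_inv, div_eq_mul_inv]
  exact h.mul hO (h'.inv hO hb)

private theorem not_mem_of (hz : z ≠ 0) (h : O.valuation z < 1) : z⁻¹ ∉ O := by
  intro h1
  rw [← O.valuation_le_one_iff, map_inv₀] at h1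
  have h2 : O.valuation z ≠ 0 := (Valuation.ne_zero_iff _).2 hz
  have h3 : (1 : O.ValueGroup) = O.valuation z * (O.valuation z)⁻¹ := (mul_inv_cancel₀ h2).symm
  have h4 : O.valuation z * (O.valuation z)⁻¹ ≤ O.valuation z * 1 := mul_le_mul_right h1 _
  rw [← h3, mul_one] at h4
  exact absurd h (not_lt.2 h4)

end Res

private theorem leg_neg {k : Type} [Field k] [CharZero k] {l : k} (h0 : l ≠ 0) (h1 : l ≠ 1)
    {u y : k} (h : (leg l).toAffine.Nonsingular u y) : ∃ h', -(Affine.Point.some u y h :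
      (leg l).toAffine.Point) = Affine.Point.some u (-y) h' := by
  have e : (leg l).toAffine.negY u y = -y := by
    simp [Affine.negY, leg]
  have h' : (leg l).toAffine.Nonsingular u (-y) := by
    rw [(IsLeg.leg h0 h1).nonsingular] at h ⊢
    rw [neg_sq, h]
  refine ⟨h', ?_⟩
  rw [Affine.Point.neg_some]
  congr 1


/-- the affine addition formula on a Legendre curve -/
private theorem leg_add {K : Type} [Field K] [CharZero K] {W : WeierstrassCurve K} {l : K}
    (hW : IsLeg W l) {x y x' y' : K} (h : W.toAffine.Nonsingular x y)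
    (h' : W.toAffine.Nonsingular x' y') (hx : x ≠ x') :
    ∃ h3, (Affine.Point.some x y h : W.toAffine.Point) + .some x' y' h' =
      .some (((y - y') / (x - x')) ^ 2 + (1 + l) - x - x')
        (-((y - y') / (x - x') * (((y - y') / (x - x')) ^ 2 + (1 + l) - x - x' - x') + y')) h3 := by
  have e1 : W.toAffine.slope x x' y y' = (y - y') / (x - x') := Affine.slope_of_X_ne hx
  have e2 : W.toAffine.addX x x' (W.toAffine.slope x x' y y') =
      ((y - y') / (x - x')) ^ 2 + (1 + l) - x - x' := by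
    rw [e1, Affine.addX, hW.a₁, hW.a₂]
    ring
  have hxx : x - x' ≠ 0 := sub_ne_zero.2 hx
  have e3 : W.toAffine.addY x x' y (W.toAffine.slope x x' y y') =
      (-((y - y') / (x - x') * (((y - y') / (x - x')) ^ 2 + (1 + l) - x - x' - x') + y')) := by
    rw [Affine.addY, Affine.negAddY, Affine.negY, e2, e1, hW.a₁, hW.a₃]
    field_simp
    ring
  have h4 := Affine.Point.add_some (h₁ := h) (h₂ := h') (fun hh => hx hh.1)
  have h5 : W.toAffine.Nonsingular (((y - y') / (x - x')) ^ 2 + (1 + l) - x - x')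
      (-((y - y') / (x - x') * (((y - y') / (x - x')) ^ 2 + (1 + l) - x - x' - x') + y')) := by
    rw [← e3, ← e2]
    exact Affine.nonsingular_add h h' (fun hh => hx hh.1)
  refine ⟨h5, ?_⟩
  rw [h4]
  congr 1


private theorem addrel_X {F : Type} [Field F] {s Y x1 y1 l1 : F} (hs : s ≠ 0)
    (hd0 : 1 - x1 * s ≠ 0) (hxs : s⁻¹ - x1 ≠ 0)
    (hY : Y ^ 2 = s * (1 - s) * (1 - l1 * s)) :
    ((Y / s ^ 2 - y1) / (s⁻¹ - x1)) ^ 2 + (1 + l1) - s⁻¹ - x1 =
        x1 + (-2 * Y * y1 + s * (l1 - 2 * x1 * (1 + l1) + 3 * x1 ^ 2) +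
      s ^ 2 * (y1 ^ 2 + x1 ^ 2 * (1 + l1) - 2 * x1 ^ 3)) / (1 - x1 * s) ^ 2 := by
  have hslope : (Y / s ^ 2 - y1) / (s⁻¹ - x1) = (Y - y1 * s ^ 2) / (s * (1 - x1 * s)) := by
    field_simp
  rw [hslope]
  have hd1 : 1 - s * x1 ≠ 0 := by rwa [mul_comm]
  field_simp
  linear_combination hY
private theorem addrel_Y {F : Type} [Field F] {s Y x1 y1 l1 : F} (hs : s ≠ 0)
    (hd0 : 1 - x1 * s ≠ 0) (hxs : s⁻¹ - x1 ≠ 0)
    (hY : Y ^ 2 = s * (1 - s) * (1 - l1 * s)) (N : F)
    (hN : N = -2 * Y * y1 + s * (l1 - 2 * x1 * (1 + l1) + 3 * x1 ^ 2) +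
      s ^ 2 * (y1 ^ 2 + x1 ^ 2 * (1 + l1) - 2 * x1 ^ 3)) :
    (Y / s ^ 2 - y1) / (s⁻¹ - x1) *
        ((((Y / s ^ 2 - y1) / (s⁻¹ - x1)) ^ 2 + (1 + l1) - s⁻¹ - x1) - x1) =
        (-2 * y1 * ((1 - s) * (1 - l1 * s)) + Y * (l1 - 2 * x1 * (1 + l1) + 3 * x1 ^ 2) +
          Y * s * (y1 ^ 2 + x1 ^ 2 * (1 + l1) - 2 * x1 ^ 3) - y1 * s * N) /
          (1 - x1 * s) ^ 3 := by
  rw [addrel_X hs hd0 hxs hY, ← hN, add_sub_cancel_left]
  have hslope : (Y / s ^ 2 - y1) / (s⁻¹ - x1) = (Y - y1 * s ^ 2) / (s * (1 - x1 * s)) := by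
    field_simp
  rw [hslope]
  have hd1 : 1 - s * x1 ≠ 0 := by rwa [mul_comm]
  have e : (Y - y1 * s ^ 2) * N = s * ((-2 * y1 * ((1 - s) * (1 - l1 * s)) + Y * (l1 - 2 * x1 * (1 + l1) + 3 * x1 ^ 2) +
          Y * s * (y1 ^ 2 + x1 ^ 2 * (1 + l1) - 2 * x1 ^ 3) - y1 * s * N)) := by
    rw [hN]
    linear_combination (-2 * y1) * hY
  rw [div_mul_div_comm, e]
  field_simp

theorem rel_add {k : Type} [Field k] [CharZero k] {l : k} (h0 : l ≠ 0) (h1 : l ≠ 1)
    (W₂ : WeierstrassCurve k) (P P' : (leg l).toAffine.Point) (h2 : P ≠ -P) (hP : P ≠ P')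
    (hP' : P ≠ -P') (Q : W₂.toAffine.Point) :
    Finsupp.single (P' + P, Q) (1 : ℤ) + Finsupp.single (P' - P, Q) 1 - Finsupp.single (P', Q) 2 ∈
      RatEq (leg l) W₂ := by
  have hl := IsLeg.leg h0 h1
  rcases P with _ | ⟨u, y, h⟩
  · exact absurd rfl h2
  obtain ⟨hn, hneg⟩ := leg_neg h0 h1 h
  have hE : y ^ 2 = u * (u - 1) * (u - l) := (hl.nonsingular u y).1 h
  have hy : y ≠ 0 := by
    intro hy
    apply h2
    rw [hneg]
    congr 1
    rw [hy, neg_zero]
  rcases P' with _ | ⟨x', y', h'⟩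
  · have e1 : (Affine.Point.zero : (leg l).toAffine.Point) = 0 := rfl
    rw [e1, zero_add, zero_sub]
    exact rel_one h0 h1 W₂ u y hy h Q
  have hE' : y' ^ 2 = x' * (x' - 1) * (x' - l) := (hl.nonsingular x' y').1 h'
  have hux : u ≠ x' := by
    rintro rfl
    have hyy : y ^ 2 = y' ^ 2 := by rw [hE, hE']
    rcases sq_eq_sq_iff_eq_or_eq_neg.mp hyy with e | e
    · apply hP; congr 1
    · apply hP'
      obtain ⟨hn', hneg'⟩ := leg_neg h0 h1 h'
      rw [hneg']
      congr 1
  have hu : u ≠ 0 := by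
    rintro rfl
    rw [zero_mul, zero_mul] at hE
    exact hy (pow_eq_zero_iff (two_ne_zero)|>.1 hE)
  obtain ⟨F, _, _, s, Y, O₁, O₂, O₃, hY, hO₁, hO₂, hO₃, a1, a2, b1, b2, c1, c2, hs, key⟩ :=
    he (X * (1 - X) * (1 - C l * X)) (1 / u) 0 (y / u ^ 2) (div_ne_zero hy (pow_ne_zero 2 hu))
      (by
        simp only [eval_mul, eval_X, eval_sub, eval_one, eval_C]
        field_simp
        rw [hE])
      (by simp) (by simp [derivative_mul])
  have : CharZero F := charZero_of_injective_algebraMap (algebraMap k F).injective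
  rw [map_zero] at hs
  have c1' : Res O₃ s (0 : k) := c1
  have c2' : Res O₃ Y (0 : k) := by unfold Res; rwa [map_zero, sub_zero]
  simp only [map_mul, map_sub, map_one, aeval_X, aeval_C] at hY
  have hleg := hl.baseChange (F := F)
  have hA : ((leg l)⁄F).toAffine.Nonsingular s⁻¹ (Y / s ^ 2) := by
    rw [hleg.nonsingular, div_pow, hY]
    field_simp
  have hA' : ((leg l)⁄F).toAffine.Nonsingular (algebraMap k F x') (algebraMap k F y') := by
    rw [hleg.nonsingular, ← map_pow, hE']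
    simp only [map_mul, map_sub, map_one]
  have r1 : Res O₁ s⁻¹ u := by
    have := Res.inv hO₁ (a := 1 / u) a1 (one_div_ne_zero hu)
    rwa [one_div, inv_inv] at this
  have r2 : Res O₂ s⁻¹ u := by
    have := Res.inv hO₂ (a := 1 / u) b1 (one_div_ne_zero hu)
    rwa [one_div, inv_inv] at this
  have e1 : y / u ^ 2 / (1 / u) ^ 2 = y := by field_simp
  have e2 : -(y / u ^ 2) / (1 / u) ^ 2 = -y := by field_simp
  have s1 : Res O₁ (Y / s ^ 2) y := by
    have := Res.div hO₁ (a := y / u ^ 2) a2 (Res.pow hO₁ (a := 1 / u) a1 2)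
      (pow_ne_zero 2 (one_div_ne_zero hu))
    rwa [e1] at this
  have s2 : Res O₂ (Y / s ^ 2) (-y) := by
    have := Res.div hO₂ (a := -(y / u ^ 2)) (by unfold Res; rwa [map_neg, sub_neg_eq_add])
      (Res.pow hO₂ (a := 1 / u) b1 2) (pow_ne_zero 2 (one_div_ne_zero hu))
    rwa [e2] at this
  have hne : s⁻¹ ≠ algebraMap k F x' := by
    intro e
    have h3 : Res O₁ (s⁻¹ - algebraMap k F x') (u - x') := r1.sub (Res.const x')
    exact h3.ne_zero hO₁ (sub_ne_zero.2 hux) (sub_eq_zero.2 e)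
  obtain ⟨h3, hadd⟩ := leg_add hleg hA hA' hne
  obtain ⟨k1, hadd1⟩ := leg_add hl h h' hux
  obtain ⟨k2, hadd2⟩ := leg_add hl hn h' hux
  have hsum1 : (Affine.Point.some x' y' h' : (leg l).toAffine.Point) + .some u y h =
      .some _ _ k1 := by rw [add_comm]; exact hadd1
  have hsum2 : (Affine.Point.some x' y' h' : (leg l).toAffine.Point) - .some u y h =
      .some _ _ k2 := by rw [sub_eq_add_neg, hneg, add_comm]; exact hadd2
  rw [hsum1, hsum2]
  have c : ∀ {O : ValuationSubring F} (a : k), Res O (algebraMap k F a) a := fun a => Res.const a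
  have t1 : SpecAt O₁ (leg l) (.some _ _ h3) (.some _ _ k1) := by
    have q1 : Res O₁ ((Y / s ^ 2 - algebraMap k F y') / (s⁻¹ - algebraMap k F x'))
        ((y - y') / (u - x')) := (s1.sub (c y')).div hO₁ (r1.sub (c x')) (sub_ne_zero.2 hux)
    have q2 : Res O₁ (((Y / s ^ 2 - algebraMap k F y') / (s⁻¹ - algebraMap k F x')) ^ 2 +
        (1 + algebraMap k F l) - s⁻¹ - algebraMap k F x')
        (((y - y') / (u - x')) ^ 2 + (1 + l) - u - x') := by
      have := (((q1.pow hO₁ 2).add (c (1 + l))).sub r1).sub (c x')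
      rwa [map_add, map_one] at this
    refine SpecAt.finite h3 k1 q2 ?_
    exact ((q1.mul hO₁ (q2.sub (c x'))).add (c y')).neg
  have t2 : SpecAt O₂ (leg l) (.some _ _ h3) (.some _ _ k2) := by
    have q1 : Res O₂ ((Y / s ^ 2 - algebraMap k F y') / (s⁻¹ - algebraMap k F x'))
        ((-y - y') / (u - x')) := (s2.sub (c y')).div hO₂ (r2.sub (c x')) (sub_ne_zero.2 hux)
    have q2 : Res O₂ (((Y / s ^ 2 - algebraMap k F y') / (s⁻¹ - algebraMap k F x')) ^ 2 +
        (1 + algebraMap k F l) - s⁻¹ - algebraMap k F x')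
        (((-y - y') / (u - x')) ^ 2 + (1 + l) - u - x') := by
      have := (((q1.pow hO₂ 2).add (c (1 + l))).sub r2).sub (c x')
      rwa [map_add, map_one] at this
    refine SpecAt.finite h3 k2 q2 ?_
    exact ((q1.mul hO₂ (q2.sub (c x'))).add (c y')).neg
  have t3 : SpecAt O₃ (leg l) (.some _ _ h3) (.some x' y' h') := by
    have hd : Res O₃ (1 - algebraMap k F x' * s) (1 : k) := by
      have := (c (O := O₃) (1 : k)).sub ((c (O := O₃) x').mul hO₃ c1')
      rw [map_one, mul_zero, sub_zero] at this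
      exact this
    have hd0 : 1 - algebraMap k F x' * s ≠ 0 := hd.ne_zero hO₃ one_ne_zero
    have hxs : s⁻¹ - algebraMap k F x' ≠ 0 := sub_ne_zero.2 hne
    obtain ⟨N, hN⟩ : ∃ N : F, N = -2 * Y * algebraMap k F y' +
        s * (algebraMap k F l - 2 * algebraMap k F x' * (1 + algebraMap k F l) +
          3 * algebraMap k F x' ^ 2) +
        s ^ 2 * (algebraMap k F y' ^ 2 + algebraMap k F x' ^ 2 * (1 + algebraMap k F l) -
          2 * algebraMap k F x' ^ 3) := ⟨_, rfl⟩
    have hNres : Res O₃ N (0 : k) := by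
      have := ((((c (O := O₃) (-2 : k)).mul hO₃ c2').mul hO₃ (c y')).add
        (c1'.mul hO₃ (c (O := O₃) (l - 2 * x' * (1 + l) + 3 * x' ^ 2)))).add
        ((c1'.pow hO₃ 2).mul hO₃ (c (O := O₃) (y' ^ 2 + x' ^ 2 * (1 + l) - 2 * x' ^ 3)))
      have e0 : -2 * (0 : k) * y' + 0 * (l - 2 * x' * (1 + l) + 3 * x' ^ 2) +
        0 ^ 2 * (y' ^ 2 + x' ^ 2 * (1 + l) - 2 * x' ^ 3) = 0 := by ring
      rw [e0] at this
      simpa [hN, map_ofNat] using this
    have hX3res : Res O₃ (((Y / s ^ 2 - algebraMap k F y') / (s⁻¹ - algebraMap k F x')) ^ 2 +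
        (1 + algebraMap k F l) - s⁻¹ - algebraMap k F x') x' := by
      rw [addrel_X hs hd0 hxs hY, ← hN]
      have := (c (O := O₃) x').add (hNres.div hO₃ (hd.pow hO₃ 2) (by simp))
      simpa using this
    refine SpecAt.finite h3 h' hX3res ?_
    rw [addrel_Y hs hd0 hxs hY N hN]
    have hs1 : Res O₃ (1 - s) (1 : k) := by
      have := (c (O := O₃) (1 : k)).sub c1'
      simpa using this
    have hs2 : Res O₃ (1 - algebraMap k F l * s) (1 : k) := by
      have := (c (O := O₃) (1 : k)).sub ((c (O := O₃) l).mul hO₃ c1')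
      simpa using this
    have hnum : Res O₃ (-2 * algebraMap k F y' * ((1 - s) * (1 - algebraMap k F l * s)) +
        Y * (algebraMap k F l - 2 * algebraMap k F x' * (1 + algebraMap k F l) +
          3 * algebraMap k F x' ^ 2) +
          Y * s * (algebraMap k F y' ^ 2 + algebraMap k F x' ^ 2 * (1 + algebraMap k F l) -
            2 * algebraMap k F x' ^ 3) - algebraMap k F y' * s * N) (-2 * y' : k) := by
      have := (((((c (O := O₃) (-2 * y' : k)).mul hO₃ (hs1.mul hO₃ hs2))).add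
        (c2'.mul hO₃ (c (O := O₃) (l - 2 * x' * (1 + l) + 3 * x' ^ 2)))).add
        ((c2'.mul hO₃ c1').mul hO₃ (c (O := O₃) (y' ^ 2 + x' ^ 2 * (1 + l) - 2 * x' ^ 3)))).sub
        (((c (O := O₃) y').mul hO₃ c1').mul hO₃ hNres)
      simpa [map_ofNat] using this
    have hfin := ((hnum.div hO₃ (hd.pow hO₃ 3) (by simp)).add (c (O := O₃) y')).neg
    have e3 : -(-2 * y' / 1 ^ 3 + y') = y' := by ring
    rw [e3] at hfin
    exact hfin
  obtain ⟨B, hB⟩ := exists_const Q F
  exact key (leg l) W₂ (.some _ _ h3) B _ _ _ _ _ _ t1 t2 t3 (hB O₁ hO₁) (hB O₂ hO₂) (hB O₃ hO₃)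

end Pool.Agent.ZC
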