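import Pool.Agent.ZC.AddRel
import Pool.Agent.ZC.Push

/-!
# Bilinearity of the symbols, up to `2`-torsion
-/

set_option autoImplicit false

noncomputable section

namespace Pool.Agent.ZC

open Polynomial WeierstrassCurve
open scoped Classical

theorem jensen {G A : Type} [AddCommGroup G] [AddCommGroup A]
    (htf : ∀ (n : ℤ) (x : G), n ≠ 0 → x ≠ 0 → n • x ≠ 0) (c : G → A) (h0 : c 0 = 0)
    (hJ : ∀ P P' : G, P ≠ 0 → P ≠ P' → P ≠ -P' → c (P' + P) + c (P' - P) = 2 • c P') (x y : G) :
    2 • c (x + y) = 2 • c x + 2 • c y := by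
  have hneg : ∀ P : G, c (-P) = -c P := by
    intro P
    by_cases hP : P = 0
    · simp [hP, h0]
    · have h := hJ P 0 hP hP (by simpa using hP)
      rw [zero_add, zero_sub, h0, smul_zero] at h
      exact eq_neg_of_add_eq_zero_right h
  have hgen : ∀ x y : G, x ≠ y → 2 • c (x + y) = 2 • c x + 2 • c y := by
    intro x y hxy
    by_cases hx : x = 0
    · simp [hx, h0]
    by_cases hy : y = 0
    · simp [hy, h0]
    by_cases hn : x = -y
    · subst hn
      rw [neg_add_cancel, h0, hneg, smul_zero, smul_neg, neg_add_cancel]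
    · have e1 := hJ y x hy (Ne.symm hxy) (fun h => hn (by rw [h, neg_neg]))
      have e2 := hJ x y hx hxy hn
      have e3 : c (y - x) = -c (x - y) := by rw [← hneg, neg_sub]
      rw [e3, add_comm y x] at e2
      rw [← e1, ← e2]
      abel
  by_cases hxy : x = y
  · subst hxy
    by_cases hx : x = 0
    · simp [hx, h0]
    have hne : ∀ m n : ℤ, m ≠ n → m • x ≠ n • x := by
      intro m n hmn h
      exact htf (m - n) x (sub_ne_zero.mpr hmn) hx (by rw [sub_smul, h, sub_self])
    have s : ∀ m n : ℤ, m ≠ n → 2 • c ((m + n) • x) = 2 • c (m • x) + 2 • c (n • x) := by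
      intro m n hmn
      rw [add_smul]
      exact hgen _ _ (hne m n hmn)
    have a3 := s 1 2 (by norm_num)
    have a4 := s 1 3 (by norm_num)
    have a5 := s 1 4 (by norm_num)
    have a5' := s 2 3 (by norm_num)
    norm_num at a3 a4 a5 a5'
    rw [a5] at a5'
    rw [a4, a3] at a5'
    have h2 : (2 : ℤ) • x = x + x := two_zsmul x
    rw [h2] at a5'
    have := add_left_cancel (a := 2 • c x + 2 • c (x + x)) (b := 2 • c x + 2 • c x)
      (c := 2 • c (x + x)) (by
        rw [show (2 • c x + 2 • c (x + x)) + (2 • c x + 2 • c x) =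
          2 • c x + (2 • c x + (2 • c x + 2 • c (x + x))) by abel, a5']
        abel)
    exact this.symm
  · exact hgen x y hxy

private lemma bilin_left {k : Type} [Field k] [CharZero k] {l : k} (h0 : l ≠ 0) (h1 : l ≠ 1)
    (W₂ : WeierstrassCurve k) (H : AddSubgroup (leg l).toAffine.Point)
    (hH : ∀ (n : ℤ), n ≠ 0 → ∀ x ∈ H, x ≠ 0 → n • x ≠ 0) (Q : W₂.toAffine.Point)
    (x y : (leg l).toAffine.Point) (hx : x ∈ H) (hy : y ∈ H) :
    (2 : ℕ) • sym (x + y) Q - (2 : ℕ) • sym x Q - (2 : ℕ) • sym y Q ∈ RatEq (leg l) W₂ := by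
  have key : ∀ Q : W₂.toAffine.Point,
      (2 : ℕ) • (Finsupp.single (x + y, Q) (1 : ℤ) - Finsupp.single ((0 : (leg l).toAffine.Point), Q) 1)
        - (2 : ℕ) • (Finsupp.single (x, Q) (1 : ℤ) - Finsupp.single ((0 : (leg l).toAffine.Point), Q) 1)
        - (2 : ℕ) • (Finsupp.single (y, Q) (1 : ℤ) - Finsupp.single ((0 : (leg l).toAffine.Point), Q) 1)
        ∈ RatEq (leg l) W₂ := by
    intro Q
    let π : Z0 (leg l) W₂ →+ CH0 (leg l) W₂ := QuotientAddGroup.mk' (RatEq (leg l) W₂)
    have hπ : ∀ z, π z = 0 ↔ z ∈ RatEq (leg l) W₂ := fun z => QuotientAddGroup.eq_zero_iff z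
    let c : H → CH0 (leg l) W₂ := fun P =>
      π (Finsupp.single ((P : (leg l).toAffine.Point), Q) (1 : ℤ) -
        Finsupp.single ((0 : (leg l).toAffine.Point), Q) 1)
    have hc0 : c 0 = 0 := by
      simp only [c, AddSubgroup.coe_zero, sub_self, map_zero]
    have hJ : ∀ P P' : H, P ≠ 0 → P ≠ P' → P ≠ -P' → c (P' + P) + c (P' - P) = 2 • c P' := by
      intro P P' hP hPP hPn
      have hr := rel_add h0 h1 W₂ (P : (leg l).toAffine.Point) (P' : (leg l).toAffine.Point)
        (by
          intro h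
          refine hH 2 two_ne_zero P P.2 (fun h => hP (Subtype.ext h)) ?_
          rw [two_zsmul]
          nth_rewrite 2 [h]
          exact add_neg_cancel _)
        (fun h => hPP (Subtype.ext h)) (fun h => hPn (Subtype.ext (by simpa using h))) Q
      rw [← hπ] at hr
      rw [← sub_eq_zero]
      simp only [c, AddSubgroup.coe_add, AddSubgroup.coe_sub]
      rw [← hr, ← map_nsmul, ← map_add, ← map_sub]
      congr 1
      have e2 : (Finsupp.single ((P' : (leg l).toAffine.Point), Q) (2 : ℤ) : Z0 (leg l) W₂) =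
          2 • Finsupp.single ((P' : (leg l).toAffine.Point), Q) (1 : ℤ) := by
        rw [Finsupp.smul_single]; rfl
      rw [e2]
      abel
    have htf : ∀ (n : ℤ) (x : H), n ≠ 0 → x ≠ 0 → n • x ≠ 0 := by
      intro n x hn hx h
      refine hH n hn x x.2 (fun h => hx (Subtype.ext h)) ?_
      have := congrArg (fun z : H => (z : (leg l).toAffine.Point)) h
      simpa using this
    have hj := jensen htf c hc0 hJ ⟨x, hx⟩ ⟨y, hy⟩
    rw [← hπ, map_sub, map_sub, map_nsmul, map_nsmul, map_nsmul]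
    rw [sub_sub, sub_eq_zero]
    exact hj
  have hQ := key Q
  have hZ := key 0
  have := (RatEq (leg l) W₂).sub_mem hQ hZ
  convert this using 1
  unfold sym
  abel

private lemma bilin_zero {k : Type} [Field k] {W₁ W₂ : WeierstrassCurve k}
    (Q : W₂.toAffine.Point) : sym (0 : W₁.toAffine.Point) Q = 0 := by
  unfold sym
  abel

private lemma bilin_zero' {k : Type} [Field k] {W₁ W₂ : WeierstrassCurve k}
    (P : W₁.toAffine.Point) : sym P (0 : W₂.toAffine.Point) = 0 := by
  unfold sym
  abel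

theorem bilin {k : Type} [Field k] [CharZero k] {l l' : k} (h0 : l ≠ 0) (h1 : l ≠ 1)
    (h0' : l' ≠ 0) (h1' : l' ≠ 1) (S : Set (leg l).toAffine.Point)
    (S' : Set (leg l').toAffine.Point)
    (hS : ∀ (n : ℤ), n ≠ 0 → ∀ x ∈ AddSubgroup.closure S, x ≠ 0 → n • x ≠ 0)
    (hS' : ∀ (n : ℤ), n ≠ 0 → ∀ x ∈ AddSubgroup.closure S', x ≠ 0 → n • x ≠ 0)
    (h : ∀ P ∈ S, ∀ Q ∈ S', (2 : ℕ) • sym P Q ∈ RatEq (leg l) (leg l'))
    (a : (leg l).toAffine.Point) (ha : a ∈ AddSubgroup.closure S)
    (b : (leg l').toAffine.Point) (hb : b ∈ AddSubgroup.closure S') :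
    (2 : ℕ) • sym a b ∈ RatEq (leg l) (leg l') := by
  have hL : ∀ (Q : (leg l').toAffine.Point) (x y : (leg l).toAffine.Point),
      x ∈ AddSubgroup.closure S → y ∈ AddSubgroup.closure S →
      (2 : ℕ) • sym (x + y) Q - (2 : ℕ) • sym x Q - (2 : ℕ) • sym y Q ∈ RatEq (leg l) (leg l') :=
    fun Q x y hx hy => bilin_left h0 h1 (leg l') (AddSubgroup.closure S) hS Q x y hx hy
  have hR : ∀ (P : (leg l).toAffine.Point) (x y : (leg l').toAffine.Point),
      x ∈ AddSubgroup.closure S' → y ∈ AddSubgroup.closure S' →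
      (2 : ℕ) • sym P (x + y) - (2 : ℕ) • sym P x - (2 : ℕ) • sym P y ∈ RatEq (leg l) (leg l') := by
    intro P x y hx hy
    have h := RatEq.swap (bilin_left h0' h1' (leg l) (AddSubgroup.closure S') hS' P x y hx hy)
    have e : ∀ z w v : Z0 (leg l') (leg l), Finsupp.mapDomain Prod.swap
        ((2 : ℕ) • z - (2 : ℕ) • w - (2 : ℕ) • v) =
        ((2 : ℕ) • Finsupp.mapDomain Prod.swap z - (2 : ℕ) • Finsupp.mapDomain Prod.swap w -
          (2 : ℕ) • Finsupp.mapDomain Prod.swap v : Z0 (leg l) (leg l')) := by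
      intro z w v
      simp only [← Finsupp.mapDomain.addMonoidHom_apply]
      rw [map_sub, map_sub, map_nsmul, map_nsmul, map_nsmul]
    rw [e, sym_swap, sym_swap, sym_swap] at h
    exact h
  have step1 : ∀ Q ∈ S', ∀ a ∈ AddSubgroup.closure S,
      (2 : ℕ) • sym a Q ∈ RatEq (leg l) (leg l') := by
    intro Q hQ a ha
    induction ha using AddSubgroup.closure_induction with
    | mem x hx => exact h x hx Q hQ
    | zero => rw [bilin_zero, smul_zero]; exact (RatEq (leg l) (leg l')).zero_mem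
    | add x y hx hy ihx ihy =>
      have := (RatEq (leg l) (leg l')).add_mem (hL Q x y hx hy)
        ((RatEq (leg l) (leg l')).add_mem ihx ihy)
      convert this using 1
      abel
    | neg x hx ihx =>
      have := (RatEq (leg l) (leg l')).add_mem (hL Q x (-x) hx (neg_mem hx)) ihx
      rw [add_neg_cancel, bilin_zero, smul_zero] at this
      have := (RatEq (leg l) (leg l')).neg_mem this
      convert this using 1
      abel
  induction hb using AddSubgroup.closure_induction with
  | mem x hx => exact step1 x hx a ha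
  | zero => rw [bilin_zero', smul_zero]; exact (RatEq (leg l) (leg l')).zero_mem
  | add x y hx hy ihx ihy =>
    have := (RatEq (leg l) (leg l')).add_mem (hR a x y hx hy)
      ((RatEq (leg l) (leg l')).add_mem ihx ihy)
    convert this using 1
    abel
  | neg x hx ihx =>
    have := (RatEq (leg l) (leg l')).add_mem (hR a x (-x) hx (neg_mem hx)) ihx
    rw [add_neg_cancel, bilin_zero', smul_zero] at this
    have := (RatEq (leg l) (leg l')).neg_mem this
    convert this using 1
    abel

end Pool.Agent.ZC
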