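import Pool.Agent.ZC.Bilin

/-!
# Bilinearity of the symbols, second part
-/

set_option autoImplicit false

noncomputable section

namespace Pool.Agent.ZC

open Polynomial WeierstrassCurve
open scoped Classical

private lemma bilin2_left {k : Type} [Field k] [CharZero k] {l : k} (h0 : l ≠ 0) (h1 : l ≠ 1)
    (W₂ : WeierstrassCurve k) (H : AddSubgroup (leg l).toAffine.Point)
    (hH : ∀ (n : ℤ), n ≠ 0 → ∀ x ∈ H, x ≠ 0 → n • x ≠ 0) (Q : W₂.toAffine.Point)
    (x y : (leg l).toAffine.Point) (hx : x ∈ H) (hy : y ∈ H) :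
    (2 : ℕ) • sym (x + y) Q - (2 : ℕ) • sym x Q - (2 : ℕ) • sym y Q ∈ RatEq (leg l) W₂ := by
  have key : ∀ Q : W₂.toAffine.Point,
      (2 : ℕ) • (Finsupp.single (x + y, Q) (1 : ℤ) - Finsupp.single ((0 : (leg l).toAffine.Point), Q) 1)
        - (2 : ℕ) • (Finsupp.single (x, Q) (1 : ℤ) - Finsupp.single ((0 : (leg l).toAffine.Point), Q) 1)
        - (2 : ℕ) • (Finsupp.single (y, Q) (1 : ℤ) - Finsupp.single ((0 : (leg l).toAffine.Point), Q) 1)
        ∈ RatEq (leg l) W₂ := by
    intro Q
    let π : Z0 (leg l) W₂ →+ CH0 (leg l) W₂ := QuotientAddGroup.mk' (RatEq (leg l) W₂)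
    have hπ : ∀ z, π z = 0 ↔ z ∈ RatEq (leg l) W₂ := fun z => QuotientAddGroup.eq_zero_iff z
    let c : H → CH0 (leg l) W₂ := fun P =>
      π (Finsupp.single ((P : (leg l).toAffine.Point), Q) (1 : ℤ) -
        Finsupp.single ((0 : (leg l).toAffine.Point), Q) 1)
    have hc0 : c 0 = 0 := by
      simp only [c, AddSubgroup.coe_zero, sub_self, map_zero]
    have hJ : ∀ P P' : H, P ≠ 0 → P ≠ P' → P ≠ -P' → c (P' + P) + c (P' - P) = 2 • c P' := by
      intro P P' hP hPP hPn
      have hr := rel_add h0 h1 W₂ (P : (leg l).toAffine.Point) (P' : (leg l).toAffine.Point)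
        (by
          intro h
          refine hH 2 two_ne_zero P P.2 (fun h => hP (Subtype.ext h)) ?_
          rw [two_zsmul]
          nth_rewrite 2 [h]
          exact add_neg_cancel _)
        (fun h => hPP (Subtype.ext h)) (fun h => hPn (Subtype.ext (by simpa using h))) Q
      rw [← hπ] at hr
      rw [← sub_eq_zero]
      simp only [c, AddSubgroup.coe_add, AddSubgroup.coe_sub]
      rw [← hr, ← map_nsmul, ← map_add, ← map_sub]
      congr 1
      have e2 : (Finsupp.single ((P' : (leg l).toAffine.Point), Q) (2 : ℤ) : Z0 (leg l) W₂) =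
          2 • Finsupp.single ((P' : (leg l).toAffine.Point), Q) (1 : ℤ) := by
        rw [Finsupp.smul_single]; rfl
      rw [e2]
      abel
    have htf : ∀ (n : ℤ) (x : H), n ≠ 0 → x ≠ 0 → n • x ≠ 0 := by
      intro n x hn hx h
      refine hH n hn x x.2 (fun h => hx (Subtype.ext h)) ?_
      have := congrArg (fun z : H => (z : (leg l).toAffine.Point)) h
      simpa using this
    have hj := jensen htf c hc0 hJ ⟨x, hx⟩ ⟨y, hy⟩
    rw [← hπ, map_sub, map_sub, map_nsmul, map_nsmul, map_nsmul]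
    rw [sub_sub, sub_eq_zero]
    exact hj
  have hQ := key Q
  have hZ := key 0
  have := (RatEq (leg l) W₂).sub_mem hQ hZ
  convert this using 1
  unfold sym
  abel

private lemma bilin2_zero {k : Type} [Field k] {W₁ W₂ : WeierstrassCurve k}
    (Q : W₂.toAffine.Point) : sym (0 : W₁.toAffine.Point) Q = 0 := by
  unfold sym
  abel

private lemma bilin2_zero' {k : Type} [Field k] {W₁ W₂ : WeierstrassCurve k}
    (P : W₁.toAffine.Point) : sym P (0 : W₂.toAffine.Point) = 0 := by
  unfold sym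
  abel


private lemma bilin2_swap {k : Type} [Field k] {W₁ W₂ : WeierstrassCurve k} (n : ℕ)
    {P : W₁.toAffine.Point} {Q : W₂.toAffine.Point} (h : n • sym P Q ∈ RatEq W₁ W₂) :
    n • sym Q P ∈ RatEq W₂ W₁ := by
  have h1 := RatEq.swap h
  have e : Finsupp.mapDomain Prod.swap (n • sym P Q) =
      (n • Finsupp.mapDomain Prod.swap (sym P Q) : Z0 W₂ W₁) := by
    simp only [← Finsupp.mapDomain.addMonoidHom_apply]
    rw [map_nsmul]
  rw [e, sym_swap] at h1
  exact h1

/-- additivity in the first variable on the multiples of a point of infinite order -/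
theorem sym_zsmul {k : Type} [Field k] [CharZero k] {l : k} (h0 : l ≠ 0) (h1 : l ≠ 1)
    (W₂ : WeierstrassCurve k) (X : (leg l).toAffine.Point) (hX : ∀ n : ℤ, n ≠ 0 → n • X ≠ 0)
    (Q : W₂.toAffine.Point) (n : ℤ) :
    (2 : ℤ) • sym (n • X) Q - (2 * n) • sym X Q ∈ RatEq (leg l) W₂ := by
  have htf : ∀ (m : ℤ), m ≠ 0 → ∀ x ∈ AddSubgroup.zmultiples X, x ≠ 0 → m • x ≠ 0 := by
    rintro m hm _ ⟨j, rfl⟩ hx
    have hj : j ≠ 0 := by
      rintro rfl
      apply hx
      simp
    show m • (j • X) ≠ 0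
    rw [smul_smul]
    exact hX _ (mul_ne_zero hm hj)
  have hL : ∀ (x y : (leg l).toAffine.Point), x ∈ AddSubgroup.zmultiples X →
      y ∈ AddSubgroup.zmultiples X →
      (2 : ℕ) • sym (x + y) Q - (2 : ℕ) • sym x Q - (2 : ℕ) • sym y Q ∈ RatEq (leg l) W₂ :=
    fun x y hx hy => bilin2_left h0 h1 W₂ (AddSubgroup.zmultiples X) htf Q x y hx hy
  have hm : ∀ j : ℤ, j • X ∈ AddSubgroup.zmultiples X := fun j => ⟨j, rfl⟩
  induction n using Int.induction_on with
  | zero => rw [zero_smul, bilin2_zero, smul_zero, mul_zero, zero_smul, sub_zero]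
            exact (RatEq (leg l) W₂).zero_mem
  | succ i ih =>
    have h2 := hL ((i : ℤ) • X) X (hm _) (AddSubgroup.mem_zmultiples X)
    have h3 := (RatEq (leg l) W₂).add_mem h2 ih
    have e1 : ((i : ℤ) + 1) • X = (i : ℤ) • X + X := by rw [add_smul, one_smul]
    rw [e1]
    convert h3 using 1
    rw [← natCast_zsmul, ← natCast_zsmul, ← natCast_zsmul]
    push_cast
    rw [mul_add, add_smul, mul_one]
    abel
  | pred i ih =>
    have h2 := hL ((-(i : ℤ) - 1) • X) X (hm _) (AddSubgroup.mem_zmultiples X)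
    have e1 : (-(i : ℤ) - 1) • X + X = (-(i : ℤ)) • X := by rw [sub_smul, one_smul]; abel
    rw [e1] at h2
    have h3 := (RatEq (leg l) W₂).sub_mem ih h2
    have e2 : (2 * (-(i : ℤ) - 1)) • sym X Q = (2 * -(i : ℤ)) • sym X Q - (2 : ℤ) • sym X Q := by
      rw [mul_sub, sub_smul, mul_one]
    rw [e2]
    convert h3 using 1
    rw [← natCast_zsmul, ← natCast_zsmul, ← natCast_zsmul]
    push_cast
    abel

theorem bilin2 {k : Type} [Field k] [CharZero k] {l l' : k} (h0 : l ≠ 0) (h1 : l ≠ 1)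
    (h0' : l' ≠ 0) (h1' : l' ≠ 1) (m : ℕ) (S : Set (leg l).toAffine.Point)
    (S' : Set (leg l').toAffine.Point)
    (hS : ∀ (n : ℤ), n ≠ 0 → ∀ x ∈ AddSubgroup.closure S, x ≠ 0 → n • x ≠ 0)
    (hS' : ∀ (n : ℤ), n ≠ 0 → ∀ x ∈ AddSubgroup.closure S', x ≠ 0 → n • x ≠ 0)
    (h : ∀ P ∈ S, ∀ Q ∈ S', m • sym P Q ∈ RatEq (leg l) (leg l'))
    (a : (leg l).toAffine.Point) (ha : a ∈ AddSubgroup.closure S)
    (b : (leg l').toAffine.Point) (hb : b ∈ AddSubgroup.closure S') :
    (m * 2) • sym a b ∈ RatEq (leg l) (leg l') := by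
  have hL : ∀ (Q : (leg l').toAffine.Point) (x y : (leg l).toAffine.Point),
      x ∈ AddSubgroup.closure S → y ∈ AddSubgroup.closure S →
      (m * 2) • sym (x + y) Q - (m * 2) • sym x Q - (m * 2) • sym y Q ∈
        RatEq (leg l) (leg l') := by
    intro Q x y hx hy
    have := bilin2_left h0 h1 (leg l') (AddSubgroup.closure S) hS Q x y hx hy
    have := (RatEq (leg l) (leg l')).nsmul_mem this m
    rwa [smul_sub, smul_sub, smul_smul, smul_smul, smul_smul] at this
  have hR : ∀ (P : (leg l).toAffine.Point) (x y : (leg l').toAffine.Point),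
      x ∈ AddSubgroup.closure S' → y ∈ AddSubgroup.closure S' →
      (m * 2) • sym P (x + y) - (m * 2) • sym P x - (m * 2) • sym P y ∈
        RatEq (leg l) (leg l') := by
    intro P x y hx hy
    have h := RatEq.swap (bilin2_left h0' h1' (leg l) (AddSubgroup.closure S') hS' P x y hx hy)
    have e : ∀ z w v : Z0 (leg l') (leg l), Finsupp.mapDomain Prod.swap
        ((2 : ℕ) • z - (2 : ℕ) • w - (2 : ℕ) • v) =
        ((2 : ℕ) • Finsupp.mapDomain Prod.swap z - (2 : ℕ) • Finsupp.mapDomain Prod.swap w -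
          (2 : ℕ) • Finsupp.mapDomain Prod.swap v : Z0 (leg l) (leg l')) := by
      intro z w v
      simp only [← Finsupp.mapDomain.addMonoidHom_apply]
      rw [map_sub, map_sub, map_nsmul, map_nsmul, map_nsmul]
    rw [e, sym_swap, sym_swap, sym_swap] at h
    have := (RatEq (leg l) (leg l')).nsmul_mem h m
    rwa [smul_sub, smul_sub, smul_smul, smul_smul, smul_smul] at this
  have step1 : ∀ Q ∈ S', ∀ a ∈ AddSubgroup.closure S,
      (m * 2) • sym a Q ∈ RatEq (leg l) (leg l') := by
    intro Q hQ a ha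
    induction ha using AddSubgroup.closure_induction with
    | mem x hx =>
      have := (RatEq (leg l) (leg l')).nsmul_mem (h x hx Q hQ) 2
      rwa [smul_smul, mul_comm] at this
    | zero => rw [bilin2_zero, smul_zero]; exact (RatEq (leg l) (leg l')).zero_mem
    | add x y hx hy ihx ihy =>
      have := (RatEq (leg l) (leg l')).add_mem (hL Q x y hx hy)
        ((RatEq (leg l) (leg l')).add_mem ihx ihy)
      convert this using 1
      abel
    | neg x hx ihx =>
      have := (RatEq (leg l) (leg l')).add_mem (hL Q x (-x) hx (neg_mem hx)) ihx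
      rw [add_neg_cancel, bilin2_zero, smul_zero] at this
      have := (RatEq (leg l) (leg l')).neg_mem this
      convert this using 1
      abel
  induction hb using AddSubgroup.closure_induction with
  | mem x hx => exact step1 x hx a ha
  | zero => rw [bilin2_zero', smul_zero]; exact (RatEq (leg l) (leg l')).zero_mem
  | add x y hx hy ihx ihy =>
    have := (RatEq (leg l) (leg l')).add_mem (hR a x y hx hy)
      ((RatEq (leg l) (leg l')).add_mem ihx ihy)
    convert this using 1
    abel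
  | neg x hx ihx =>
    have := (RatEq (leg l) (leg l')).add_mem (hR a x (-x) hx (neg_mem hx)) ihx
    rw [add_neg_cancel, bilin2_zero', smul_zero] at this
    have := (RatEq (leg l) (leg l')).neg_mem this
    convert this using 1
    abel

theorem sym_swap_mem {k : Type} [Field k] {W₁ W₂ : WeierstrassCurve k} (n : ℕ)
    {P : W₁.toAffine.Point} {Q : W₂.toAffine.Point} (h : n • sym P Q ∈ RatEq W₁ W₂) :
    n • sym Q P ∈ RatEq W₂ W₁ := bilin2_swap n h

end Pool.Agent.ZC
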