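import Pool.Agent.ZC.Defs2

/-!
# The descending Landen transformation
-/

set_option autoImplicit false

noncomputable section

namespace Pool.Agent.ZC

open Polynomial WeierstrassCurve
open scoped Classical

lemma chain_step (c : AlgebraicClosure ℚ →+* ℂ) (l : AlgebraicClosure ℚ) (h0 : l ≠ 0)
    (h1 : l ≠ 1) : ∃ m : AlgebraicClosure ℚ, StepData (m ^ 2) l m ∧ ‖c m‖ ≤ 1 := by
  have key : ∀ s : AlgebraicClosure ℚ, s ^ 2 = 1 - l → ‖c (1 - s)‖ ≤ ‖c (1 + s)‖ →
      ∃ m : AlgebraicClosure ℚ, StepData (m ^ 2) l m ∧ ‖c m‖ ≤ 1 := by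
    intro s hs hn
    have hp : 1 + s ≠ 0 := by
      intro h
      apply h0
      linear_combination hs - (s - 1) * h
    have hm : 1 - s ≠ 0 := by
      intro h
      apply h0
      linear_combination hs + (s + 1) * h
    have hs0 : s ≠ 0 := by
      rintro rfl
      apply h1
      linear_combination hs
    have hl : l = 1 - s ^ 2 := by linear_combination hs
    refine ⟨(1 - s) / (1 + s), ⟨rfl, ?_, div_ne_zero hm hp, ?_, ?_⟩, ?_⟩
    · rw [hl]; field_simp; ring
    · have : 1 + (1 - s) / (1 + s) = 2 / (1 + s) := by field_simp; ring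
      rw [this]
      exact div_ne_zero two_ne_zero hp
    · have : 1 - (1 - s) / (1 + s) = 2 * s / (1 + s) := by field_simp; ring
      rw [this]
      exact div_ne_zero (mul_ne_zero two_ne_zero hs0) hp
    · rw [map_div₀, norm_div]
      apply div_le_one_of_le₀ hn (norm_nonneg _)
  obtain ⟨s, hs⟩ := IsAlgClosed.exists_pow_nat_eq (1 - l) (n := 2) (by norm_num)
  rcases le_total ‖c (1 - s)‖ ‖c (1 + s)‖ with h | h
  · exact key s hs h
  · refine key (-s) (by rw [neg_sq, hs]) ?_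
    rw [sub_neg_eq_add, ← sub_eq_add_neg]
    exact h

lemma chain_lt (c : AlgebraicClosure ℚ →+* ℂ) (l m : AlgebraicClosure ℚ)
    (h : StepData (m ^ 2) l m) (hm : ‖c m‖ ≤ 1) (hl : ‖c l‖ ≤ 1) :
    ‖c m‖ < 1 ∧ ‖c (m ^ 2)‖ < ‖c l‖ := by
  have e : ‖c l‖ * ‖1 + c m‖ ^ 2 = 4 * ‖c m‖ := by
    have h4 : ‖c 4‖ = 4 := by
      rw [map_ofNat]; simp
    have := congrArg (fun z => ‖c z‖) h.eq
    simp only [map_mul, map_pow, map_add, map_one, norm_mul, norm_pow] at this
    rw [this, h4]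
  have hm0 : 0 < ‖c m‖ := by
    rw [norm_pos_iff]
    exact (map_ne_zero c).mpr h.m0
  have htri : ‖1 + c m‖ ≤ 1 + ‖c m‖ := by
    have := norm_add_le 1 (c m)
    rwa [norm_one] at this
  have hlt : ‖c m‖ < 1 := by
    rcases lt_or_eq_of_le hm with h' | h'
    · exact h'
    · exfalso
      rw [h'] at e
      have h2 : 4 ≤ ‖1 + c m‖ ^ 2 := by
        have := sq_nonneg ‖1 + c m‖
        nlinarith [norm_nonneg (c l)]
      have h3 : ‖1 + c m‖ ^ 2 = 1 + 2 * (c m).re + ‖c m‖ ^ 2 := by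
        rw [← Complex.normSq_eq_norm_sq, ← Complex.normSq_eq_norm_sq, Complex.normSq_apply,
          Complex.normSq_apply]
        simp
        ring
      rw [h3, h'] at h2
      have hre : 1 ≤ (c m).re := by linarith
      have h4 : (c m).re ^ 2 + (c m).im ^ 2 = 1 := by
        have : ‖c m‖ ^ 2 = 1 := by rw [h']; norm_num
        rw [← Complex.normSq_eq_norm_sq, Complex.normSq_apply] at this
        linarith [this]
      have h5 : (c m).re = 1 := by nlinarith [sq_nonneg (c m).im]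
      have h6 : (c m).im = 0 := by
        rw [h5] at h4
        have : (c m).im ^ 2 = 0 := by linarith
        exact pow_eq_zero_iff (by norm_num) |>.mp this
      apply h.mm
      apply (map_eq_zero c).mp
      rw [map_sub, map_one]
      apply Complex.ext
      · simp [h5]
      · simp [h6]
  refine ⟨hlt, ?_⟩
  rw [map_pow, norm_pow]
  have h7 : ‖1 + c m‖ < 2 := by linarith
  have h8 : ‖1 + c m‖ ^ 2 < 4 := by nlinarith [norm_nonneg (1 + c m)]
  have h9 : 0 ≤ ‖c l‖ := norm_nonneg _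
  by_contra hcon
  push Not at hcon
  have h10 : ‖c l‖ * ‖1 + c m‖ ^ 2 ≤ ‖c m‖ ^ 2 * ‖1 + c m‖ ^ 2 :=
    mul_le_mul_of_nonneg_right hcon (sq_nonneg _)
  rw [e] at h10
  have h11 : ‖c m‖ ^ 2 * ‖1 + c m‖ ^ 2 < ‖c m‖ ^ 2 * 4 :=
    mul_lt_mul_of_pos_left h8 (by positivity)
  nlinarith

theorem exists_chain (l : AlgebraicClosure ℚ) (h0 : l ≠ 0) (h1 : l ≠ 1) :
    ∃ L m : ℕ → AlgebraicClosure ℚ, L 0 = l ∧ (∀ n, StepData (L (n + 1)) (L n) (m n)) ∧
      Function.Injective (fun n => L (n + 1)) := by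
  have hc : Nonempty (AlgebraicClosure ℚ →ₐ[ℚ] ℂ) := by
    have h1 : Algebra.IsAlgebraic ℚ (AlgebraicClosure ℚ) := AlgebraicClosure.isAlgebraic ℚ
    exact ⟨IsAlgClosed.lift⟩
  obtain ⟨c'⟩ := hc
  set c : AlgebraicClosure ℚ →+* ℂ := c'.toRingHom with hcdef
  choose f hf using fun z : {l : AlgebraicClosure ℚ // l ≠ 0 ∧ l ≠ 1} =>
    chain_step c z.1 z.2.1 z.2.2
  have hf0 : ∀ z, (f z) ^ 2 ≠ 0 := fun z => pow_ne_zero 2 (hf z).1.m0
  have hf1 : ∀ z, (f z) ^ 2 ≠ 1 := by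
    intro z h
    have : (1 + f z) * (1 - f z) = 0 := by linear_combination -h
    rcases mul_eq_zero.mp this with h | h
    · exact (hf z).1.mp h
    · exact (hf z).1.mm h
  set A : ℕ → {l : AlgebraicClosure ℚ // l ≠ 0 ∧ l ≠ 1} := fun n =>
    Nat.rec ⟨l, h0, h1⟩ (fun _ z => ⟨(f z) ^ 2, hf0 z, hf1 z⟩) n with hA
  have hA0 : A 0 = ⟨l, h0, h1⟩ := rfl
  have hAs : ∀ n, A (n + 1) = ⟨(f (A n)) ^ 2, hf0 _, hf1 _⟩ := fun n => rfl
  refine ⟨fun n => (A n).1, fun n => f (A n), rfl, fun n => ?_, ?_⟩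
  · exact (hf (A n)).1
  · have hle : ∀ n, ‖c (A (n + 1)).1‖ ≤ 1 := by
      intro n
      rw [hAs]
      simp only [map_pow, norm_pow]
      exact pow_le_one₀ (norm_nonneg _) (hf (A n)).2
    have hanti : StrictAnti fun n => ‖c (A (n + 1)).1‖ := by
      apply strictAnti_nat_of_succ_lt
      intro n
      have := (chain_lt c (A (n + 1)).1 (f (A (n + 1))) (hf (A (n + 1))).1 (hf (A (n + 1))).2
        (hle n)).2
      exact this
    intro a b hab
    apply hanti.injective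
    simp only at hab ⊢
    rw [hab]

end Pool.Agent.ZC
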