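import Mathlib

/-!
# Zero-cycles on a product of two elliptic curves

Rational equivalence of zero-cycles on `W₁ × W₂` over a field `k`, where `W₁` and `W₂` are
Weierstrass curves, in terms of function fields of curves and their places. (All residue fields are
`k` if `k` is algebraically closed, so that closed points are `k`-rational points.)
-/

set_option autoImplicit false

noncomputable section

namespace Pool.Agent.ZC

open Polynomial WeierstrassCurve
open scoped Classical

section Curves

variable (k : Type) {F : Type} [Field k] [Field F] [Algebra k F]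

/-- `F` is a finitely generated field extension of `k` of transcendence degree one, i.e. the
function field of an integral curve over `k`: `F` is finite over `k(t)` for some transcendental
`t`. -/
def IsCurve (k F : Type) [Field k] [Field F] [Algebra k F] : Prop :=
  ∃ t : F, Transcendental k t ∧ FiniteDimensional (IntermediateField.adjoin k {t}) F

/-- The places of `F` over `k`: the valuation rings of `F` which contain `k` and are not equal
to `F`. They are the closed points of the smooth projective curve with function field `F`. -/
def IsPlace (O : ValuationSubring F) : Prop :=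
  (∀ a : k, algebraMap k F a ∈ O) ∧ O ≠ ⊤

/-- `n` is the order of `g` at `O`: `g` is a unit times `π ^ n`, where `π` is a generator of the
maximal ideal. -/
def HasOrd (O : ValuationSubring F) (g : F) (n : ℤ) : Prop :=
  ∃ π : F, π ≠ 0 ∧ O.valuation π < 1 ∧
    (∀ z : F, O.valuation z < 1 → O.valuation z ≤ O.valuation π) ∧
    O.valuation g = O.valuation π ^ n

variable {k}

/-- The value at `O` of an `F`-valued point of the projective curve `W` over `k` is a given
`k`-rational point. (Points of the Weierstrass curve are the point at infinity `0` and the affine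
points.) -/
inductive SpecAt (O : ValuationSubring F) (W : WeierstrassCurve k) :
    (W⁄F).toAffine.Point → W.toAffine.Point → Prop
  | zero : SpecAt O W 0 0
  | pole {x y : F} (h : (W⁄F).toAffine.Nonsingular x y) (hx : x ∉ O) :
      SpecAt O W (.some x y h) 0
  | finite {x y : F} {a b : k} (h : (W⁄F).toAffine.Nonsingular x y)
      (h' : W.toAffine.Nonsingular a b) (hx : O.valuation (x - algebraMap k F a) < 1)
      (hy : O.valuation (y - algebraMap k F b) < 1) :
      SpecAt O W (.some x y h) (.some a b h')

end Curves

section Cycles

variable {k : Type} [Field k] (W₁ W₂ : WeierstrassCurve k)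

/-- Zero-cycles on `W₁ × W₂` supported on `k`-rational points. -/
abbrev Z0 : Type := (W₁.toAffine.Point × W₂.toAffine.Point) →₀ ℤ

/-- `z` is the divisor of a rational function `g` on a curve `C` with function field `F`, pushed
forward to `W₁ × W₂` by a morphism `C → W₁ × W₂`, i.e. by a pair of `F`-valued points. -/
def DivOf (z : Z0 W₁ W₂) : Prop :=
  ∃ (F : Type) (_ : Field F) (_ : Algebra k F) (P : (W₁⁄F).toAffine.Point)
    (Q : (W₂⁄F).toAffine.Point) (g : F) (S : Finset (ValuationSubring F))
    (n : ValuationSubring F → ℤ) (p : ValuationSubring F → W₁.toAffine.Point)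
    (q : ValuationSubring F → W₂.toAffine.Point),
    IsCurve k F ∧ g ≠ 0 ∧ (∀ O, IsPlace k O → O ∉ S → O.valuation g = 1) ∧
    (∀ O ∈ S, IsPlace k O ∧ HasOrd O g (n O) ∧ SpecAt O W₁ P (p O) ∧ SpecAt O W₂ Q (q O)) ∧
    z = ∑ O ∈ S, Finsupp.single (p O, q O) (n O)

/-- The zero-cycles which are rationally equivalent to zero. -/
def RatEq : AddSubgroup (Z0 W₁ W₂) := AddSubgroup.closure {z | DivOf W₁ W₂ z}

/-- The group of zero-cycles on `W₁ × W₂` modulo rational equivalence. -/
abbrev CH0 : Type := Z0 W₁ W₂ ⧸ RatEq W₁ W₂

variable {W₁ W₂}

/-- The zero-cycle `[(P, Q)] - [(P, 0)] - [(0, Q)] + [(0, 0)]`. -/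
def sym (P : W₁.toAffine.Point) (Q : W₂.toAffine.Point) : Z0 W₁ W₂ :=
  Finsupp.single (P, Q) 1 - Finsupp.single (P, 0) 1 - Finsupp.single (0, Q) 1 +
    Finsupp.single (0, 0) 1

end Cycles

/-- The Legendre curve `y² = x (x - 1) (x - l)`. -/
def leg {K : Type} [Field K] (l : K) : WeierstrassCurve K := ⟨0, -(1 + l), 0, l, 0⟩


end Pool.Agent.ZC
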