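import Pool.Agent.ZC.Defs

/-!
# Auxiliary definitions
-/

set_option autoImplicit false

noncomputable section

namespace Pool.Agent.ZC

open Polynomial WeierstrassCurve
open scoped Classical

/-- A map on `k`-rational points which comes from a morphism of curves. -/
def Lift {k : Type} [Field k] {W' W : WeierstrassCurve k}
    (G : W'.toAffine.Point → W.toAffine.Point) : Prop :=
  ∀ (F : Type) [Field F] [Algebra k F] (a : (W'⁄F).toAffine.Point),
    ∃ A : (W⁄F).toAffine.Point, ∀ O : ValuationSubring F, IsPlace k O →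
      ∀ p : W'.toAffine.Point, SpecAt O W' a p → SpecAt O W A (G p)

/-- `W` is the Legendre curve with parameter `l` (and smooth). -/
structure IsLeg {K : Type} [Field K] (W : WeierstrassCurve K) (l : K) : Prop where
  a₁ : W.a₁ = 0
  a₂ : W.a₂ = -(1 + l)
  a₃ : W.a₃ = 0
  a₄ : W.a₄ = l
  a₆ : W.a₆ = 0
  l0 : l ≠ 0
  l1 : l ≠ 1

/-- `l'` and `l` are the parameters of two Legendre curves with a `2`-isogeny
`(x, y) ↦ ((x + m)² / ((1 + m)² x), y (x² - m²) / ((1 + m)³ x²))` from the first to the second. -/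
structure StepData {K : Type} [Field K] (l' l m : K) : Prop where
  sq : l' = m ^ 2
  eq : l * (1 + m) ^ 2 = 4 * m
  m0 : m ≠ 0
  mp : 1 + m ≠ 0
  mm : 1 - m ≠ 0

/-- Data for a discrete valuation ring at a smooth point of an affine curve with coordinate ring
`R`: `e` is the evaluation at the point and `π` a uniformizer. -/
structure LocData {k R : Type} [Field k] [CommRing R] [Algebra k R] (e : R →ₐ[k] k) (π : R) :
    Prop where
  ne : π ≠ 0
  zero : e π = 0
  princ : ∀ f : R, e f = 0 → ∃ g h : R, e h ≠ 0 ∧ f * h = π * g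
  fin : ∀ f : R, f ≠ 0 → ∃ (m : ℕ) (f' g : R), e g ≠ 0 ∧ f * f' = π ^ m * g

end Pool.Agent.ZC
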