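import Mathlib

/-!
# Linear independence from signs
-/

set_option autoImplicit false

noncomputable section

namespace Pool.Agent.ZC

open scoped Classical

theorem linInd {V : Type} [AddCommGroup V] {r : ℕ} (P : Fin r → V)
    (hP : ∀ (a : Fin r) (N : ℤ), N ≠ 0 → N • P a ≠ 0)
    (h : ∀ a b : Fin r, a ≠ b → ∃ T : V →+ V, (∀ c, T (P c) = P c ∨ T (P c) = -P c) ∧
      ((T (P a) = P a ∧ T (P b) = -P b) ∨ (T (P a) = -P a ∧ T (P b) = P b))) :
    LinearIndependent ℤ P := by
  have hne : ∀ c, P c ≠ -P c := by
    intro c hc
    apply hP c 2 (by norm_num)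
    rw [two_smul]
    nth_rewrite 1 [hc]
    simp
  have key : ∀ n : ℕ, ∀ c : Fin r → ℤ, (Finset.univ.filter (fun i => c i ≠ 0)).card ≤ n →
      ∑ i, c i • P i = 0 → ∀ i, c i = 0 := by
    intro n
    induction n with
    | zero =>
      intro c hc _ i
      by_contra hi
      have : i ∈ Finset.univ.filter (fun i => c i ≠ 0) := by simp [hi]
      have := Finset.card_pos.mpr ⟨i, this⟩
      omega
    | succ n ih =>
      intro c hc hs a
      by_contra ha
      by_cases hb : ∃ b, b ≠ a ∧ c b ≠ 0
      · obtain ⟨b, hba, hb⟩ := hb
        obtain ⟨T, hT, hab⟩ := h a b (Ne.symm hba)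
        -- the new relation
        have hrel : ∑ i, (if T (P i) = P i then 2 * c i else 0) • P i = 0 := by
          have h1 : ∑ i, (if T (P i) = P i then 2 * c i else 0) • P i =
              T (∑ i, c i • P i) + ∑ i, c i • P i := by
            rw [map_sum, ← Finset.sum_add_distrib]
            apply Finset.sum_congr rfl
            intro i _
            rw [map_zsmul]
            rcases hT i with hi | hi
            · rw [hi, if_pos rfl, two_mul, add_smul]
            · rw [hi, if_neg (fun hh => hne i hh.symm)]
              simp
          rw [h1, hs]; simp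
        have hcard : ∀ j, c j ≠ 0 → T (P j) ≠ P j →
            (Finset.univ.filter
              (fun i => (if T (P i) = P i then 2 * c i else 0) ≠ 0)).card ≤ n := by
          intro j hj hTj
          have : (Finset.univ.filter
              (fun i => (if T (P i) = P i then 2 * c i else 0) ≠ 0)) ⊂
              (Finset.univ.filter (fun i => c i ≠ 0)) := by
            rw [Finset.ssubset_iff_of_subset]
            · refine ⟨j, by simp [hj], by simp [hTj]⟩
            · intro i hi
              simp only [Finset.mem_filter, Finset.mem_univ, true_and] at hi ⊢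
              intro hci
              apply hi
              rw [hci]; simp
          have := Finset.card_lt_card this
          omega
        rcases hab with ⟨h1, h2⟩ | ⟨h1, h2⟩
        · have := ih _ (hcard b hb (by rw [h2]; exact fun hh => hne b hh.symm)) hrel a
          rw [if_pos h1] at this
          omega
        · have := ih _ (hcard a ha (by rw [h1]; exact fun hh => hne a hh.symm)) hrel b
          rw [if_pos h2] at this
          omega
      · push Not at hb
        rw [Finset.sum_eq_single a] at hs
        · exact hP a _ ha hs
        · intro b _ hba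
          rw [hb b hba]; simp
        · simp
  rw [Fintype.linearIndependent_iff]
  intro g hg
  exact key _ g le_rfl hg

theorem tf_closure {V : Type} [AddCommGroup V] {r : ℕ} (P : Fin r → V)
    (hP : LinearIndependent ℤ P) (n : ℤ) (hn : n ≠ 0) (x : V)
    (hx : x ∈ AddSubgroup.closure (Set.range P)) (hx0 : x ≠ 0) : n • x ≠ 0 := by
  intro h
  have hx' : x ∈ Submodule.span ℤ (Set.range P) := by
    rw [← Submodule.mem_toAddSubgroup, Submodule.span_int_eq_addSubgroupClosure]
    exact hx
  obtain ⟨c, rfl⟩ := (Submodule.mem_span_range_iff_exists_fun ℤ).mp hx'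
  rw [Finset.smul_sum] at h
  simp only [smul_smul] at h
  have := Fintype.linearIndependent_iff.mp hP _ h
  apply hx0
  apply Finset.sum_eq_zero
  intro i _
  have h2 := this i
  rcases mul_eq_zero.mp h2 with h3 | h3
  · exact absurd h3 hn
  · rw [h3]; simp

end Pool.Agent.ZC
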