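import Mathlib

/-!
# Choice of a common abscissa
-/

set_option autoImplicit false

noncomputable section

namespace Pool.Agent.ZC

open scoped Classical NumberField

/-- a prime ideal which contains a prime number does not contain a smaller positive integer -/
lemma sel_small {R : Type} [CommRing R] (P : Ideal R) (hP : P.IsPrime) (p n : ℕ) (hp : p.Prime)
    (hpP : (p : R) ∈ P) (hn : n ≠ 0) (hnp : n < p) : (n : R) ∉ P := by
  intro h
  have hcop : IsCoprime (p : ℤ) (n : ℤ) := by
    rw [Nat.isCoprime_iff_coprime]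
    exact (Nat.Prime.coprime_iff_not_dvd hp).mpr
      (fun hd => absurd (Nat.le_of_dvd (Nat.pos_of_ne_zero hn) hd) (not_le.mpr hnp))
  obtain ⟨a, b, hab⟩ := hcop
  apply hP.ne_top
  rw [Ideal.eq_top_iff_one]
  have h1 : (a : R) * (p : R) + (b : R) * (n : R) = 1 := by
    have := congrArg (Int.cast : ℤ → R) hab
    push_cast at this
    exact this
  rw [← h1]
  exact P.add_mem (P.mul_mem_left _ hpP) (P.mul_mem_left _ h)

lemma sel_over (M : Type) [Field M] [NumberField M] (p : ℕ) (hp : p.Prime) :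
    ∃ P : Ideal (𝓞 M), P.IsPrime ∧ P ≠ ⊥ ∧ ((p : ℕ) : 𝓞 M) ∈ P := by
  have h1 : Ideal.span {((p : ℕ) : 𝓞 M)} ≠ ⊤ := by
    rw [Ne, ← Ideal.absNorm_eq_one_iff, Ideal.absNorm_span_natCast, NumberField.RingOfIntegers.rank]
    intro h
    rcases pow_eq_one_iff.mp h with h | h
    · exact hp.one_lt.ne' h
    · exact (Module.finrank_pos (R := ℚ) (M := M)).ne' h
  obtain ⟨P, hP, hle⟩ := Ideal.exists_le_maximal _ h1
  have hmem : ((p : ℕ) : 𝓞 M) ∈ P := hle (Ideal.mem_span_singleton_self _)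
  refine ⟨P, hP.isPrime, ?_, hmem⟩
  rintro rfl
  rw [Ideal.mem_bot] at hmem
  exact hp.ne_zero (by exact_mod_cast hmem)

lemma sel (M : Type) [Field M] [NumberField M] (Q : Ideal (𝓞 M)) (hQ : Q.IsPrime) (hQ0 : Q ≠ ⊥)
    (T : Finset (𝓞 M)) : ∃ w : 𝓞 M, w ∉ Q ∧ ∀ a ∈ T, ∀ b ∈ T, a ≠ b → ∀ y : 𝓞 M,
      y ^ 2 ≠ (w - a) * (w - b) := by
  set z : 𝓞 M := ∏ p ∈ (T ×ˢ T).filter (fun p => p.1 ≠ p.2), (p.1 - p.2) with hz
  have hz0 : z ≠ 0 := by
    rw [hz, Finset.prod_ne_zero_iff]
    rintro ⟨a, b⟩ h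
    rw [Finset.mem_filter] at h
    exact sub_ne_zero.mpr h.2
  have hzdvd : ∀ a ∈ T, ∀ b ∈ T, a ≠ b → (a - b) ∣ z := by
    intro a ha b hb hab
    exact Finset.dvd_prod_of_mem (fun p : 𝓞 M × 𝓞 M => p.1 - p.2) (a := (a, b))
      (by rw [Finset.mem_filter, Finset.mem_product]; exact ⟨⟨ha, hb⟩, hab⟩)
  -- primes
  set B : ℕ := (Ideal.span {z}).absNorm + Q.absNorm with hB
  have hinf : {p : ℕ | p.Prime ∧ B < p}.Infinite := by
    intro hfin
    obtain ⟨N, hN⟩ := hfin.bddAbove
    obtain ⟨p, hp1, hp2⟩ := Nat.exists_infinite_primes (max N B + 1)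
    have := hN ⟨hp2, by omega⟩
    omega
  obtain ⟨f, hf⟩ : ∃ f : 𝓞 M → ℕ, Set.InjOn f T ∧ ∀ a ∈ T, (f a).Prime ∧ B < f a := by
    obtain ⟨t, ht, htc⟩ := hinf.exists_subset_card_eq T.card
    have e : T ≃ t := Fintype.equivOfCardEq (by simp [htc])
    refine ⟨fun a => if h : a ∈ T then (e ⟨a, h⟩ : ℕ) else 0, ?_, ?_⟩
    · intro a ha b hb hab
      rw [Finset.mem_coe] at ha hb
      simp only [dif_pos ha, dif_pos hb] at hab
      have := e.injective (Subtype.ext hab)
      exact congrArg Subtype.val this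
    · intro a ha
      simp only [dif_pos ha]
      exact ht (e ⟨a, ha⟩).2
  choose P hPprime hP0 hPmem using fun p : Nat.Primes => sel_over M p.1 p.2
  set P' : 𝓞 M → Ideal (𝓞 M) := fun a => if h : a ∈ T then P ⟨f a, (hf.2 a h).1⟩ else ⊥ with hP'
  have hP'eq : ∀ a (h : a ∈ T), P' a = P ⟨f a, (hf.2 a h).1⟩ := fun a h => by
    simp only [hP', dif_pos h]
  have hprime : ∀ a ∈ T, (P' a).IsPrime := fun a h => by rw [hP'eq a h]; exact hPprime _
  have hne : ∀ a ∈ T, P' a ≠ ⊥ := fun a h => by rw [hP'eq a h]; exact hP0 _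
  have hfmem : ∀ a ∈ T, ((f a : ℕ) : 𝓞 M) ∈ P' a := fun a h => by
    rw [hP'eq a h]; exact hPmem ⟨f a, (hf.2 a h).1⟩
  have hzmem : ∀ a ∈ T, z ∉ P' a := by
    intro a ha hza
    refine sel_small (P' a) (hprime a ha) (f a) (Ideal.span {z}).absNorm (hf.2 a ha).1
      (hfmem a ha) ?_ ?_ ?_
    · rw [Ne, Ideal.absNorm_eq_zero_iff, Ideal.span_singleton_eq_bot]
      exact hz0
    · have := (hf.2 a ha).2
      omega
    · exact (Ideal.span_singleton_le_iff_mem _).mpr hza (Ideal.absNorm_mem _)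
  have hPQ : ∀ a ∈ T, P' a ≠ Q := by
    intro a ha h
    refine sel_small (P' a) (hprime a ha) (f a) Q.absNorm (hf.2 a ha).1
      (hfmem a ha) ?_ ?_ ?_
    · rw [Ne, Ideal.absNorm_eq_zero_iff]
      exact hQ0
    · have := (hf.2 a ha).2
      omega
    · rw [h]; exact Ideal.absNorm_mem _
  have hPP : ∀ a ∈ T, ∀ b ∈ T, a ≠ b → P' a ≠ P' b := by
    intro a ha b hb hab h
    have hfab : f a ≠ f b := fun h' => hab (hf.1 ha hb h')
    rcases lt_or_gt_of_ne hfab with hlt | hlt
    · exact sel_small (P' b) (hprime b hb) (f b) (f a) (hf.2 b hb).1 (hfmem b hb)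
        (hf.2 a ha).1.ne_zero hlt (h ▸ hfmem a ha)
    · exact sel_small (P' a) (hprime a ha) (f a) (f b) (hf.2 a ha).1 (hfmem a ha)
        (hf.2 b hb).1.ne_zero hlt (h ▸ hfmem b hb)
  -- uniformizers
  have hπ : ∀ a ∈ T, ∃ π : 𝓞 M, π ∈ P' a ∧ π ∉ P' a ^ 2 := by
    intro a ha
    have h1 : P' a ^ 2 < P' a := by
      have := hprime a ha
      simpa using Ideal.pow_right_strictAnti (P' a) (hne a ha) (hprime a ha).ne_top
        (show 1 < 2 by norm_num)
    obtain ⟨π, h2, h3⟩ := SetLike.exists_of_lt h1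
    exact ⟨π, h2, h3⟩
  choose! π hπ1 hπ2 using hπ
  -- Chinese remainder theorem
  obtain ⟨w, hw⟩ := IsDedekindDomain.exists_forall_sub_mem_ideal (R := 𝓞 M)
    (ι := Option (𝓞 M)) (s := insert none (T.map Function.Embedding.some))
    (fun o => o.elim Q P') (fun o => o.elim 1 (fun _ => 2)) (by
      intro o ho
      rw [Finset.mem_insert] at ho
      rcases ho with rfl | ho
      · exact Ideal.prime_of_isPrime hQ0 hQ
      · rw [Finset.mem_map] at ho
        obtain ⟨a, ha, rfl⟩ := ho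
        exact Ideal.prime_of_isPrime (hne a ha) (hprime a ha)) (by
      intro o ho o' ho' hoo'
      rw [Finset.mem_insert] at ho ho'
      rcases ho with rfl | ho
      · rcases ho' with rfl | ho'
        · exact absurd rfl hoo'
        · rw [Finset.mem_map] at ho'
          obtain ⟨a, ha, rfl⟩ := ho'
          exact (hPQ a ha).symm
      · rw [Finset.mem_map] at ho
        obtain ⟨a, ha, rfl⟩ := ho
        rcases ho' with rfl | ho'
        · exact hPQ a ha
        · rw [Finset.mem_map] at ho'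
          obtain ⟨b, hb, rfl⟩ := ho'
          exact hPP a ha b hb (fun h => hoo' (by rw [h])))
    (fun o => o.1.elim 1 (fun a => a + π a))
  have hwQ := hw none (Finset.mem_insert_self _ _)
  have hwT : ∀ a ∈ T, w - (a + π a) ∈ P' a ^ 2 := fun a ha =>
    hw (some a) (Finset.mem_insert_of_mem (Finset.mem_map_of_mem _ ha))
  simp only [Option.elim_none, pow_one] at hwQ
  refine ⟨w, ?_, ?_⟩
  · intro h
    apply hQ.ne_top
    rw [Ideal.eq_top_iff_one]
    have : (1 : 𝓞 M) = w - (w - 1) := by ring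
    rw [this]
    exact Q.sub_mem h hwQ
  · intro a ha b hb hab y hy
    have hpa := hprime a ha
    have h1 : w - a ∈ P' a := by
      have : w - a = (w - (a + π a)) + π a := by ring
      rw [this]
      exact (P' a).add_mem (Ideal.pow_le_self (by norm_num) (hwT a ha)) (hπ1 a ha)
    have h2 : w - a ∉ P' a ^ 2 := by
      intro h
      apply hπ2 a ha
      have : π a = (w - a) - (w - (a + π a)) := by ring
      rw [this]
      exact (P' a ^ 2).sub_mem h (hwT a ha)
    have h3 : w - b ∉ P' a := by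
      intro h
      apply hzmem a ha
      have h4 : a - b ∈ P' a := by
        have : a - b = (w - b) - (w - a) := by ring
        rw [this]
        exact (P' a).sub_mem h h1
      obtain ⟨c, hc⟩ := hzdvd a ha b hb hab
      rw [hc]
      exact (P' a).mul_mem_right _ h4
    have h5 : y ∈ P' a := by
      have : y ^ 2 ∈ P' a := by rw [hy]; exact (P' a).mul_mem_right _ h1
      exact hpa.mem_of_pow_mem 2 this
    have h6 : (w - a) * (w - b) ∈ P' a ^ 2 := by
      rw [← hy]
      exact Ideal.pow_mem_pow h5 2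
    exact h3 (Ideal.mem_prime_of_mul_mem_pow (hne a ha) (i := 1) h2 h6)

lemma sel_alg : Algebra.IsAlgebraic ℚ (AlgebraicClosure ℚ) := AlgebraicClosure.isAlgebraic ℚ

lemma sel_gal : IsGalois ℚ (AlgebraicClosure ℚ) := by
  have h : IsAlgClosure ℚ (AlgebraicClosure ℚ) := ⟨inferInstance, sel_alg⟩
  exact IsAlgClosure.isGalois ℚ (AlgebraicClosure ℚ)

lemma sel_int (x : PadicAlgCl 2) (hx : IsIntegral ℤ x) : ‖x‖ ≤ 1 := by
  have h := (Valuation.integer.integers (Valued.v : Valuation (PadicAlgCl 2) NNReal)).mem_of_integral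
    (x := x) hx.tower_top
  have h2 : (Valued.v x : NNReal) ≤ 1 := h
  rw [← PadicAlgCl.valuation_coe]
  exact_mod_cast h2

lemma sel_two : ‖(2 : PadicAlgCl 2)‖ = 1 / 2 := by
  have h := PadicAlgCl.valuation_p 2
  rw [← PadicAlgCl.valuation_coe]
  have h2 : (Valued.v (2 : PadicAlgCl 2) : NNReal) = 1 / 2 := by exact_mod_cast h
  rw [h2]; norm_num

lemma sel_den (T : Finset (AlgebraicClosure ℚ)) : ∃ D : ℕ, D ≠ 0 ∧ ∀ s ∈ T,
    IsIntegral ℤ ((D : AlgebraicClosure ℚ) * s) := by
  induction T using Finset.induction_on with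
  | empty => exact ⟨1, one_ne_zero, fun s hs => absurd hs (Finset.notMem_empty s)⟩
  | insert x T _ ih =>
    obtain ⟨D, hD0, hD⟩ := ih
    have halg := sel_alg
    have hx : IsAlgebraic ℤ x := (IsFractionRing.isAlgebraic_iff ℤ ℚ (AlgebraicClosure ℚ)).mpr
      (halg.isAlgebraic x)
    obtain ⟨y, hy0, hy⟩ := hx.exists_integral_multiple
    have hy' : IsIntegral ℤ ((y.natAbs : AlgebraicClosure ℚ) * x) := by
      rcases Int.natAbs_eq y with h | h
      · have : (y.natAbs : AlgebraicClosure ℚ) * x = y • x := by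
          rw [h, zsmul_eq_mul]; push_cast; simp
        rw [this]; exact hy
      · have : (y.natAbs : AlgebraicClosure ℚ) * x = -(y • x) := by
          rw [h, zsmul_eq_mul]; push_cast; simp
        rw [this]; exact hy.neg
    refine ⟨D * y.natAbs, mul_ne_zero hD0 (Int.natAbs_ne_zero.mpr hy0), ?_⟩
    intro s hs
    have hint : ∀ n : ℕ, IsIntegral ℤ (n : AlgebraicClosure ℚ) := fun n => by
      have := isIntegral_algebraMap (R := ℤ) (A := AlgebraicClosure ℚ) (x := (n : ℤ))
      simpa using this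
    rcases Finset.mem_insert.mp hs with rfl | hs
    · have : ((D * y.natAbs : ℕ) : AlgebraicClosure ℚ) * s = (D : AlgebraicClosure ℚ) *
          ((y.natAbs : AlgebraicClosure ℚ) * s) := by push_cast; ring
      rw [this]
      exact (hint D).mul hy'
    · have : ((D * y.natAbs : ℕ) : AlgebraicClosure ℚ) * s = (y.natAbs : AlgebraicClosure ℚ) *
          ((D : AlgebraicClosure ℚ) * s) := by push_cast; ring
      rw [this]
      exact (hint _).mul (hD s hs)

theorem exists_u (ι : AlgebraicClosure ℚ →+* PadicAlgCl 2) (S : Finset (AlgebraicClosure ℚ))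
    (C : ℝ) :
    ∃ u : AlgebraicClosure ℚ, C < ‖ι u‖ ∧
      ∀ a ∈ S, ∀ b ∈ S, a ≠ b → ∀ y : AlgebraicClosure ℚ, y ^ 2 = (u - a) * (u - b) →
        ∃ σ : AlgebraicClosure ℚ ≃ₐ[ℚ] AlgebraicClosure ℚ,
          (∀ s ∈ S, σ s = s) ∧ σ u = u ∧ σ y = -y := by
  have halg := sel_alg
  have hgal := sel_gal
  set M : IntermediateField ℚ (AlgebraicClosure ℚ) :=
    IntermediateField.adjoin ℚ (S : Set (AlgebraicClosure ℚ)) with hM
  have hfin : FiniteDimensional ℚ M :=
    IntermediateField.finiteDimensional_adjoin fun x _ => (halg.isAlgebraic x).isIntegral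
  have hnf : NumberField M := { to_charZero := inferInstance, to_finiteDimensional := hfin }
  have hSM : ∀ s ∈ S, s ∈ M := fun s hs => IntermediateField.subset_adjoin ℚ _ hs
  -- the inclusion
  set c : 𝓞 M →+* AlgebraicClosure ℚ := (algebraMap M (AlgebraicClosure ℚ)).comp
    (algebraMap (𝓞 M) M) with hc
  have hcinj : Function.Injective c :=
    (algebraMap M (AlgebraicClosure ℚ)).injective.comp (FaithfulSMul.algebraMap_injective _ _)
  have hcM : ∀ x : 𝓞 M, c x ∈ M := fun x => (algebraMap (𝓞 M) M x).2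
  have hcof : ∀ x : AlgebraicClosure ℚ, x ∈ M → IsIntegral ℤ x → ∃ t : 𝓞 M, c t = x := by
    intro x hx hxi
    have h1 : IsIntegral ℤ (⟨x, hx⟩ : M) := by
      rw [← isIntegral_algebraMap_iff (algebraMap M (AlgebraicClosure ℚ)).injective]
      exact hxi
    exact ⟨⟨⟨x, hx⟩, h1⟩, rfl⟩
  -- the 2-adic prime
  have hint : ∀ x : 𝓞 M, ‖ι (c x)‖ ≤ 1 := by
    intro x
    apply sel_int
    exact (NumberField.RingOfIntegers.isIntegral x).map (ι.comp c).toIntAlgHom
  set Q : Ideal (𝓞 M) := 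
    { carrier := {x | ‖ι (c x)‖ < 1}
      add_mem' := by
        intro x y hx hy
        have hx' : ‖ι (c x)‖ < 1 := hx
        have hy' : ‖ι (c y)‖ < 1 := hy
        show ‖ι (c (x + y))‖ < 1
        rw [map_add, map_add]
        exact (PadicAlgCl.isNonarchimedean 2 _ _).trans_lt (max_lt hx' hy')
      zero_mem' := by simp
      smul_mem' := by
        intro e x hx
        have hx' : ‖ι (c x)‖ < 1 := hx
        show ‖ι (c (e • x))‖ < 1
        rw [smul_eq_mul, map_mul, map_mul, norm_mul]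
        nlinarith [hint e, norm_nonneg (ι (c e)), norm_nonneg (ι (c x))] } with hQ
  have hQmem : ∀ x, x ∈ Q ↔ ‖ι (c x)‖ < 1 := fun x => Iff.rfl
  have hQprime : Q.IsPrime := by
    refine ⟨?_, ?_⟩
    · rw [Ne, Ideal.eq_top_iff_one, hQmem, map_one, map_one, norm_one]
      exact lt_irrefl _
    · intro x y hxy
      rw [hQmem, map_mul, map_mul, norm_mul] at hxy
      rw [hQmem, hQmem]
      by_contra h
      push Not at h
      nlinarith [h.1, h.2]
  have hQ0 : Q ≠ ⊥ := by
    intro h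
    have h2 : (2 : 𝓞 M) ∈ Q := by
      rw [hQmem, map_ofNat, map_ofNat, sel_two]; norm_num
    rw [h, Ideal.mem_bot] at h2
    exact two_ne_zero h2
  -- a common denominator
  obtain ⟨D, hD0, hD⟩ := sel_den S
  obtain ⟨n, hn⟩ : ∃ n : ℕ, C < 2 ^ n := pow_unbounded_of_one_lt C (by norm_num)
  set d : ℕ := 2 ^ n * D with hd
  have hd0 : d ≠ 0 := by positivity
  have hdd : ∀ s ∈ S, ∃ t : 𝓞 M, c t = d * s := by
    intro s hs
    apply hcof
    · exact M.mul_mem (natCast_mem M d) (hSM s hs)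
    · have : (d : AlgebraicClosure ℚ) * s = 2 ^ n * ((D : AlgebraicClosure ℚ) * s) := by
        rw [hd]; push_cast; ring
      rw [this]
      refine IsIntegral.mul ?_ (hD s hs)
      have := isIntegral_algebraMap (R := ℤ) (A := AlgebraicClosure ℚ) (x := (2 ^ n : ℤ))
      simpa using this
  choose! t ht using hdd
  obtain ⟨w, hwQ, hw⟩ := sel M Q hQprime hQ0 (S.image t)
  have hdne : (d : AlgebraicClosure ℚ) ≠ 0 := by exact_mod_cast hd0
  refine ⟨c w / d, ?_, ?_⟩
  · have h1 : ‖ι (c w)‖ = 1 := by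
      rw [hQmem] at hwQ
      exact le_antisymm (hint w) (not_lt.mp hwQ)
    have h2 : ‖(D : PadicAlgCl 2)‖ ≤ 1 := by
      apply sel_int
      have := isIntegral_algebraMap (R := ℤ) (A := PadicAlgCl 2) (x := (D : ℤ))
      simpa using this
    have h2' : 0 < ‖(D : PadicAlgCl 2)‖ := by
      rw [norm_pos_iff]
      exact_mod_cast hD0
    have h3 : ‖ι (d : AlgebraicClosure ℚ)‖ = (1 / 2) ^ n * ‖(D : PadicAlgCl 2)‖ := by
      rw [map_natCast, hd]
      push_cast
      rw [norm_mul, norm_pow, sel_two]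
    rw [map_div₀, norm_div, h1, h3]
    refine hn.trans_le ?_
    rw [le_div_iff₀ (by positivity)]
    calc (2 : ℝ) ^ n * ((1 / 2) ^ n * ‖(D : PadicAlgCl 2)‖) = ‖(D : PadicAlgCl 2)‖ := by
          rw [← mul_assoc, ← mul_pow]; norm_num
      _ ≤ 1 := h2
  · intro a ha b hb hab y hy
    have h1 : (y * d) ^ 2 = c ((w - t a) * (w - t b)) := by
      rw [map_mul, map_sub, map_sub, ht a ha, ht b hb, mul_pow, hy]
      field_simp
    have hyM : y ∉ M := by
      intro hyM
      have h2 : IsIntegral ℤ (y * d) := by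
        refine IsIntegral.of_pow (n := 2) (by norm_num) ?_
        rw [h1]
        exact (NumberField.RingOfIntegers.isIntegral _).map c.toIntAlgHom
      obtain ⟨z, hz⟩ := hcof (y * d) (M.mul_mem hyM (natCast_mem M d)) h2
      refine hw (t a) (Finset.mem_image_of_mem _ ha) (t b) (Finset.mem_image_of_mem _ hb) ?_ z ?_
      · intro h
        have := congrArg c h
        rw [ht a ha, ht b hb] at this
        exact hab (mul_left_cancel₀ hdne this)
      · apply hcinj
        rw [map_pow, hz, h1]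
    have h3 : ∃ σ : AlgebraicClosure ℚ ≃ₐ[ℚ] AlgebraicClosure ℚ, σ ∈ M.fixingSubgroup ∧
        σ y ≠ y := by
      by_contra h
      push Not at h
      apply hyM
      rw [← InfiniteGalois.fixedField_fixingSubgroup M]
      rw [IntermediateField.mem_fixedField_iff]
      exact h
    obtain ⟨σ, hσ, hσy⟩ := h3
    rw [IntermediateField.mem_fixingSubgroup_iff] at hσ
    have huM : c w / d ∈ M := M.div_mem (hcM w) (natCast_mem M d)
    refine ⟨σ, fun s hs => hσ s (hSM s hs), hσ _ huM, ?_⟩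
    have h4 : (σ y) ^ 2 = y ^ 2 := by
      rw [← map_pow, hy]
      exact hσ _ (M.mul_mem (M.sub_mem huM (hSM a ha)) (M.sub_mem huM (hSM b hb)))
    rcases sq_eq_sq_iff_eq_or_eq_neg.mp h4 with h | h
    · exact absurd h hσy
    · exact h

end Pool.Agent.ZC
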