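import Pool.Agent.ZC.Leg

/-!
# Points of infinite order: growth of the abscissa under doubling
-/

set_option autoImplicit false

noncomputable section

namespace Pool.Agent.ZC

open Polynomial WeierstrassCurve
open scoped Classical

lemma two_norm : ‖(2 : PadicAlgCl 2)‖ = 1 / 2 := by
  have h := PadicAlgCl.valuation_p 2
  rw [← PadicAlgCl.valuation_coe]
  have h2 : (Valued.v (2 : PadicAlgCl 2) : NNReal) = 1 / 2 := by exact_mod_cast h
  rw [h2]; norm_num

lemma norm_sub_eq_of_lt {a b : PadicAlgCl 2} (h : ‖b‖ < ‖a‖) : ‖a - b‖ = ‖a‖ := by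
  have h1 : ‖a - b‖ = max ‖a‖ ‖b‖ := by
    rw [sub_eq_add_neg]
    have := IsUltrametricDist.norm_add_eq_max_of_norm_ne_norm (x := a) (y := -b)
      (by rw [norm_neg]; exact h.ne')
    rw [this, norm_neg]
  rw [h1, max_eq_left h.le]

/-- one duplication -/
lemma double_step (ι : AlgebraicClosure ℚ →+* PadicAlgCl 2) {l : AlgebraicClosure ℚ} (h0 : l ≠ 0)
    (h1 : l ≠ 1) (x y : AlgebraicClosure ℚ) (h : (leg l).toAffine.Nonsingular x y)
    (hx : max 1 ‖ι l‖ < ‖ι x‖) :
    ∃ x' y' h', (2 : ℕ) • (Affine.Point.some x y h : (leg l).toAffine.Point) = .some x' y' h' ∧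
      ‖ι x'‖ = 4 * ‖ι x‖ := by
  have hleg : IsLeg (leg l) l := IsLeg.leg h0 h1
  have hy2 : y ^ 2 = x * (x - 1) * (x - l) := (hleg.nonsingular x y).mp h
  have hx1 : 1 < ‖ι x‖ := (le_max_left _ _).trans_lt hx
  have hxl : ‖ι l‖ < ‖ι x‖ := (le_max_right _ _).trans_lt hx
  have hx0 : x ≠ 0 := by
    rintro rfl
    rw [map_zero, norm_zero] at hx1
    linarith
  have hne1 : x - 1 ≠ 0 := by
    intro h
    rw [sub_eq_zero] at h
    rw [h, map_one, norm_one] at hx1
    exact lt_irrefl _ hx1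
  have hnel : x - l ≠ 0 := by
    intro h
    rw [sub_eq_zero] at h
    rw [h] at hxl
    exact lt_irrefl _ hxl
  have hy0 : y ≠ 0 := by
    rintro rfl
    rw [zero_pow (by norm_num)] at hy2
    exact mul_ne_zero (mul_ne_zero hx0 hne1) hnel hy2.symm
  have hneg : (leg l).toAffine.negY x y = -y := by
    unfold Affine.negY leg
    simp
  have hyne : y ≠ (leg l).toAffine.negY x y := by
    rw [hneg]
    intro h
    have : 2 * y = 0 := by linear_combination h
    rcases mul_eq_zero.mp this with h | h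
    · exact two_ne_zero h
    · exact hy0 h
  have hadd := Affine.Point.add_self_of_Y_ne (h₁ := h) hyne
  rw [two_nsmul, hadd]
  refine ⟨_, _, _, rfl, ?_⟩
  have hs : (leg l).toAffine.slope x x y y = (3 * x ^ 2 - 2 * (1 + l) * x + l) / (2 * y) := by
    rw [Affine.slope_of_Y_ne rfl hyne, hneg]
    unfold leg
    congr 1
    · ring
    · ring
  have hX : (leg l).toAffine.addX x x ((leg l).toAffine.slope x x y y) =
      (x ^ 2 - l) ^ 2 / (4 * (x * (x - 1) * (x - l))) := by
    rw [hs]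
    unfold Affine.addX leg
    rw [← hy2]
    field_simp
    linear_combination (16 * (1 + l) - 32 * x) * hy2
  rw [hX, map_div₀, norm_div, map_pow, map_sub, map_pow, norm_pow, map_mul, map_mul, map_mul,
    map_sub, map_sub, map_one, norm_mul, norm_mul, norm_mul]
  have e1 : ‖ι x ^ 2 - ι l‖ = ‖ι x‖ ^ 2 := by
    rw [norm_sub_eq_of_lt, norm_pow]
    rw [norm_pow]
    nlinarith
  have e2 : ‖ι x - 1‖ = ‖ι x‖ := norm_sub_eq_of_lt (by rw [norm_one]; exact hx1)
  have e3 : ‖ι x - ι l‖ = ‖ι x‖ := norm_sub_eq_of_lt hxl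
  have e4 : ‖ι 4‖ = 1 / 4 := by
    have : (4 : AlgebraicClosure ℚ) = 2 * 2 := by norm_num
    rw [this, map_mul, map_ofNat, norm_mul, two_norm]; norm_num
  rw [e1, e2, e3, e4]
  have : ‖ι x‖ ≠ 0 := by linarith
  field_simp

theorem nonTor (ι : AlgebraicClosure ℚ →+* PadicAlgCl 2) {l : AlgebraicClosure ℚ} (h0 : l ≠ 0)
    (h1 : l ≠ 1) (x y : AlgebraicClosure ℚ) (h : (leg l).toAffine.Nonsingular x y)
    (hx : max 1 ‖ι l‖ < ‖ι x‖) (N : ℤ) (hN : N ≠ 0) :
    N • (Affine.Point.some x y h : (leg l).toAffine.Point) ≠ 0 := by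
  intro hN0
  set P : (leg l).toAffine.Point := Affine.Point.some x y h with hP
  have hstep : ∀ n : ℕ, ∃ x' y' h', (2 ^ n : ℕ) • P = .some x' y' h' ∧
      ‖ι x'‖ = 4 ^ n * ‖ι x‖ := by
    intro n
    induction n with
    | zero => exact ⟨x, y, h, by simp [hP], by simp⟩
    | succ n ih =>
      obtain ⟨x', y', h', e, hn⟩ := ih
      have hx' : max 1 ‖ι l‖ < ‖ι x'‖ := by
        rw [hn]
        refine hx.trans_le ?_
        have : (1 : ℝ) ≤ 4 ^ n := one_le_pow₀ (by norm_num)
        nlinarith [norm_nonneg (ι x)]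
      obtain ⟨x'', y'', h'', e', hn'⟩ := double_step ι h0 h1 x' y' h' hx'
      refine ⟨x'', y'', h'', ?_, ?_⟩
      · rw [pow_succ, mul_comm, mul_smul, e, e']
      · rw [hn', hn]; ring
  have hfin : IsOfFinAddOrder P := by
    rw [isOfFinAddOrder_iff_zsmul_eq_zero]
    exact ⟨N, hN, hN0⟩
  have hfin2 : (Set.range fun n : ℕ => (2 ^ n : ℕ) • P).Finite := by
    have h2 := hfin.finite_multiples
    refine h2.subset ?_
    rintro _ ⟨n, rfl⟩
    exact ⟨2 ^ n, rfl⟩
  have hinj : Function.Injective fun n : ℕ => (2 ^ n : ℕ) • P := by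
    intro a b hab
    obtain ⟨xa, ya, ha, ea, na⟩ := hstep a
    obtain ⟨xb, yb, hb, eb, nb⟩ := hstep b
    simp only at hab
    rw [ea, eb] at hab
    have hxx : xa = xb := by
      have := Affine.Point.some.inj hab
      exact this.1
    rw [hxx, nb] at na
    have hpos : ‖ι x‖ ≠ 0 := by
      have := (le_max_left 1 ‖ι l‖).trans_lt hx
      linarith
    have h4 := mul_right_cancel₀ hpos na
    have h5 : (4 : ℝ) ^ b = 4 ^ a := h4
    exact (pow_right_injective₀ (by norm_num : (0 : ℝ) < 4) (by norm_num) h5).symm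
  exact Set.infinite_range_of_injective hinj hfin2

end Pool.Agent.ZC
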