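import Pool.Agent.ZC.Leg
import Pool.Agent.ZC.Push
import Pool.Agent.ZC.NonTor

/-!
# The tower of 2-isogenies
-/

set_option autoImplicit false

noncomputable section

namespace Pool.Agent.ZC

open Polynomial WeierstrassCurve
open scoped Classical

/-- two affine points with equal coordinates are equal -/
private lemma Tower_some_congr {K : Type} [Field K] {W : WeierstrassCurve K} {x y x' y' : K}
    (h : W.toAffine.Nonsingular x y) (h' : W.toAffine.Nonsingular x' y') (hx : x = x')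
    (hy : y = y') : (Affine.Point.some x y h : W.toAffine.Point) = .some x' y' h' := by
  subst hx
  subst hy
  rfl

private lemma Tower_norm_two_lt (ι : AlgebraicClosure ℚ →+* PadicAlgCl 2)
    (x m : AlgebraicClosure ℚ) (h : ‖ι m‖ < ‖ι x‖) : ‖ι (x + m)‖ = ‖ι x‖ := by
  rw [map_add]
  have h1 := IsUltrametricDist.norm_add_eq_max_of_norm_ne_norm (x := ι x) (y := ι m) h.ne'
  rw [h1, max_eq_left h.le]

theorem exists_tower (ι : AlgebraicClosure ℚ →+* PadicAlgCl 2) (L m : ℕ → AlgebraicClosure ℚ)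
    (hL : ∀ n, StepData (L (n + 1)) (L n) (m n)) (n : ℕ) :
    ∃ (G : (leg (L n)).toAffine.Point → (leg (L 0)).toAffine.Point) (C : ℝ)
      (S : Finset (AlgebraicClosure ℚ)), Lift G ∧ G 0 = 0 ∧ (∀ P, G (-P) = -G P) ∧
      (∀ x y h, C < ‖ι x‖ → ∀ N : ℤ, N ≠ 0 → N • G (.some x y h) ≠ 0) ∧
      L 0 ∈ S ∧ L n ∈ S ∧
      (∀ σ : AlgebraicClosure ℚ ≃ₐ[ℚ] AlgebraicClosure ℚ, (∀ s ∈ S, σ s = s) →
        ∀ T : (leg (L 0)).toAffine.Point →+ (leg (L 0)).toAffine.Point,
          (∀ x y h, ∃ h', T (.some x y h) = .some (σ x) (σ y) h') →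
          ∀ x y h, C < ‖ι x‖ → ∀ h', T (G (.some x y h)) = G (.some (σ x) (σ y) h')) := by
  have hne : ∀ n, L n ≠ 0 ∧ L n ≠ 1 := fun n => ⟨(hL n).ne.2.2.1, (hL n).ne.2.2.2⟩
  induction n with
  | zero =>
      refine ⟨fun P => P, max 1 ‖ι (L 0)‖, {L 0}, Lift.id, rfl, fun _ => rfl, ?_, by simp, by simp,
        ?_⟩
      · intro x y h hx N hN
        exact nonTor ι (hne 0).1 (hne 0).2 x y h hx N hN
      · intro σ _ T hT x y h _ h'
        obtain ⟨h'', e⟩ := hT x y h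
        exact e
  | succ n ih =>
      obtain ⟨G, C, S, hG, hG0, hGn, hGt, hS0, hSn, hGσ⟩ := ih
      obtain ⟨G', hG', hG'0, hG'n, hG's⟩ := exists_step (hL n)
      have hd := hL n
      have hmp : (1 + m n) ≠ 0 := hd.mp
      have hmpi : ι (1 + m n) ≠ 0 := (map_ne_zero ι).2 hmp
      have hnp : 0 < ‖ι (1 + m n)‖ := norm_pos_iff.2 hmpi
      set C' : ℝ := max ‖ι (m n)‖ (C * ‖ι (1 + m n)‖ ^ 2) with hC'
      -- the new coordinate is large
      have key : ∀ x : AlgebraicClosure ℚ, C' < ‖ι x‖ →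
          x ≠ 0 ∧ C < ‖ι ((x + m n) ^ 2 / ((1 + m n) ^ 2 * x))‖ := by
        intro x hx
        have h1 : ‖ι (m n)‖ < ‖ι x‖ := lt_of_le_of_lt (le_max_left _ _) hx
        have h2 : C * ‖ι (1 + m n)‖ ^ 2 < ‖ι x‖ := lt_of_le_of_lt (le_max_right _ _) hx
        have hx0 : 0 < ‖ι x‖ := lt_of_le_of_lt (norm_nonneg _) h1
        have hx1 : x ≠ 0 := by
          rintro rfl
          simp at hx0
        refine ⟨hx1, ?_⟩
        rw [map_div₀, map_mul, map_pow, map_pow, norm_div, norm_mul, norm_pow, norm_pow,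
          Tower_norm_two_lt ι x (m n) h1, lt_div_iff₀ (by positivity)]
        calc C * (‖ι (1 + m n)‖ ^ 2 * ‖ι x‖) = (C * ‖ι (1 + m n)‖ ^ 2) * ‖ι x‖ := by ring
          _ < ‖ι x‖ * ‖ι x‖ := mul_lt_mul_of_pos_right h2 hx0
          _ = ‖ι x‖ ^ 2 := by ring
      refine ⟨fun P => G (G' P), C', insert (L (n + 1)) (insert (m n) S), hG.comp hG', ?_, ?_, ?_,
        ?_, ?_, ?_⟩
      · change G (G' 0) = 0
        rw [hG'0, hG0]
      · intro P
        change G (G' (-P)) = - G (G' P)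
        rw [hG'n, hGn]
      · intro x y h hx N hN
        obtain ⟨hx1, hx2⟩ := key x hx
        obtain ⟨h', e⟩ := hG's x y h hx1
        change N • G (G' (.some x y h)) ≠ 0
        rw [e]
        exact hGt _ _ h' hx2 N hN
      · simp [hS0]
      · simp
      · intro σ hσ T hT x y h hx h'
        have hσS : ∀ s ∈ S, σ s = s := fun s hs => hσ s (by simp [hs])
        have hσm : σ (m n) = m n := hσ _ (by simp)
        obtain ⟨hx1, hx2⟩ := key x hx
        have hσx1 : σ x ≠ 0 := by simpa using hx1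
        obtain ⟨h₁, e₁⟩ := hG's x y h hx1
        obtain ⟨h₂, e₂⟩ := hG's (σ x) (σ y) h' hσx1
        change T (G (G' (.some x y h))) = G (G' (.some (σ x) (σ y) h'))
        rw [e₁, e₂]
        have ex : σ ((x + m n) ^ 2 / ((1 + m n) ^ 2 * x)) =
            (σ x + m n) ^ 2 / ((1 + m n) ^ 2 * σ x) := by
          simp [hσm]
        have ey : σ (y * (x ^ 2 - m n ^ 2) / ((1 + m n) ^ 3 * x ^ 2)) =
            σ y * (σ x ^ 2 - m n ^ 2) / ((1 + m n) ^ 3 * σ x ^ 2) := by
          simp [hσm]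
        have h₃ : (leg (L n)).toAffine.Nonsingular (σ ((x + m n) ^ 2 / ((1 + m n) ^ 2 * x)))
            (σ (y * (x ^ 2 - m n ^ 2) / ((1 + m n) ^ 3 * x ^ 2))) := by
          rw [ex, ey]
          exact h₂
        rw [hGσ σ hσS T hT _ _ h₁ hx2 h₃]
        congr 1
        exact Tower_some_congr _ _ ex ey

end Pool.Agent.ZC
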