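import Pool.Agent.ZC.Iso
import Pool.Agent.ZC.Indep
import Pool.Agent.ZC.Sel
import Pool.Agent.ZC.Act
import Pool.Agent.ZC.Tower
import Pool.Agent.ZC.Chain
import Pool.Agent.ZC.Bilin
import Pool.Agent.ZC.Rel

/-!
# Assembly
-/

set_option autoImplicit false

noncomputable section

namespace Pool.Agent.ZC

open Polynomial WeierstrassCurve
open scoped Classical

lemma neg_some_leg {K : Type} [Field K] {l : K} (x y : K)
    (h : (leg l).toAffine.Nonsingular x y) (h' : (leg l).toAffine.Nonsingular x (-y)) :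
    -(Affine.Point.some x y h : (leg l).toAffine.Point) = Affine.Point.some x (-y) h' := by
  rw [Affine.Point.neg_some]
  have e : (leg l).toAffine.negY x y = -y := by
    unfold Affine.negY leg
    simp
  simp only [e]

theorem main (N r : ℕ) (L m : Fin N → ℕ → AlgebraicClosure ℚ) (hL : ∀ i n, StepData (L i (n + 1)) (L i n) (m i n))
    (hinj : ∀ i, Function.Injective fun n => L i (n + 1)) :
    ∃ G : (i : Fin N) → AddSubgroup (leg (L i 0)).toAffine.Point,
      (∀ i, ∃ P : Fin r → (leg (L i 0)).toAffine.Point, LinearIndependent ℤ P ∧ ∀ a, P a ∈ G i) ∧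
      ∀ i j, ∀ P ∈ G i, ∀ Q ∈ G j, (2 : ℕ) • sym P Q ∈ RatEq (leg (L i 0)) (leg (L j 0)) := by
  have hι : Nonempty (AlgebraicClosure ℚ →ₐ[ℚ] PadicAlgCl 2) := by
    have h1 : Algebra.IsAlgebraic ℚ (AlgebraicClosure ℚ) := AlgebraicClosure.isAlgebraic ℚ
    exact ⟨IsAlgClosed.lift⟩
  obtain ⟨ι'⟩ := hι
  set ι : AlgebraicClosure ℚ →+* PadicAlgCl 2 := ι'.toRingHom with hιdef
  choose G C S hG using fun (i : Fin N) (a : Fin r) => exists_tower ι (L i) (m i) (hL i) (a + 1)
  have hlift : ∀ i a, Lift (G i a) := fun i a => (hG i a).1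
  have hzero : ∀ i a, G i a 0 = 0 := fun i a => (hG i a).2.1
  have hodd : ∀ i a P, G i a (-P) = -G i a P := fun i a => (hG i a).2.2.1
  have hnt : ∀ i a x y h, C i a < ‖ι x‖ → ∀ N : ℤ, N ≠ 0 → N • G i a (.some x y h) ≠ 0 :=
    fun i a => (hG i a).2.2.2.1
  have hS0 : ∀ i a, L i 0 ∈ S i a := fun i a => (hG i a).2.2.2.2.1
  have hSn : ∀ i a, L i (a + 1) ∈ S i a := fun i a => (hG i a).2.2.2.2.2.1
  have hact := fun i a => (hG i a).2.2.2.2.2.2
  -- the set of constants
  set T : Finset (AlgebraicClosure ℚ) := (Finset.univ : Finset (Fin N)).biUnion fun i =>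
    (Finset.univ : Finset (Fin r)).biUnion fun a => S i a with hT
  have hST : ∀ i a, ∀ s ∈ S i a, s ∈ T := by
    intro i a s hs
    rw [hT, Finset.mem_biUnion]
    refine ⟨i, Finset.mem_univ _, ?_⟩
    rw [Finset.mem_biUnion]
    exact ⟨a, Finset.mem_univ _, hs⟩
  obtain ⟨D, hD⟩ : ∃ D : ℝ, 1 ≤ D ∧ (∀ i a, C i a ≤ D) ∧ ∀ s ∈ T, ‖ι s‖ ≤ D := by
    obtain ⟨D1, hD1⟩ := (Set.finite_range fun p : Fin N × Fin r => C p.1 p.2).bddAbove
    obtain ⟨D2, hD2⟩ := (T.finite_toSet.image fun s => ‖ι s‖).bddAbove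
    refine ⟨max 1 (max D1 D2), le_max_left _ _, fun i a => ?_, fun s hs => ?_⟩
    · exact (hD1 ⟨(i, a), rfl⟩).trans ((le_max_left _ _).trans (le_max_right _ _))
    · exact (hD2 ⟨s, hs, rfl⟩).trans ((le_max_right _ _).trans (le_max_right _ _))
  obtain ⟨u, hu, huσ⟩ := exists_u ι T D
  have hune : ∀ s ∈ T, u - s ≠ 0 := by
    intro s hs h
    rw [sub_eq_zero] at h
    rw [h] at hu
    exact absurd (hD.2.2 s hs) (not_le.mpr hu)
  have hu0 : u ≠ 0 := by
    rintro rfl
    rw [map_zero, norm_zero] at hu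
    linarith [hD.1]
  have hu1 : u - 1 ≠ 0 := by
    intro h
    rw [sub_eq_zero] at h
    rw [h, map_one, norm_one] at hu
    linarith [hD.1]
  -- the points
  choose sq hsq using fun z : AlgebraicClosure ℚ => IsAlgClosed.exists_pow_nat_eq z (n := 2) (by norm_num)
  set y : Fin N → Fin r → AlgebraicClosure ℚ := fun i a => sq (u * (u - 1) * (u - L i (a + 1))) with hy
  have hy2 : ∀ i a, y i a ^ 2 = u * (u - 1) * (u - L i (a + 1)) := fun i a => hsq _
  have hνne := fun (i : Fin N) (n : ℕ) => (hL i n).ne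
  have hleg : ∀ i (a : Fin r), IsLeg (leg (L i (a + 1))) (L i (a + 1)) := fun i a =>
    IsLeg.leg (hνne i a).1 (hνne i a).2.1
  have hns : ∀ i (a : Fin r), (leg (L i (a + 1))).toAffine.Nonsingular u (y i a) := fun i a =>
    ((hleg i a).nonsingular u (y i a)).mpr (hy2 i a)
  have hy0 : ∀ i a, y i a ≠ 0 := by
    intro i a h
    have h1 := hy2 i a
    rw [h, zero_pow (by norm_num)] at h1
    exact mul_ne_zero (mul_ne_zero hu0 hu1) (hune _ (hST i a _ (hSn i a))) h1.symm
  set P : (i : Fin N) → Fin r → (leg (L i 0)).toAffine.Point := fun i a =>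
    G i a (.some u (y i a) (hns i a)) with hP
  have hPnt : ∀ i a (n : ℤ), n ≠ 0 → n • P i a ≠ 0 := fun i a n hn =>
    hnt i a u (y i a) (hns i a) ((hD.2.1 i a).trans_lt hu) n hn
  -- independence
  have hPind : ∀ i, LinearIndependent ℤ (P i) := by
    intro i
    apply linInd _ (hPnt i)
    intro a b hab
    have hν : L i (a + 1) ≠ L i (b + 1) := by
      intro h
      exact hab (Fin.ext (hinj i h))
    obtain ⟨σ, hσS, hσu, hσy⟩ := huσ (L i (a + 1)) (hST i a _ (hSn i a)) (L i (b + 1))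
      (hST i b _ (hSn i b)) hν (y i a * y i b / (u * (u - 1))) (by
        rw [div_pow, mul_pow, hy2, hy2]
        field_simp)
    obtain ⟨T', hT'⟩ := exists_act (l := L i 0) σ (hσS _ (hST i a _ (hS0 i a)))
    have hsign : ∀ c, (σ (y i c) = y i c ∧ T' (P i c) = P i c) ∨
        (σ (y i c) = -y i c ∧ T' (P i c) = -P i c) := by
      intro c
      have h1 : σ (y i c) ^ 2 = y i c ^ 2 := by
        rw [← map_pow, hy2, map_mul, map_mul, map_sub, map_sub, hσu, map_one,
          hσS _ (hST i c _ (hSn i c))]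
      have h3 : ∀ (x' y' : AlgebraicClosure ℚ) (hx : x' = u) (h' : (leg (L i (c + 1))).toAffine.Nonsingular x' y'),
          σ u = x' → σ (y i c) = y' → T' (P i c) = G i c (.some x' y' h') := by
        intro x' y' hx h' hx' hy'
        subst hx' hy'
        exact hact i c σ (fun s hs => hσS s (hST i c s hs)) T' hT' u (y i c) (hns i c)
          ((hD.2.1 i c).trans_lt hu) h'
      rcases sq_eq_sq_iff_eq_or_eq_neg.mp h1 with h2 | h2
      · exact Or.inl ⟨h2, h3 u (y i c) rfl (hns i c) hσu h2⟩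
      · right
        refine ⟨h2, ?_⟩
        have h4 : (leg (L i (c + 1))).toAffine.Nonsingular u (-y i c) := by
          rw [(hleg i c).nonsingular, neg_sq, hy2]
        rw [h3 u (-y i c) rfl h4 hσu h2, ← neg_some_leg u (y i c) (hns i c) h4, hodd]
    refine ⟨T', fun c => ?_, ?_⟩
    · rcases hsign c with h | h
      · exact Or.inl h.2
      · exact Or.inr h.2
    · have h5 : σ (y i a) * σ (y i b) = -(y i a * y i b) := by
        have h6 := hσy
        rw [map_div₀, map_mul, map_mul, map_sub, map_one, hσu] at h6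
        have h7 : u * (u - 1) ≠ 0 := mul_ne_zero hu0 hu1
        rw [← neg_div, div_left_inj' h7] at h6
        exact h6
      have h8 : y i a * y i b ≠ 0 := mul_ne_zero (hy0 i a) (hy0 i b)
      have h9 : y i a * y i b ≠ -(y i a * y i b) := by
        intro h
        have : 2 * (y i a * y i b) = 0 := by linear_combination h
        rcases mul_eq_zero.mp this with h' | h'
        · exact two_ne_zero h'
        · exact h8 h'
      rcases hsign a with ⟨ha1, ha2⟩ | ⟨ha1, ha2⟩ <;> rcases hsign b with ⟨hb1, hb2⟩ | ⟨hb1, hb2⟩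
      · rw [ha1, hb1] at h5
        exact absurd h5 h9
      · exact Or.inl ⟨ha2, hb2⟩
      · exact Or.inr ⟨ha2, hb2⟩
      · rw [ha1, hb1, neg_mul_neg] at h5
        exact absurd h5 h9
  refine ⟨fun i => AddSubgroup.closure (Set.range (P i)), fun i => ⟨P i, hPind i, fun a =>
    AddSubgroup.subset_closure ⟨a, rfl⟩⟩, ?_⟩
  intro i j a ha b hb
  refine bilin (hνne i 0).2.2.1 (hνne i 0).2.2.2 (hνne j 0).2.2.1 (hνne j 0).2.2.2
    (Set.range (P i)) (Set.range (P j)) (fun n hn x hx hx0 => tf_closure _ (hPind i) n hn x hx hx0)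
    (fun n hn x hx hx0 => tf_closure _ (hPind j) n hn x hx hx0) ?_ a ha b hb
  rintro _ ⟨a, rfl⟩ _ ⟨b, rfl⟩
  have h1 := two_sym (hνne i a).1 (hνne i a).2.1 (hνne j b).1 (hνne j b).2.1 u (y i a) (y j b)
    (hy0 i a) (hy0 j b) (hns i a) (hns j b)
  have h2 := RatEq.push (hlift i a) (hlift j b) h1
  have h3 := sym_push (hzero i a) (hzero j b)
    (Affine.Point.some u (y i a) (hns i a) : (leg (L i (a + 1))).toAffine.Point)
    (Affine.Point.some u (y j b) (hns j b) : (leg (L j (b + 1))).toAffine.Point)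
  rw [two_nsmul, Finsupp.mapDomain_add, h3, ← two_nsmul] at h2
  exact h2

/-- The theorem. -/
theorem legendre (N r : ℕ) (l : Fin N → AlgebraicClosure ℚ) (h0 : ∀ i, l i ≠ 0) (h1 : ∀ i, l i ≠ 1) :
    ∃ G : (i : Fin N) → AddSubgroup (leg (l i)).toAffine.Point,
      (∀ i, ∃ P : Fin r → (leg (l i)).toAffine.Point, LinearIndependent ℤ P ∧ ∀ a, P a ∈ G i) ∧
      ∀ i j, ∀ P ∈ G i, ∀ Q ∈ G j, (2 : ℕ) • sym P Q ∈ RatEq (leg (l i)) (leg (l j)) := by
  choose L m hL0 hL hinj using fun i => exists_chain (l i) (h0 i) (h1 i)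
  have h : l = fun i => L i 0 := funext fun i => (hL0 i).symm
  subst h
  exact main N r L m hL hinj

/-- The theorem for arbitrary elliptic curves. -/
theorem elliptic (N r : ℕ) (E : Fin N → WeierstrassCurve (AlgebraicClosure ℚ)) (hE : ∀ i, (E i).IsElliptic) :
    ∃ G : (i : Fin N) → AddSubgroup (E i).toAffine.Point,
      (∀ i, ∃ P : Fin r → (E i).toAffine.Point, LinearIndependent ℤ P ∧ ∀ a, P a ∈ G i) ∧
      ∀ i j, ∀ P ∈ G i, ∀ Q ∈ G j, (2 : ℕ) • sym P Q ∈ RatEq (E i) (E j) := by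
  choose l h0 h1 φ hφ hlift using fun i => exists_leg (E i)
  obtain ⟨G, hG, hrel⟩ := legendre N r l h0 h1
  refine ⟨fun i => (G i).map (φ i), fun i => ?_, ?_⟩
  · obtain ⟨P, hP, hPG⟩ := hG i
    refine ⟨fun a => φ i (P a), ?_, fun a => ⟨P a, hPG a, rfl⟩⟩
    have h := hP.map' (φ i).toIntLinearMap (LinearMap.ker_eq_bot.mpr (hφ i))
    exact h
  · rintro i j _ ⟨P, hP, rfl⟩ _ ⟨Q, hQ, rfl⟩
    have h2 := RatEq.push (hlift i) (hlift j) (hrel i j P hP Q hQ)
    have h3 := sym_push (G₁ := fun P => φ i P) (G₂ := fun P => φ j P) (map_zero (φ i))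
      (map_zero (φ j)) P Q
    rw [two_nsmul, Finsupp.mapDomain_add, h3, ← two_nsmul] at h2
    exact h2

end Pool.Agent.ZC
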