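import Pool.Agent.ZC.NonTor

/-!
# Multiples of a point of infinite order near the origin
-/

set_option autoImplicit false

noncomputable section

namespace Pool.Agent.ZC

open Polynomial WeierstrassCurve
open scoped Classical

private theorem near_map {K K' : Type} [Field K] [Field K'] (W : WeierstrassCurve K)
    (W' : WeierstrassCurve K') (f : K →+* K') (hW : W.map f = W') :
    ∃ T : W.toAffine.Point →+ W'.toAffine.Point,
      ∀ x y h, ∃ h', T (.some x y h) = .some (f x) (f y) h' := by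
  subst hW
  refine ⟨{
    toFun := fun P => match P with
      | 0 => 0
      | .some _ _ h => .some _ _ <| (Affine.map_nonsingular (W := W.toAffine) f.injective _ _).mpr h
    map_zero' := rfl
    map_add' := ?_ }, fun x y h => ⟨_, rfl⟩⟩
  rintro (_ | ⟨x₁, y₁, h₁⟩) (_ | ⟨x₂, y₂, h₂⟩)
  any_goals rfl
  by_cases hxy : x₁ = x₂ ∧ y₁ = W.toAffine.negY x₂ y₂
  · rw [Affine.Point.add_of_Y_eq hxy.left hxy.right,
      Affine.Point.add_of_Y_eq (congr_arg _ hxy.left) <| by
        rw [hxy.right, Affine.map_negY]]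
  · simpa only [Affine.Point.add_some hxy, ← Affine.map_addX, ← Affine.map_addY,
      ← Affine.map_slope] using!
      (Affine.Point.add_some fun h ↦ hxy ⟨f.injective h.1,
        f.injective (W.toAffine.map_negY f _ _ ▸ h).2⟩).symm

/-- A field homomorphism induces a homomorphism on the points of Legendre curves. -/
theorem exists_map {K K' : Type} [Field K] [Field K'] (f : K →+* K') (l : K) (l' : K')
    (hl : f l = l') : ∃ T : (leg l).toAffine.Point →+ (leg l').toAffine.Point,
      ∀ x y h, ∃ h', T (.some x y h) = .some (f x) (f y) h' :=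
  near_map (leg l) (leg l') f (by ext <;> simp [leg, hl])

private theorem near_coord {K K' : Type} [Field K] [Field K'] (f : K →+* K') (l : K) (l' : K')
    (hl : f l = l') (x y : K) (h : (leg l).toAffine.Nonsingular x y)
    (h' : (leg l').toAffine.Nonsingular (f x) (f y)) (n : ℕ) :
    n • (Affine.Point.some (f x) (f y) h' : (leg l').toAffine.Point) = 0 ∨
      ∃ X Y H, n • (Affine.Point.some (f x) (f y) h' : (leg l').toAffine.Point) =
        .some (f X) (f Y) H := by
  obtain ⟨T, hT⟩ := exists_map f l l' hl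
  have hTP : T (.some x y h) = .some (f x) (f y) h' := by
    obtain ⟨h'', e⟩ := hT x y h
    rw [e]
  have e : n • (Affine.Point.some (f x) (f y) h' : (leg l').toAffine.Point) =
      T (n • .some x y h) := by rw [map_nsmul, hTP]
  rcases hQ : n • (Affine.Point.some x y h : (leg l).toAffine.Point) with _ | ⟨X, Y, H⟩
  · rw [hQ] at e
    exact Or.inl (e.trans (map_zero T))
  · rw [hQ] at e
    obtain ⟨h'', e'⟩ := hT X Y H
    exact Or.inr ⟨X, Y, h'', e.trans e'⟩

/-- the affine addition formula on a Legendre curve -/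
private theorem near_add {K : Type} [Field K] [CharZero K] {W : WeierstrassCurve K} {l : K}
    (hW : IsLeg W l) {x y x' y' : K} (h : W.toAffine.Nonsingular x y)
    (h' : W.toAffine.Nonsingular x' y') (hx : x ≠ x') :
    ∃ Y3 h3, (Affine.Point.some x y h : W.toAffine.Point) + .some x' y' h' =
      .some (((y - y') / (x - x')) ^ 2 + (1 + l) - x - x') Y3 h3 := by
  have e1 : W.toAffine.slope x x' y y' = (y - y') / (x - x') := Affine.slope_of_X_ne hx
  have e2 : W.toAffine.addX x x' (W.toAffine.slope x x' y y') =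
      ((y - y') / (x - x')) ^ 2 + (1 + l) - x - x' := by
    rw [e1, Affine.addX, hW.a₁, hW.a₂]
    ring
  have h4 := Affine.Point.add_some (h₁ := h) (h₂ := h') (fun hh => hx hh.1)
  have h5 := Affine.nonsingular_add h h' (fun hh => hx hh.1)
  rw [e2] at h5
  refine ⟨_, h5, ?_⟩
  rw [h4]
  congr 1


private theorem near_prod {K : Type} [Field K] {x y x' y' l : K} (hd : x - x' ≠ 0)
    (hy : y ^ 2 = x * (x - 1) * (x - l)) (hy' : y' ^ 2 = x' * (x' - 1) * (x' - l)) :
    (((y - y') / (x - x')) ^ 2 + (1 + l) - x - x') *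
      (((y + y') / (x - x')) ^ 2 + (1 + l) - x - x') = ((x * x' - l) / (x - x')) ^ 2 := by
  field_simp
  linear_combination (((y ^ 2 - y' ^ 2) + (x * (x - 1) * (x - l) - x' * (x' - 1) * (x' - l))) +
    2 * (1 + l - x - x') * (x - x') ^ 2) * hy + (-((y ^ 2 - y' ^ 2) +
    (x * (x - 1) * (x - l) - x' * (x' - 1) * (x' - l))) +
    2 * (1 + l - x - x') * (x - x') ^ 2) * hy'

private theorem near_prod1 {K : Type} [Field K] {x y x' y' l : K} (hd : x - x' ≠ 0)
    (hy : y ^ 2 = x * (x - 1) * (x - l)) (hy' : y' ^ 2 = x' * (x' - 1) * (x' - l)) :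
    (((y - y') / (x - x')) ^ 2 + (1 + l) - x - x' - 1) *
      (((y + y') / (x - x')) ^ 2 + (1 + l) - x - x' - 1) =
      ((x * x' - x - x' + l) / (x - x')) ^ 2 := by
  field_simp
  linear_combination (((y ^ 2 - y' ^ 2) + (x * (x - 1) * (x - l) - x' * (x' - 1) * (x' - l))) +
    2 * (l - x - x') * (x - x') ^ 2) * hy + (-((y ^ 2 - y' ^ 2) +
    (x * (x - 1) * (x - l) - x' * (x' - 1) * (x' - l))) +
    2 * (l - x - x') * (x - x') ^ 2) * hy'

/-- If two points of a Legendre curve have close but distinct abscissas, then their sum or their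
difference is close to the origin. -/
private theorem near_close (ι : AlgebraicClosure ℚ →+* PadicAlgCl 2) {l : AlgebraicClosure ℚ}
    (h0 : l ≠ 0) (h1 : l ≠ 1) (B : ℝ) (hB : 1 ≤ B) (hBl : ‖ι l‖ ≤ B) (M : ℝ) :
    ∃ δ > 0, ∀ (x y x' y' : AlgebraicClosure ℚ) (h : (leg l).toAffine.Nonsingular x y)
      (h' : (leg l).toAffine.Nonsingular x' y'), x ≠ x' → ‖ι x‖ ≤ B → ‖ι x'‖ ≤ B →
      ‖ι x - ι x'‖ < δ →
      (∃ X Y H, (Affine.Point.some x y h : (leg l).toAffine.Point) + .some x' y' h' =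
        .some X Y H ∧ M < ‖ι X‖) ∨
      (∃ X Y H, (Affine.Point.some x y h : (leg l).toAffine.Point) - .some x' y' h' =
        .some X Y H ∧ M < ‖ι X‖) := by
  have hleg : IsLeg (leg l) l := IsLeg.leg h0 h1
  have hc0 : 0 < ‖ι (l ^ 2 - l)‖ := by
    rw [norm_pos_iff]
    refine (map_ne_zero ι).2 ?_
    have : l ^ 2 - l = l * (l - 1) := by ring
    rw [this]
    exact mul_ne_zero h0 (sub_ne_zero.2 h1)
  obtain ⟨c, hc⟩ : ∃ c : ℝ, c = ‖ι (l ^ 2 - l)‖ / (4 * B) := ⟨_, rfl⟩
  have hcB : 2 * c * B = ‖ι (l ^ 2 - l)‖ / 2 := by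
    rw [hc]; field_simp; ring
  have hcpos : 0 < c := by rw [hc]; positivity
  obtain ⟨M', hM'⟩ : ∃ M' : ℝ, M' = max M 1 + 1 := ⟨_, rfl⟩
  have hM1 : 1 ≤ M' := by rw [hM']; have := le_max_right M 1; linarith
  have hMM : M < M' := by rw [hM']; have := le_max_left M 1; linarith
  have hNA := PadicAlgCl.isNonarchimedean 2
  have hNS : ∀ a b : PadicAlgCl 2, ‖a - b‖ ≤ max ‖a‖ ‖b‖ := by
    intro a b
    have := hNA a (-b)
    rwa [norm_neg, ← sub_eq_add_neg] at this
  refine ⟨min c (c / M'), lt_min hcpos (by positivity), ?_⟩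
  intro x y x' y' h h' hxx hx hx' hδ
  have hδ1 : ‖ι x - ι x'‖ < c := hδ.trans_le (min_le_left _ _)
  have hδ2 : ‖ι x - ι x'‖ < c / M' := hδ.trans_le (min_le_right _ _)
  have hy : y ^ 2 = x * (x - 1) * (x - l) := (hleg.nonsingular x y).1 h
  have hy' : y' ^ 2 = x' * (x' - 1) * (x' - l) := (hleg.nonsingular x' y').1 h'
  have hd : x - x' ≠ 0 := sub_ne_zero.2 hxx
  have hdn : 0 < ‖ι (x - x')‖ := norm_pos_iff.2 ((map_ne_zero ι).2 hd)
  -- one of the numerators is not small
  have hN : c ≤ max ‖ι (x * x' - l)‖ ‖ι (x * x' - x - x' + l)‖ := by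
    by_contra hcon
    push Not at hcon
    obtain ⟨n1, n2⟩ := max_lt_iff.1 hcon
    have n3 : ‖ι (2 * (x - l))‖ < c := by
      have : ι (2 * (x - l)) = (ι (x * x' - l) - ι (x * x' - x - x' + l)) + (ι x - ι x') := by
        rw [← map_sub, ← map_sub, ← map_add]; congr 1; ring
      rw [this]
      exact (hNA _ _).trans_lt (max_lt ((hNS _ _).trans_lt (max_lt n1 n2)) hδ1)
    have n4 : ‖ι (x - l)‖ < 2 * c := by
      rw [map_mul, norm_mul, map_ofNat, two_norm] at n3
      linarith
    have n5 : ‖ι (l ^ 2 - l)‖ < ‖ι (l ^ 2 - l)‖ := by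
      have e : ι (l ^ 2 - l) = ι (x * x' - l) - (ι (x - l) * ι x' + (ι l * ι (x - l) -
          ι l * (ι x - ι x'))) := by
        rw [← map_mul, ← map_mul, ← map_sub, ← map_mul, ← map_sub, ← map_add, ← map_sub]
        congr 1; ring
      have t1 : ‖ι (x * x' - l)‖ < 2 * c * B := by nlinarith
      have t2 : ‖ι (x - l) * ι x'‖ < 2 * c * B := by
        rw [norm_mul]
        have := norm_nonneg (ι (x - l))
        have := norm_nonneg (ι x')
        nlinarith
      have t3 : ‖ι l * ι (x - l)‖ < 2 * c * B := by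
        rw [norm_mul]
        have := norm_nonneg (ι (x - l))
        have := norm_nonneg (ι l)
        nlinarith
      have t4 : ‖ι l * (ι x - ι x')‖ < 2 * c * B := by
        rw [norm_mul]
        have := norm_nonneg (ι x - ι x')
        have := norm_nonneg (ι l)
        nlinarith
      have t5 : ‖ι (l ^ 2 - l)‖ < 2 * c * B := by
        rw [e]
        exact (hNS _ _).trans_lt (max_lt t1 ((hNA _ _).trans_lt (max_lt t2
          ((hNS _ _).trans_lt (max_lt t3 t4)))))
      rw [hcB] at t5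
      linarith
    exact lt_irrefl _ n5
  -- the negative of the second point
  have hneg : (leg l).toAffine.negY x' y' = -y' := by
    unfold Affine.negY leg
    simp
  have hn' : (leg l).toAffine.Nonsingular x' (-y') := by
    rw [hleg.nonsingular, neg_sq]; exact hy'
  have hnegP : -(Affine.Point.some x' y' h' : (leg l).toAffine.Point) = .some x' (-y') hn' := by
    rw [Affine.Point.neg_some]
    congr 1
  obtain ⟨Y1, H1, e1⟩ := near_add hleg h h' hxx
  obtain ⟨Y2, H2, e2⟩ := near_add hleg h hn' hxx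
  rw [← hnegP, ← sub_eq_add_neg] at e2
  by_contra hcon
  push Not at hcon
  have m1 : ‖ι (((y - y') / (x - x')) ^ 2 + (1 + l) - x - x')‖ ≤ M' := by
    exact (hcon.1 _ _ H1 e1).trans hMM.le
  have m2 : ‖ι (((y + y') / (x - x')) ^ 2 + (1 + l) - x - x')‖ ≤ M' := by
    have := (hcon.2 _ _ H2 e2).trans hMM.le
    rwa [sub_neg_eq_add] at this
  have m3 : ∀ z : AlgebraicClosure ℚ, ‖ι z‖ ≤ M' → ‖ι (z - 1)‖ ≤ M' := by
    intro z hz
    rw [map_sub, map_one]
    refine (hNS _ _).trans (max_le hz ?_)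
    rw [norm_one]; exact hM1
  have hbig : ∀ N : AlgebraicClosure ℚ, c ≤ ‖ι N‖ → M' ^ 2 < ‖ι ((N / (x - x')) ^ 2)‖ := by
    intro N hN
    have h3 : M' < ‖ι (N / (x - x'))‖ := by
      rw [map_div₀, norm_div, lt_div_iff₀ hdn]
      have : ‖ι (x - x')‖ < c / M' := by rw [map_sub]; exact hδ2
      rw [lt_div_iff₀ (by linarith)] at this
      linarith
    rw [map_pow, norm_pow]
    exact pow_lt_pow_left₀ h3 (by linarith) (by norm_num)
  rcases le_max_iff.1 hN with h3 | h3
  · have h4 := hbig _ h3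
    rw [← near_prod hd hy hy', map_mul, norm_mul] at h4
    nlinarith [norm_nonneg (ι (((y - y') / (x - x')) ^ 2 + (1 + l) - x - x')),
      norm_nonneg (ι (((y + y') / (x - x')) ^ 2 + (1 + l) - x - x'))]
  · have h4 := hbig _ h3
    rw [← near_prod1 hd hy hy', map_mul, norm_mul] at h4
    have m4 := m3 _ m1
    have m5 := m3 _ m2
    nlinarith [norm_nonneg (ι (((y - y') / (x - x')) ^ 2 + (1 + l) - x - x' - 1)),
      norm_nonneg (ι (((y + y') / (x - x')) ^ 2 + (1 + l) - x - x' - 1))]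


/-- Some multiple of a point of infinite order is as close to the origin as we want. -/
theorem exists_near (ι : AlgebraicClosure ℚ →+* PadicAlgCl 2) {l : AlgebraicClosure ℚ}
    (h0 : l ≠ 0) (h1 : l ≠ 1) (P : (leg l).toAffine.Point) (hP : ∀ n : ℤ, n ≠ 0 → n • P ≠ 0)
    (M : ℝ) : ∃ n : ℕ, 0 < n ∧ ∃ x y h, n • P = .some x y h ∧ M < ‖ι x‖ := by
  have hleg : IsLeg (leg l) l := IsLeg.leg h0 h1
  have hPn : ∀ n : ℕ, 0 < n → n • P ≠ 0 := by
    intro n hn
    have := hP n (by exact_mod_cast hn.ne')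
    rwa [natCast_zsmul] at this
  obtain ⟨x0, y0, hxy0, hP0⟩ : ∃ x0 y0 h, P = .some x0 y0 h := by
    have hP1 : P ≠ 0 := by
      intro h
      exact hPn 1 one_pos (by rw [h]; exact nsmul_zero 1)
    rcases P with _ | ⟨x, y, h⟩
    · exact absurd rfl hP1
    · exact ⟨x, y, h, rfl⟩
  have hE0 : y0 ^ 2 = x0 * (x0 - 1) * (x0 - l) := (hleg.nonsingular x0 y0).1 hxy0
  -- the local field
  set F : IntermediateField ℚ_[2] (PadicAlgCl 2) :=
    IntermediateField.adjoin ℚ_[2] {ι l, ι x0, ι y0} with hF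
  have hFfin : FiniteDimensional ℚ_[2] F := by
    refine IntermediateField.finiteDimensional_adjoin fun x _ => ?_
    exact (PadicAlgCl.isAlgebraic 2).isAlgebraic x |>.isIntegral
  have hFs : ∀ z ∈ ({ι l, ι x0, ι y0} : Set (PadicAlgCl 2)), z ∈ F := fun z hz =>
    IntermediateField.subset_adjoin ℚ_[2] _ hz
  set K0 : Subfield (AlgebraicClosure ℚ) := Subfield.comap ι F.toSubfield with hK0
  have hK0mem : ∀ z, z ∈ K0 ↔ ι z ∈ F := fun z => Iff.rfl
  have hl : l ∈ K0 := (hK0mem l).2 (hFs _ (by simp))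
  have hx0 : x0 ∈ K0 := (hK0mem x0).2 (hFs _ (by simp))
  have hy0 : y0 ∈ K0 := (hK0mem y0).2 (hFs _ (by simp))
  have hlK0 : (⟨l, hl⟩ : K0) ≠ 0 := fun h => h0 (congrArg Subtype.val h)
  have hlK1 : (⟨l, hl⟩ : K0) ≠ 1 := fun h => h1 (congrArg Subtype.val h)
  have hns : (leg (⟨l, hl⟩ : K0)).toAffine.Nonsingular ⟨x0, hx0⟩ ⟨y0, hy0⟩ := by
    rw [(IsLeg.leg hlK0 hlK1).nonsingular]
    apply Subtype.ext
    simpa using hE0
  have hcoord : ∀ n : ℕ, ∃ x y h, (n + 1) • P = .some x y h ∧ ι x ∈ F := by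
    intro n
    rcases near_coord K0.subtype (⟨l, hl⟩ : K0) l rfl ⟨x0, hx0⟩ ⟨y0, hy0⟩ hns hxy0 (n + 1) with
      e | ⟨X, Y, H, e⟩
    · rw [hP0] at hPn
      exact absurd e (hPn _ (Nat.succ_pos n))
    · refine ⟨_, _, H, ?_, X.2⟩
      rw [hP0]
      exact e
  choose xs ys hs hxs hxF using hcoord
  -- the abscissas are distinct
  have hinj : Function.Injective xs := by
    intro a b hab
    have ha := (hleg.nonsingular _ _).1 (hs a)
    have hb := (hleg.nonsingular _ _).1 (hs b)
    have hyy : ys a ^ 2 = ys b ^ 2 := by rw [ha, hb, hab]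
    have hneg : ∀ x y, (leg l).toAffine.negY x y = -y := by
      intro x y
      unfold Affine.negY leg
      simp
    rcases sq_eq_sq_iff_eq_or_eq_neg.mp hyy with h | h
    · have e : (a + 1) • P = (b + 1) • P := by
        rw [hxs a, hxs b]
        simp only [Affine.Point.some.injEq]
        exact ⟨hab, h⟩
      by_contra hne
      apply hP ((a : ℤ) - b) (by omega)
      rw [sub_smul, natCast_zsmul, natCast_zsmul, sub_eq_zero]
      rw [add_smul, add_smul] at e
      exact add_right_cancel e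
    · exfalso
      have e : (a + 1) • P = -((b + 1) • P) := by
        rw [hxs a, hxs b, Affine.Point.neg_some]
        simp only [Affine.Point.some.injEq]
        exact ⟨hab, by rw [hneg]; exact h⟩
      apply hPn ((a + 1) + (b + 1)) (by omega)
      rw [add_smul (a + 1), e]
      abel
  -- some multiple is close
  obtain ⟨n, hn0, x, y, h, hnP, hx⟩ : ∃ n : ℕ, 0 < n ∧ ∃ x y h, n • P = .some x y h ∧
      max 1 ‖ι l‖ < ‖ι x‖ := by
    by_contra hcon
    push Not at hcon
    have hbd : ∀ n, ‖ι (xs n)‖ ≤ max 1 ‖ι l‖ := fun n =>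
      hcon (n + 1) (Nat.succ_pos n) _ _ (hs n) (hxs n)
    obtain ⟨δ, hδ, hclose⟩ := near_close ι h0 h1 (max 1 ‖ι l‖) (le_max_left _ _)
      (le_max_right _ _) (max 1 ‖ι l‖)
    -- compactness
    have hcomp : IsCompact ((fun z : F.toSubalgebra.toSubmodule => (z : PadicAlgCl 2)) ''
        Metric.closedBall 0 (max 1 ‖ι l‖)) := by
      have hprop : ProperSpace F.toSubalgebra.toSubmodule := by
        have : FiniteDimensional ℚ_[2] F.toSubalgebra.toSubmodule := hFfin
        exact FiniteDimensional.proper ℚ_[2] _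
      exact (isCompact_closedBall _ _).image continuous_subtype_val
    have hsub : (Set.range fun n => ι (xs n)) ⊆ ((fun z : F.toSubalgebra.toSubmodule =>
        (z : PadicAlgCl 2)) '' Metric.closedBall 0 (max 1 ‖ι l‖)) := by
      rintro _ ⟨n, rfl⟩
      refine ⟨⟨ι (xs n), hxF n⟩, ?_, rfl⟩
      rw [mem_closedBall_zero_iff]
      exact hbd n
    have hinf : (Set.range fun n => ι (xs n)).Infinite :=
      Set.infinite_range_of_injective (ι.injective.comp hinj)
    obtain ⟨z, _, hz⟩ := hinf.exists_accPt_of_subset_isCompact hcomp hsub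
    rw [accPt_iff_nhds] at hz
    obtain ⟨_, ⟨hz1, ⟨a, rfl⟩⟩, hne1⟩ := hz (Metric.ball z (δ / 2))
      (Metric.ball_mem_nhds z (by linarith))
    simp only at hz1 hne1
    obtain ⟨_, ⟨hz2, ⟨b, rfl⟩⟩, hne2⟩ := hz (Metric.ball z (min (δ / 2) (dist (ι (xs a)) z)))
      (Metric.ball_mem_nhds z (lt_min (by linarith) (dist_pos.2 hne1)))
    simp only [Metric.mem_ball, lt_min_iff] at hz1 hz2
    have hab : xs a ≠ xs b := by
      intro hab
      rw [hab] at hz2
      exact lt_irrefl _ hz2.2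
    have hdist : ‖ι (xs a) - ι (xs b)‖ < δ := by
      rw [← dist_eq_norm]
      have := dist_triangle_right (ι (xs a)) (ι (xs b)) z
      linarith [hz2.1]
    rcases hclose _ _ _ _ (hs a) (hs b) hab (hbd a) (hbd b) hdist with
      ⟨X, Y, H, e, hX⟩ | ⟨X, Y, H, e, hX⟩
    · rw [← hxs a, ← hxs b, ← add_smul] at e
      exact absurd (hcon _ (by omega) X Y H e) (not_le.2 hX)
    · rw [← hxs a, ← hxs b] at e
      have hne : a ≠ b := fun h => hab (by rw [h])
      rcases lt_or_gt_of_ne hne with hlt | hlt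
      · have e2 : ((b + 1) - (a + 1)) • P = -(Affine.Point.some X Y H) := by
          rw [← e, neg_sub, sub_nsmul _ (by omega)]
          rfl
        rw [Affine.Point.neg_some] at e2
        exact absurd (hcon _ (by omega) _ _ _ e2) (not_le.2 hX)
      · have e2 : ((a + 1) - (b + 1)) • P = Affine.Point.some X Y H := by
          rw [← e, sub_nsmul _ (by omega)]
          rfl
        exact absurd (hcon _ (by omega) _ _ _ e2) (not_le.2 hX)
  -- duplication
  have hstep : ∀ j : ℕ, ∃ x' y' h', (2 ^ j * n : ℕ) • P = .some x' y' h' ∧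
      ‖ι x'‖ = 4 ^ j * ‖ι x‖ := by
    intro j
    induction j with
    | zero => exact ⟨x, y, h, by simpa using hnP, by simp⟩
    | succ j ih =>
      obtain ⟨x', y', h', e, hn⟩ := ih
      have hx' : max 1 ‖ι l‖ < ‖ι x'‖ := by
        rw [hn]
        refine hx.trans_le ?_
        have : (1 : ℝ) ≤ 4 ^ j := one_le_pow₀ (by norm_num)
        nlinarith [norm_nonneg (ι x)]
      obtain ⟨x'', y'', h'', e', hn'⟩ := double_step ι h0 h1 x' y' h' hx'
      refine ⟨x'', y'', h'', ?_, ?_⟩
      · rw [pow_succ, mul_right_comm, mul_comm, mul_smul, e, e']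
      · rw [hn', hn]; ring
  obtain ⟨j, hj⟩ : ∃ j : ℕ, M < 4 ^ j := pow_unbounded_of_one_lt M (by norm_num)
  obtain ⟨x', y', h', e, hn⟩ := hstep j
  refine ⟨2 ^ j * n, by positivity, x', y', h', e, ?_⟩
  rw [hn]
  have h3 : 1 < ‖ι x‖ := (le_max_left _ _).trans_lt hx
  have h4 : (0 : ℝ) < 4 ^ j := by positivity
  nlinarith

end Pool.Agent.ZC
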