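import Pool.Agent.ZC.Loc

/-!
# The divisor of `(s - s0) / (s - s1)` on the curve `Y² = H(s)`
-/

set_option autoImplicit false

noncomputable section

namespace Pool.Agent.ZC

open Polynomial WeierstrassCurve
open scoped Classical

private lemma quad_poly {k : Type} [Field k] (H : k[X]) (s1 : k)
    (h1 : H.eval s1 = 0) (h1' : (derivative H).eval s1 ≠ 0) :
    (X ^ 2 - C H : k[X][X]).Monic ∧ (X ^ 2 - C H : k[X][X]).natDegree = 2 ∧
      Prime (X ^ 2 - C H : k[X][X]) := by
  have hm : (X ^ 2 - C H : k[X][X]).Monic := monic_X_pow_sub_C H (by norm_num)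
  have hd : (X ^ 2 - C H : k[X][X]).natDegree = 2 := natDegree_X_pow_sub_C
  refine ⟨hm, hd, ?_⟩
  apply Irreducible.prime
  rw [hm.irreducible_iff_roots_eq_zero_of_degree_le_three (by rw [hd]) (by rw [hd]; norm_num)]
  rw [Multiset.eq_zero_iff_forall_notMem]
  intro h hh
  have h2 := (mem_roots hm.ne_zero).1 hh
  rw [IsRoot.def, eval_sub, eval_pow, eval_X, eval_C, sub_eq_zero] at h2
  apply h1'
  rw [← h2] at h1 ⊢
  rw [eval_pow] at h1
  have h3 : h.eval s1 = 0 := pow_eq_zero_iff (two_ne_zero) |>.1 h1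
  rw [derivative_pow, eval_mul, eval_mul, eval_pow, h3]
  simp

private lemma quad_ring {k : Type} [Field k] (H : k[X]) (s1 : k)
    (h1 : H.eval s1 = 0) (h1' : (derivative H).eval s1 ≠ 0) :
    ∃ (R : Type) (_ : CommRing R) (_ : IsDomain R) (_ : Algebra k R) (φ : k[X] →ₐ[k] R) (Y : R),
      Function.Injective φ ∧ Y ^ 2 = φ H ∧ (∀ f : R, ∃ p q : k[X], f = φ p + φ q * Y) ∧
      (∀ p q : k[X], φ p - φ q * Y = 0 → φ p + φ q * Y = 0) ∧
      (∀ a b : k, b ^ 2 = H.eval a → ∃ e : R →ₐ[k] k, (∀ p : k[X], e (φ p) = p.eval a) ∧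
        e Y = b) := by
  obtain ⟨hm, hd, hp⟩ := quad_poly H s1 h1 h1'
  set f : k[X][X] := X ^ 2 - C H with hf
  have hroot : (AdjoinRoot.root f) ^ 2 = AdjoinRoot.of f H := by
    have h2 := AdjoinRoot.eval₂_root f
    rw [hf, eval₂_sub, eval₂_pow, eval₂_X, eval₂_C, sub_eq_zero] at h2
    exact h2
  refine ⟨AdjoinRoot f, inferInstance, AdjoinRoot.isDomain_of_prime hp, inferInstance,
    IsScalarTower.toAlgHom k k[X] (AdjoinRoot f), AdjoinRoot.root f, ?_, hroot, ?_, ?_, ?_⟩
  · intro a b hab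
    apply AdjoinRoot.of.injective_of_degree_ne_zero (f := f)
    · rw [degree_eq_natDegree hm.ne_zero, hd]
      norm_num
    · exact hab
  · intro x
    obtain ⟨g, rfl⟩ := AdjoinRoot.mk_surjective x
    have h2 : AdjoinRoot.mk f g = AdjoinRoot.mk f (g %ₘ f) := by
      rw [AdjoinRoot.mk_eq_mk]
      refine ⟨g /ₘ f, ?_⟩
      have := modByMonic_add_div g f
      linear_combination -this
    have h5 : (g %ₘ f).natDegree < 2 := by
      have h4 := natDegree_modByMonic_lt g hm (fun h => by rw [h, natDegree_one] at hd; omega)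
      rwa [hd] at h4
    refine ⟨(g %ₘ f).coeff 0, (g %ₘ f).coeff 1, ?_⟩
    rw [h2]
    conv_lhs => rw [as_sum_range' (g %ₘ f) 2 h5]
    rw [Finset.sum_range_succ, Finset.sum_range_one, map_add]
    show _ = AdjoinRoot.of f _ + AdjoinRoot.of f _ * AdjoinRoot.root f
    rw [← C_mul_X_pow_eq_monomial, ← C_mul_X_pow_eq_monomial, map_mul, map_mul, map_pow, map_pow,
      AdjoinRoot.mk_X, AdjoinRoot.mk_C, AdjoinRoot.mk_C]
    simp
  · intro p q hpq
    have h2 : f.eval₂ (AdjoinRoot.of f) (-(AdjoinRoot.root f)) = 0 := by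
      rw [hf, eval₂_sub, eval₂_pow, eval₂_X, eval₂_C, neg_sq, sub_eq_zero]
      exact hroot
    have h3 := congrArg (AdjoinRoot.lift (AdjoinRoot.of f) (-(AdjoinRoot.root f)) h2) hpq
    have h4 : ∀ r : k[X], AdjoinRoot.lift (AdjoinRoot.of f) (-(AdjoinRoot.root f)) h2
        (IsScalarTower.toAlgHom k k[X] (AdjoinRoot f) r) =
          IsScalarTower.toAlgHom k k[X] (AdjoinRoot f) r := by
      intro r
      exact AdjoinRoot.lift_of h2
    rw [map_sub, map_mul, map_zero, h4, h4, AdjoinRoot.lift_root] at h3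
    rw [← h3]
    ring
  · intro a b hab
    have h2 : f.eval₂ ((aeval a : k[X] →ₐ[k] k) : k[X] →+* k) b = 0 := by
      rw [hf, eval₂_sub, eval₂_pow, eval₂_X, eval₂_C, hab]
      simp
    refine ⟨AdjoinRoot.liftAlgHom f (aeval a) b h2, ?_, AdjoinRoot.liftAlgHom_root _ _ _ _⟩
    intro p
    have h3 := AdjoinRoot.liftAlgHom_of f (aeval a : k[X] →ₐ[k] k) b h2 p
    rw [coe_aeval_eq_eval] at h3
    exact h3

section Places

variable {k F : Type} [Field k] [Field F] [Algebra k F]

private lemma quad_const {O : ValuationSubring F} (hO : IsPlace k O) (a : k) :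
    O.valuation (algebraMap k F a) ≤ 1 :=
  (O.valuation_le_one_iff _).2 (hO.1 a)

private lemma quad_const_eq {O : ValuationSubring F} (hO : IsPlace k O) {a : k} (ha : a ≠ 0) :
    O.valuation (algebraMap k F a) = 1 := by
  apply le_antisymm (quad_const hO a)
  have h1 := quad_const hO a⁻¹
  rw [map_inv₀, map_inv₀] at h1
  have h2 : 0 < O.valuation (algebraMap k F a) := by
    rw [zero_lt_iff, Valuation.ne_zero_iff]
    exact (_root_.map_ne_zero _).2 ha
  exact (inv_le_one₀ h2).1 h1

private lemma quad_const_lt {O : ValuationSubring F} (hO : IsPlace k O) {a : k}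
    (h : O.valuation (algebraMap k F a) < 1) : a = 0 := by
  by_contra ha
  rw [quad_const_eq hO ha] at h
  exact lt_irrefl _ h

private lemma quad_poly_le {O : ValuationSubring F} (hO : IsPlace k O) {s : F}
    (hs : O.valuation s ≤ 1) (p : k[X]) : O.valuation (aeval s p) ≤ 1 := by
  induction p using Polynomial.induction_on' with
  | add p q hp hq =>
    rw [map_add]
    exact O.valuation.map_add_le hp hq
  | monomial n a =>
    rw [aeval_monomial, map_mul, map_pow]
    exact mul_le_one' (quad_const hO a) (pow_le_one' hs n)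

private lemma quad_poly_lt {O : ValuationSubring F} (hO : IsPlace k O) {s : F} {a : k}
    (hs : O.valuation (s - algebraMap k F a) < 1) {p : k[X]} (hp : p.eval a = 0) :
    O.valuation (aeval s p) < 1 := by
  have hs1 : O.valuation s ≤ 1 := by
    have h1 : s = (s - algebraMap k F a) + algebraMap k F a := by ring
    rw [h1]
    exact O.valuation.map_add_le hs.le (quad_const hO a)
  obtain ⟨q, rfl⟩ := dvd_iff_isRoot.2 hp
  rw [map_mul, map_mul, map_sub, aeval_X, aeval_C]
  exact mul_lt_one_of_lt_of_le hs (quad_poly_le hO hs1 q)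

end Places

section Loc

variable {k R : Type} [Field k] [CommRing R] [IsDomain R] [Algebra k R] {H : k[X]}
  {φ : k[X] →ₐ[k] R} {Y : R}

private lemma quad_norm (hY : Y ^ 2 = φ H) (hgen : ∀ f : R, ∃ p q : k[X], f = φ p + φ q * Y)
    (hconj : ∀ p q : k[X], φ p - φ q * Y = 0 → φ p + φ q * Y = 0) (f : R) (hf : f ≠ 0) :
    ∃ (f' : R) (N : k[X]), N ≠ 0 ∧ f * f' = φ N := by
  obtain ⟨p, q, rfl⟩ := hgen f
  refine ⟨φ p - φ q * Y, p ^ 2 - q ^ 2 * H, ?_, ?_⟩
  · intro h
    have h1 : (φ p + φ q * Y) * (φ p - φ q * Y) = φ (p ^ 2 - q ^ 2 * H) := by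
      rw [map_sub, map_mul, map_pow, map_pow, ← hY]
      ring
    rw [h, map_zero, mul_eq_zero] at h1
    rcases h1 with h1 | h1
    · exact hf h1
    · exact hf (hconj p q h1)
  · rw [map_sub, map_mul, map_pow, map_pow, ← hY]
    ring

private lemma quad_loc1 [CharZero k] (hφ : Function.Injective φ) (hY : Y ^ 2 = φ H)
    (hgen : ∀ f : R, ∃ p q : k[X], f = φ p + φ q * Y)
    (hconj : ∀ p q : k[X], φ p - φ q * Y = 0 → φ p + φ q * Y = 0) {a b : k} (hb : b ≠ 0)
    (hab : b ^ 2 = H.eval a) (e : R →ₐ[k] k) (he : ∀ p, e (φ p) = p.eval a) (heY : e Y = b) :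
    LocData e (φ (X - C a)) := by
  refine ⟨?_, ?_, ?_, ?_⟩
  · intro h
    rw [← map_zero φ] at h
    exact X_sub_C_ne_zero a (hφ h)
  · rw [he]
    simp
  · intro f hf
    obtain ⟨p, q, rfl⟩ := hgen f
    rw [map_add, map_mul, he, he, heY] at hf
    have h1 : (p + q * C b).eval a = 0 := by
      rw [eval_add, eval_mul, eval_C]
      exact hf
    have h2 : (p * C b + q * H).eval a = 0 := by
      rw [eval_add, eval_mul, eval_mul, eval_C, ← hab]
      linear_combination b * hf
    obtain ⟨g1, hg1⟩ := dvd_iff_isRoot.2 h1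
    obtain ⟨g2, hg2⟩ := dvd_iff_isRoot.2 h2
    refine ⟨φ g1 * Y + φ g2, Y + φ (C b), ?_, ?_⟩
    · rw [map_add, heY, he, eval_C]
      intro h
      have h3 : (2 : k) * b = 0 := by linear_combination h
      rcases mul_eq_zero.1 h3 with h4 | h4
      · exact two_ne_zero h4
      · exact hb h4
    · have h3 := congrArg φ hg1
      have h4 := congrArg φ hg2
      simp only [map_mul, map_add] at h3 h4
      linear_combination Y * h3 + h4 + φ q * hY
  · intro f hf
    obtain ⟨f', N, hN, hff⟩ := quad_norm hY hgen hconj f hf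
    obtain ⟨N0, hN0, hN1⟩ := exists_eq_pow_rootMultiplicity_mul_and_not_dvd N hN a
    refine ⟨N.rootMultiplicity a, f', φ N0, ?_, ?_⟩
    · rw [he]
      intro h
      exact hN1 (dvd_iff_isRoot.2 h)
    · rw [hff, ← map_pow, ← map_mul, ← hN0]

private lemma quad_loc2 (hφ : Function.Injective φ) (hY : Y ^ 2 = φ H)
    (hgen : ∀ f : R, ∃ p q : k[X], f = φ p + φ q * Y)
    (hconj : ∀ p q : k[X], φ p - φ q * Y = 0 → φ p + φ q * Y = 0) {s1 : k} {H1 : k[X]}
    (hH1 : H = (X - C s1) * H1) (hH1' : H1.eval s1 ≠ 0) (e : R →ₐ[k] k)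
    (he : ∀ p, e (φ p) = p.eval s1) (heY : e Y = 0) :
    LocData e Y := by
  have hH0 : H ≠ 0 := by
    rw [hH1]
    refine mul_ne_zero (X_sub_C_ne_zero _) ?_
    rintro rfl
    simp at hH1'
  refine ⟨?_, heY, ?_, ?_⟩
  · intro h
    rw [h] at hY
    apply hH0
    apply hφ
    rw [← hY, map_zero]
    simp
  · intro f hf
    obtain ⟨p, q, rfl⟩ := hgen f
    rw [map_add, map_mul, he, he, heY, mul_zero, add_zero] at hf
    obtain ⟨p1, rfl⟩ := dvd_iff_isRoot.2 hf
    refine ⟨φ p1 * Y + φ q * φ H1, φ H1, by rw [he]; exact hH1', ?_⟩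
    have h2 : Y ^ 2 = φ (X - C s1) * φ H1 := by rw [hY, hH1, map_mul]
    rw [map_mul]
    linear_combination (-φ p1) * h2
  · intro f hf
    obtain ⟨f', N, hN, hff⟩ := quad_norm hY hgen hconj f hf
    obtain ⟨N0, hN0, hN1⟩ := exists_eq_pow_rootMultiplicity_mul_and_not_dvd N hN s1
    refine ⟨2 * N.rootMultiplicity s1, f' * φ H1 ^ (N.rootMultiplicity s1), φ N0, ?_, ?_⟩
    · rw [he]
      intro h
      exact hN1 (dvd_iff_isRoot.2 h)
    · have h2 : Y ^ 2 = φ (X - C s1) * φ H1 := by rw [hY, hH1, map_mul]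
      have h3 : φ N = φ (X - C s1) ^ (N.rootMultiplicity s1) * φ N0 := by
        rw [← map_pow, ← map_mul, ← hN0]
      rw [pow_mul, h2, ← mul_assoc, hff, h3, mul_pow]
      ring

end Loc

section Frac

variable {k R F : Type} [Field k] [CommRing R] [IsDomain R] [Algebra k R] [Field F] [Algebra R F]
  [IsFractionRing R F] [Algebra k F] [IsScalarTower k R F] {H : k[X]} {φ : k[X] →ₐ[k] R} {Y : R}

private lemma quad_aeval (p : k[X]) :
    aeval (algebraMap R F (φ X)) p = algebraMap R F (φ p) := by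
  rw [aeval_algebraMap_apply]
  congr 1
  have h : (aeval (φ X) : k[X] →ₐ[k] R) = φ := by
    apply Polynomial.algHom_ext
    rw [aeval_X]
  rw [h]

private lemma quad_curve (hφ : Function.Injective φ) (hY : Y ^ 2 = φ H)
    (hgen : ∀ f : R, ∃ p q : k[X], f = φ p + φ q * Y) : IsCurve k F := by
  have hinj : Function.Injective (algebraMap R F) := IsFractionRing.injective R F
  set s := algebraMap R F (φ X) with hs
  set y := algebraMap R F Y with hy
  refine ⟨s, ?_, ?_⟩
  · rw [transcendental_iff]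
    intro p hp
    rw [hs, quad_aeval] at hp
    apply hφ
    apply hinj
    rw [hp, map_zero, map_zero]
  · have hmem : ∀ p : k[X], aeval s p ∈ IntermediateField.adjoin k {s} := by
      intro p
      exact IntermediateField.algebra_adjoin_le_adjoin k {s} (aeval_mem_adjoin_singleton k s)
    have hint : IsIntegral (IntermediateField.adjoin k {s}) y := by
      refine ⟨X ^ 2 - C ⟨aeval s H, hmem H⟩, monic_X_pow_sub_C _ (by norm_num), ?_⟩
      rw [eval₂_sub, eval₂_pow, eval₂_X, eval₂_C, sub_eq_zero]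
      show y ^ 2 = aeval s H
      rw [hs, quad_aeval, ← hY, map_pow]
    have hfd := IntermediateField.adjoin.finiteDimensional hint
    have htop : IntermediateField.adjoin (IntermediateField.adjoin k {s}) {y} = ⊤ := by
      rw [eq_top_iff]
      intro x _
      have hR : ∀ a : R, algebraMap R F a ∈
          IntermediateField.adjoin (IntermediateField.adjoin k {s}) {y} := by
        intro a
        obtain ⟨p, q, rfl⟩ := hgen a
        rw [map_add, map_mul, ← quad_aeval p, ← quad_aeval q]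
        have h1 : ∀ p : k[X], aeval s p ∈
            IntermediateField.adjoin (IntermediateField.adjoin k {s}) {y} := fun p =>
          IntermediateField.algebraMap_mem
            (IntermediateField.adjoin (IntermediateField.adjoin k {s}) {y}) ⟨aeval s p, hmem p⟩
        exact add_mem (h1 p) (mul_mem (h1 q) (IntermediateField.mem_adjoin_simple_self _ _))
      obtain ⟨a, b, _, rfl⟩ := IsFractionRing.div_surjective (A := R) x
      exact div_mem (hR a) (hR b)
    rw [htop] at hfd
    exact Module.Finite.equiv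
      (IntermediateField.topEquiv (F := IntermediateField.adjoin k {s}) (E := F)).toLinearEquiv

private lemma quad_mem (hgen : ∀ f : R, ∃ p q : k[X], f = φ p + φ q * Y)
    {O : ValuationSubring F} (hO : IsPlace k O)
    (h1 : O.valuation (algebraMap R F (φ X)) ≤ 1) (h2 : O.valuation (algebraMap R F Y) ≤ 1)
    (f : R) : algebraMap R F f ∈ O := by
  obtain ⟨p, q, rfl⟩ := hgen f
  rw [← O.valuation_le_one_iff, map_add, map_mul, ← quad_aeval p, ← quad_aeval q]
  apply O.valuation.map_add_le
  · exact quad_poly_le hO h1 p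
  · rw [map_mul]
    exact mul_le_one' (quad_poly_le hO h1 q) h2

private lemma quad_lt (hgen : ∀ f : R, ∃ p q : k[X], f = φ p + φ q * Y)
    {O : ValuationSubring F} (hO : IsPlace k O) {a b : k}
    (h1 : O.valuation (algebraMap R F (φ X) - algebraMap k F a) < 1)
    (h2 : O.valuation (algebraMap R F Y - algebraMap k F b) < 1)
    (e : R →ₐ[k] k) (he : ∀ p, e (φ p) = p.eval a) (heY : e Y = b)
    (f : R) (hf : e f = 0) : O.valuation (algebraMap R F f) < 1 := by
  have hs1 : O.valuation (algebraMap R F (φ X)) ≤ 1 := by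
    have h3 : algebraMap R F (φ X) = (algebraMap R F (φ X) - algebraMap k F a) +
      algebraMap k F a := by ring
    rw [h3]
    exact O.valuation.map_add_le h1.le (quad_const hO a)
  obtain ⟨p, q, rfl⟩ := hgen f
  rw [map_add, map_mul, he, he, heY] at hf
  have h3 : algebraMap R F (φ p + φ q * Y) = aeval (algebraMap R F (φ X)) (p + q * C b) +
      aeval (algebraMap R F (φ X)) q * (algebraMap R F Y - algebraMap k F b) := by
    rw [map_add, map_mul, ← quad_aeval p, ← quad_aeval q, map_add, map_mul, aeval_C]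
    ring
  rw [h3]
  apply O.valuation.map_add_lt
  · apply quad_poly_lt hO h1
    rw [eval_add, eval_mul, eval_C]
    exact hf
  · rw [map_mul, mul_comm]
    exact mul_lt_one_of_lt_of_le h2 (quad_poly_le hO hs1 q)

end Frac

theorem he {k : Type} [Field k] [CharZero k] (H : k[X]) (s0 s1 c : k) (hc : c ≠ 0)
    (hc2 : c ^ 2 = H.eval s0) (h1 : H.eval s1 = 0) (h1' : (derivative H).eval s1 ≠ 0) :
    ∃ (F : Type) (_ : Field F) (_ : Algebra k F) (s Y : F) (O₁ O₂ O₃ : ValuationSubring F),
      Y ^ 2 = aeval s H ∧ IsPlace k O₁ ∧ IsPlace k O₂ ∧ IsPlace k O₃ ∧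
      O₁.valuation (s - algebraMap k F s0) < 1 ∧ O₁.valuation (Y - algebraMap k F c) < 1 ∧
      O₂.valuation (s - algebraMap k F s0) < 1 ∧ O₂.valuation (Y + algebraMap k F c) < 1 ∧
      O₃.valuation (s - algebraMap k F s1) < 1 ∧ O₃.valuation Y < 1 ∧ s ≠ algebraMap k F s1 ∧
      ∀ (W₁ W₂ : WeierstrassCurve k) (A : (W₁⁄F).toAffine.Point) (B : (W₂⁄F).toAffine.Point)
        (p₁ p₂ p₃ : W₁.toAffine.Point) (q₁ q₂ q₃ : W₂.toAffine.Point),
        SpecAt O₁ W₁ A p₁ → SpecAt O₂ W₁ A p₂ → SpecAt O₃ W₁ A p₃ →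
        SpecAt O₁ W₂ B q₁ → SpecAt O₂ W₂ B q₂ → SpecAt O₃ W₂ B q₃ →
        Finsupp.single (p₁, q₁) 1 + Finsupp.single (p₂, q₂) 1 - Finsupp.single (p₃, q₃) 2 ∈
          RatEq W₁ W₂ := by
  obtain ⟨R, _, _, _, φ, Y, hφ, hY, hgen, hconj, hev⟩ := quad_ring H s1 h1 h1'
  obtain ⟨H1, hH1⟩ := dvd_iff_isRoot.2 h1
  have hH1' : H1.eval s1 ≠ 0 := by
    rw [hH1, derivative_mul] at h1'
    intro h
    apply h1'
    simp [h]
  obtain ⟨H0, hH0⟩ : (X - C s0) ∣ H - C (c ^ 2) := by
    rw [dvd_iff_isRoot, IsRoot.def, eval_sub, eval_C, hc2, sub_self]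
  have hs01 : s0 ≠ s1 := by
    rintro rfl
    rw [h1] at hc2
    exact hc (pow_eq_zero_iff two_ne_zero |>.1 hc2)
  obtain ⟨e₁, he₁, heY₁⟩ := hev s0 c hc2
  obtain ⟨e₂, he₂, heY₂⟩ := hev s0 (-c) (by rw [neg_sq]; exact hc2)
  obtain ⟨e₃, he₃, heY₃⟩ := hev s1 0 (by rw [h1]; simp)
  let F := FractionRing R
  have hinj : Function.Injective (algebraMap R F) := IsFractionRing.injective R F
  obtain ⟨O₁, hO₁, hm₁, hv₁, hu₁, hun₁⟩ := exists_place (F := F) e₁ _
    (quad_loc1 hφ hY hgen hconj hc hc2 e₁ he₁ heY₁)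
  obtain ⟨O₂, hO₂, hm₂, hv₂, hu₂, hun₂⟩ := exists_place (F := F) e₂ _
    (quad_loc1 hφ hY hgen hconj (neg_ne_zero.2 hc) (by rw [neg_sq]; exact hc2) e₂ he₂ heY₂)
  obtain ⟨O₃, hO₃, hm₃, hv₃, hu₃, hun₃⟩ := exists_place (F := F) e₃ _
    (quad_loc2 hφ hY hgen hconj hH1 hH1' e₃ he₃ heY₃)
  set s : F := algebraMap R F (φ X) with hs
  set y : F := algebraMap R F Y with hy
  have hsub : ∀ a : k, s - algebraMap k F a = algebraMap R F (φ (X - C a)) := by
    intro a
    rw [← quad_aeval, map_sub, aeval_X, aeval_C]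
  have hy2 : y ^ 2 = aeval s H := by
    rw [hs, quad_aeval, ← hY, map_pow]
  have hsne : ∀ a : k, s - algebraMap k F a ≠ 0 := by
    intro a
    rw [hsub, Ne, map_eq_zero_iff _ hinj, map_eq_zero_iff _ hφ]
    exact X_sub_C_ne_zero a
  have hy0 : y ≠ 0 := by
    intro h
    have h2 : aeval s H = 0 := by rw [← hy2, h]; simp
    rw [hH1, map_mul, map_sub, aeval_X, aeval_C, mul_eq_zero] at h2
    rcases h2 with h2 | h2
    · exact hsne _ h2
    · rw [hs, quad_aeval, map_eq_zero_iff _ hinj, map_eq_zero_iff _ hφ] at h2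
      rw [h2] at hH1'
      simp at hH1'
  have hv1s : O₁.valuation (s - algebraMap k F s0) < 1 := by
    rw [hsub, hv₁, he₁]; simp
  have hv2s : O₂.valuation (s - algebraMap k F s0) < 1 := by
    rw [hsub, hv₂, he₂]; simp
  have hv3s : O₃.valuation (s - algebraMap k F s1) < 1 := by
    rw [hsub, hv₃, he₃]; simp
  have hv1y : O₁.valuation (y - algebraMap k F c) < 1 := by
    have h2 : y - algebraMap k F c = algebraMap R F (Y - φ (C c)) := by
      rw [map_sub, ← quad_aeval, aeval_C]
    rw [h2, hv₁, map_sub, heY₁, he₁]; simp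
  have hv2y : O₂.valuation (y + algebraMap k F c) < 1 := by
    have h2 : y + algebraMap k F c = algebraMap R F (Y + φ (C c)) := by
      rw [map_add, ← quad_aeval, aeval_C]
    rw [h2, hv₂, map_add, heY₂, he₂]; simp
  have hv3y : O₃.valuation y < 1 := by
    rw [hy, hv₃, heY₃]
  have hdiff : ∀ (O : ValuationSubring F), IsPlace k O → ∀ a b : k, a ≠ b →
      O.valuation (s - algebraMap k F a) < 1 → O.valuation (s - algebraMap k F b) = 1 := by
    intro O hO a b hab h2
    have h3 : s - algebraMap k F b = (s - algebraMap k F a) + algebraMap k F (a - b) := by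
      rw [map_sub]; ring
    rw [h3]
    have h4 := quad_const_eq hO (sub_ne_zero.2 hab)
    rw [← h4] at h2 ⊢
    exact O.valuation.map_add_eq_of_lt_right h2
  have h12 : O₁ ≠ O₂ := by
    intro h
    rw [← h] at hv2y
    have h3 : O₁.valuation (algebraMap k F (2 * c)) < 1 := by
      have h4 : algebraMap k F (2 * c) = (y + algebraMap k F c) - (y - algebraMap k F c) := by
        rw [map_mul, map_ofNat]; ring
      rw [h4]
      exact O₁.valuation.map_sub_lt hv2y hv1y
    have h5 := quad_const_lt hO₁ h3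
    exact (mul_ne_zero two_ne_zero hc) h5
  have h13 : O₁ ≠ O₃ := by
    intro h
    rw [← h] at hv3s
    have h3 := hdiff O₁ hO₁ s0 s1 hs01 hv1s
    rw [h3] at hv3s
    exact lt_irrefl _ hv3s
  have h23 : O₂ ≠ O₃ := by
    intro h
    rw [← h] at hv3s
    have h3 := hdiff O₂ hO₂ s0 s1 hs01 hv2s
    rw [h3] at hv3s
    exact lt_irrefl _ hv3s
  refine ⟨F, inferInstance, inferInstance, s, y, O₁, O₂, O₃, hy2, hO₁, hO₂, hO₃, hv1s, hv1y, hv2s,
    hv2y, hv3s, hv3y, sub_ne_zero.1 (hsne s1), ?_⟩
  intro W₁ W₂ A B p₁ p₂ p₃ q₁ q₂ q₃ a1 a2 a3 b1 b2 b3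
  apply AddSubgroup.subset_closure
  refine ⟨F, inferInstance, inferInstance, A, B,
    (s - algebraMap k F s0) / (s - algebraMap k F s1), {O₁, O₂, O₃},
    fun O => if O = O₃ then -2 else 1, fun O => if O = O₁ then p₁ else if O = O₂ then p₂ else p₃,
    fun O => if O = O₁ then q₁ else if O = O₂ then q₂ else q₃, quad_curve hφ hY hgen,
    div_ne_zero (hsne _) (hsne _), ?_, ?_, ?_⟩
  · -- other places
    intro O hO hOS
    have hOS1 : O ≠ O₁ := by rintro rfl; exact hOS (by simp)
    have hOS2 : O ≠ O₂ := by rintro rfl; exact hOS (by simp)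
    have hOS3 : O ≠ O₃ := by rintro rfl; exact hOS (by simp)
    by_cases hsO : O.valuation s ≤ 1
    · have hyO : O.valuation y ≤ 1 := by
        have h3 : O.valuation y ^ 2 ≤ 1 := by
          rw [← map_pow, hy2]
          exact quad_poly_le hO hsO H
        by_contra h4
        rw [not_le] at h4
        have h5 : 1 < O.valuation y ^ 2 := one_lt_pow₀ h4 two_ne_zero
        exact absurd h3 (not_le.2 h5)
      have hall := quad_mem (φ := φ) hgen hO hsO hyO
      have hle : ∀ a : k, O.valuation (s - algebraMap k F a) ≤ 1 := fun a =>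
        O.valuation.map_sub_le hsO (quad_const hO a)
      have h0 : O.valuation (s - algebraMap k F s0) = 1 := by
        by_contra h3
        have h4 : O.valuation (s - algebraMap k F s0) < 1 := lt_of_le_of_ne (hle s0) h3
        have h5 : O.valuation ((y - algebraMap k F c) * (y + algebraMap k F c)) < 1 := by
          have h6 : (y - algebraMap k F c) * (y + algebraMap k F c) = aeval s (H - C (c ^ 2)) := by
            rw [map_sub, ← hy2, aeval_C, map_pow]; ring
          rw [h6]
          apply quad_poly_lt hO h4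
          rw [eval_sub, eval_C, hc2, sub_self]
        have h7 : O.valuation (y - algebraMap k F c) < 1 ∨ O.valuation (y + algebraMap k F c) < 1 := by
          by_contra h8
          rw [not_or, not_lt, not_lt] at h8
          rw [map_mul] at h5
          exact absurd h5 (not_lt.2 (one_le_mul h8.1 h8.2))
        rcases h7 with h7 | h7
        · exact hOS1 (hun₁ O hO hall (quad_lt (φ := φ) hgen hO h4 h7 e₁ he₁ heY₁))
        · refine hOS2 (hun₂ O hO hall (quad_lt (φ := φ) hgen hO h4 ?_ e₂ he₂ heY₂))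
          rw [map_neg, sub_neg_eq_add]
          exact h7
      have h0' : O.valuation (s - algebraMap k F s1) = 1 := by
        by_contra h3
        have h4 : O.valuation (s - algebraMap k F s1) < 1 := lt_of_le_of_ne (hle s1) h3
        have h5 : O.valuation y < 1 := by
          have h6 : O.valuation y ^ 2 < 1 := by
            rw [← map_pow, hy2]
            exact quad_poly_lt hO h4 h1
          by_contra h8
          rw [not_lt] at h8
          exact absurd h6 (not_lt.2 (one_le_pow₀ h8))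
        refine hOS3 (hun₃ O hO hall (quad_lt (φ := φ) hgen hO h4 ?_ e₃ he₃ heY₃))
        rw [map_zero, sub_zero]
        exact h5
      rw [map_div₀, h0, h0', div_one]
    · rw [not_le] at hsO
      have h3 : ∀ a : k, O.valuation (s - algebraMap k F a) = O.valuation s := fun a =>
        O.valuation.map_sub_eq_of_lt_left ((quad_const hO a).trans_lt hsO)
      rw [map_div₀, h3, h3, div_self]
      exact (zero_lt_one.trans hsO).ne'
  · -- the three places
    intro O hO
    rw [Finset.mem_insert, Finset.mem_insert, Finset.mem_singleton] at hO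
    rcases hO with rfl | rfl | rfl
    · refine ⟨hO₁, ?_, by simpa using a1, by simpa using b1⟩
      show HasOrd O _ (if O = O₃ then -2 else 1)
      rw [if_neg h13]
      refine ⟨algebraMap R F (φ (X - C s0)), ?_, ?_, hu₁, ?_⟩
      · rw [← hsub]; exact hsne _
      · rw [← hsub]; exact hv1s
      · rw [map_div₀, hdiff O hO₁ s0 s1 hs01 hv1s, div_one, zpow_one, hsub]
    · refine ⟨hO₂, ?_, by simpa [h12.symm] using a2, by simpa [h12.symm] using b2⟩
      show HasOrd O _ (if O = O₃ then -2 else 1)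
      rw [if_neg h23]
      refine ⟨algebraMap R F (φ (X - C s0)), ?_, ?_, hu₂, ?_⟩
      · rw [← hsub]; exact hsne _
      · rw [← hsub]; exact hv2s
      · rw [map_div₀, hdiff O hO₂ s0 s1 hs01 hv2s, div_one, zpow_one, hsub]
    · refine ⟨hO₃, ?_, by simpa [h13.symm, h23.symm] using a3,
        by simpa [h13.symm, h23.symm] using b3⟩
      show HasOrd O _ (if O = O then -2 else 1)
      rw [if_pos rfl]
      refine ⟨y, hy0, hv3y, hu₃, ?_⟩
      have h3 : O.valuation (aeval s H1) = 1 := by
        apply le_antisymm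
        · rw [hs, quad_aeval]
          exact (O.valuation_le_one_iff _).2 (hm₃ _)
        · rw [← not_lt, hs, quad_aeval, hv₃, he₃]
          exact hH1'
      have h4 : O.valuation y ^ 2 = O.valuation (s - algebraMap k F s1) := by
        rw [← map_pow, hy2]
        conv_lhs => rw [hH1]
        rw [map_mul, map_mul, h3, mul_one, map_sub, aeval_X, aeval_C]
      rw [map_div₀, hdiff O hO₃ s1 s0 hs01.symm hv3s, ← h4, zpow_neg, one_div]
      rfl
  · rw [Finset.sum_insert (by simp [h12, h13]), Finset.sum_insert (by simp [h23]),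
      Finset.sum_singleton]
    simp only [if_neg h13, if_neg h23, if_true, if_neg h12.symm, if_neg h13.symm, if_neg h23.symm]
    rw [← add_assoc, Finsupp.single_neg, sub_eq_add_neg]

end Pool.Agent.ZC
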